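import Pool.Agent.V7H75.TP.Def
import Pool.Agent.V7H75.HF.Pair

set_option autoImplicit false

/-!
Computability of the construction for a pair of functionals.
-/

namespace Pool.Agent.V7H75.TP

open Encodable Pool.Agent.Helper227 Pool.Agent.V7H75.HF
open Pool.Agent.H548R2.Post (hlt En ext En_mono En_congr mem_WE_iff primrec_pow)

/-! ### general -/

section tools

variable {α β : Type} [Primcodable α] [Primcodable β]

theorem UD.of_bool {f : α → Bool} (hf : Computable f) : UD fun _ a => f a = true :=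
  UD.of_comp (p := fun b : Bool => b = true) (Primrec.eq.comp Primrec.id (Primrec.const true)) hf

theorem UD.le {f g : α → ℕ} (hf : Computable f) (hg : Computable g) : UD fun _ a => f a ≤ g a :=
  UD.of_comp (p := fun x : ℕ × ℕ => x.1 ≤ x.2) Primrec.nat_le (hf.pair hg)

theorem UD.lt {f g : α → ℕ} (hf : Computable f) (hg : Computable g) : UD fun _ a => f a < g a :=
  UD.of_comp (p := fun x : ℕ × ℕ => x.1 < x.2) Primrec.nat_lt (hf.pair hg)

theorem UD.eqn {f g : α → ℕ} (hf : Computable f) (hg : Computable g) : UD fun _ a => f a = g a :=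
  UD.of_comp (p := fun x : ℕ × ℕ => x.1 = x.2) Primrec.eq (hf.pair hg)

theorem UD.iff {p q : (ℕ → Bool) → α → Prop} (hp : UD p) (hq : UD q) :
    UD fun B a => (p B a ↔ q B a) :=
  (UD.and (UD.imp hp hq) (UD.imp hq hp)).of_eq fun _ _ => by tauto

theorem c_add {f g : α → ℕ} (hf : Computable f) (hg : Computable g) :
    Computable fun a => f a + g a :=
  Computable₂.comp (f := fun a b : ℕ => a + b) Primrec.nat_add.to_comp hf hg

theorem c_mul {f g : α → ℕ} (hf : Computable f) (hg : Computable g) :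
    Computable fun a => f a * g a :=
  Computable₂.comp (f := fun a b : ℕ => a * b) Primrec.nat_mul.to_comp hf hg

theorem c_pow {g : α → ℕ} (hg : Computable g) : Computable fun a => 2 ^ g a :=
  Computable₂.comp (f := fun a b : ℕ => a ^ b) primrec_pow.to_comp (Computable.const 2) hg

theorem c_pair {f g : α → ℕ} (hf : Computable f) (hg : Computable g) :
    Computable fun a => Nat.pair (f a) (g a) :=
  Computable₂.comp (f := fun a b : ℕ => Nat.pair a b) Primrec₂.natPair.to_comp hf hg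

theorem c_cast {f : α → ℕ} (hf : Computable f) : Computable fun a => ((f a : ℕ) : ℤ) :=
  (Computable₂.comp (f := fun a b : ℕ => (a : ℤ) - (b : ℤ)) prim_mkZ.to_comp hf
    (Computable.const 0)).of_eq fun a => by simp

theorem c_neg {f : α → ℤ} (hf : Computable f) : Computable fun a => - f a :=
  (Computable₂.comp (f := fun a b : ℕ => (a : ℤ) - (b : ℤ)) prim_mkZ.to_comp
    (prim_negToNat.to_comp.comp hf) (prim_toNat.to_comp.comp hf)).of_eq fun a => by omega

theorem c_subZ {f g : α → ℤ} (hf : Computable f) (hg : Computable g) :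
    Computable fun a => f a - g a :=
  (comp_addZ hf (c_neg hg)).of_eq fun a => by ring

/-- decidable predicates without an oracle are Sigma-one -/
theorem S1_of_U1 {P : α → Prop} (hP : U1 fun _ a => P a) : S1 P := by
  obtain ⟨E, hE, mE, eE⟩ := hP
  have h1 : S1 fun a => ∃ σ : List Bool, E (σ, a) :=
    S1.ex (p := fun a (σ : List Bool) => E (σ, a)) (hE.comp (Primrec.snd.pair Primrec.fst))
  refine h1.of_eq fun a => ⟨?_, fun h => ?_⟩
  · rintro ⟨σ, hσ⟩
    refine (eE (ext σ) a).2 ⟨σ.length, ?_⟩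
    have : pre (ext σ) σ.length = σ := by
      refine List.ext_getElem (by simp) fun i h5 h6 => ?_
      rw [getElem_pre]
      exact List.getD_eq_getElem _ _ h6
    rwa [this]
  · obtain ⟨s, hs⟩ := (eE (fun _ => false) a).1 h
    exact ⟨_, hs⟩

theorem UD.of_preC {P : List Bool × α → Prop} (hP : UD fun _ (x : List Bool × α) => P x)
    {u : α → ℕ} (hu : Computable u) : UD fun B a => P (pre B (u a), a) :=
  ⟨U1.of_pre (S1_of_U1 hP.pos) hu, U1.of_pre (P := fun x => ¬ P x) (S1_of_U1 hP.neg) hu⟩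

end tools

/-! ### the cuts of a sequence of oracles -/

section general

variable {x : (ℕ → Bool) → ℤ → ℕ → Bool} (hx : UD fun B (y : ℤ × ℕ) => x B y.1 y.2 = true)

include hx

theorem glab_UF : UF fun B (y : ℤ × ℕ) => lab (x B) y.2 y.1 := by
  have h1 : UF fun B (n : ℕ) => val (pre B n) :=
    UF.of_pre (f := fun y : List Bool × ℕ => val y.1) (val_prim.comp Primrec.fst) Computable.id
  exact UF.sub (F := fun B i => x B i) hx h1

theorem glab_le_UD : UD fun B (y : (ℤ × ℤ) × ℕ) => lab (x B) y.2 y.1.1 ≤ lab (x B) y.2 y.1.2 := by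
  have h1 : UF fun B (y : (ℤ × ℤ) × ℕ) => lab (x B) y.2 y.1.1 :=
    (glab_UF hx).comp (g := fun y : (ℤ × ℤ) × ℕ => (y.1.1, y.2))
      ((Computable.fst.comp Computable.fst).pair Computable.snd)
  have h2 : UF fun B (y : ((ℤ × ℤ) × ℕ) × ℕ) => lab (x B) y.1.2 y.1.1.2 :=
    (glab_UF hx).comp (g := fun y : ((ℤ × ℤ) × ℕ) × ℕ => (y.1.1.2, y.1.2))
      (((Computable.snd.comp (Computable.fst.comp Computable.fst))).pair
        (Computable.snd.comp Computable.fst))
  refine UF.pred (p := fun B (y : (ℤ × ℤ) × ℕ) (v : ℕ) => v ≤ lab (x B) y.2 y.1.2) h1 ?_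
  refine UF.pred (α := ((ℤ × ℤ) × ℕ) × ℕ) (p := fun _ y w => y.2 ≤ w) h2 ?_
  exact UD.of_prim (Primrec.nat_le.comp (Primrec.snd.comp Primrec.fst) Primrec.snd)

theorem gP_UD : UD fun B (y : ℕ × ℤ) => P (x B) y.1 y.2 := by
  refine UD.iter' (Y := fun B n j => P (x B) n j) (S := fun W (y : ℕ × ℤ) =>
    nP (lab (x (evn W)) (y.1 + 1)) (y.1 + 1) (rd W) y.2) ?_ ?_ ?_
  · exact UD.of_prim (PP.const True)
  · refine UD.and (UD.rd.comp Computable.snd) ?_
    have h1 : UD fun W (y : ℕ × ℤ) => ∀ k : ℤ, |k| ≤ ((y.1 + 1 : ℕ) : ℤ) →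
        (rd W (y.2 + k) → lab (x (evn W)) (y.1 + 1) y.2 ≤
          lab (x (evn W)) (y.1 + 1) (y.2 + k)) := by
      refine UD.all_win (p := fun W (y : ℕ × ℤ) k => (rd W (y.2 + k) →
        lab (x (evn W)) (y.1 + 1) y.2 ≤ lab (x (evn W)) (y.1 + 1) (y.2 + k)))
        (UD.imp ?_ ?_) (Computable.succ.comp Computable.fst)
      · exact UD.rd.comp (comp_addZ (Computable.snd.comp Computable.fst) Computable.snd)
      · have h2 := UD.evn (glab_le_UD hx)
        exact h2.comp (f := fun y : (ℕ × ℤ) × ℤ => ((y.1.2, y.1.2 + y.2), y.1.1 + 1))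
          (((Computable.snd.comp Computable.fst).pair
            (comp_addZ (Computable.snd.comp Computable.fst) Computable.snd)).pair
            (Computable.succ.comp (Computable.fst.comp Computable.fst)))
    exact h1
  · intro B n j
    simp only [evn_join, rd_join]
    exact Iff.rfl

theorem gQU_UD : UD fun B (y : ℕ × Bool × ℤ) => QU (x B) y.1 y.2.1 y.2.2 := by
  have hP := gP_UD hx
  refine UD.iter' (Y := fun B n (y : Bool × ℤ) => QU (x B) n y.1 y.2)
    (S := fun W (y : ℕ × Bool × ℤ) =>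
      (y.2.1 = true ∧ nU (P (x (evn W)) y.1) (P (x (evn W)) (y.1 + 1))
        (fun j => rd W (false, j)) (fun j => rd W (true, j)) (gp (y.1 + 1)) y.2.2) ∨
      (y.2.1 = false ∧ nQ (P (x (evn W)) y.1) (P (x (evn W)) (y.1 + 1))
        (fun j => rd W (false, j)) (fun j => rd W (true, j)) (gp (y.1 + 1)) y.2.2)) ?_ ?_ ?_
  · refine (UD.of_prim (α := Bool × ℤ) (p := fun y => y.1 = false)
      (Primrec.eq.comp Primrec.fst (Primrec.const false))).of_eq fun B y => Iff.rfl
  · have h1 : UD fun W (y : (ℕ × Bool × ℤ) × ℤ) => P (x (evn W)) y.1.1 y.2 :=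
      (UD.evn hP).comp (f := fun y : (ℕ × Bool × ℤ) × ℤ => (y.1.1, y.2))
        ((Computable.fst.comp Computable.fst).pair Computable.snd)
    have h2 : UD fun W (y : (ℕ × Bool × ℤ) × ℤ) => P (x (evn W)) (y.1.1 + 1) y.2 :=
      (UD.evn hP).comp (f := fun y : (ℕ × Bool × ℤ) × ℤ => (y.1.1 + 1, y.2))
        ((Computable.succ.comp (Computable.fst.comp Computable.fst)).pair Computable.snd)
    have h3 : UD fun W (y : (ℕ × Bool × ℤ) × ℤ) => rd W (false, y.2) :=
      UD.rd.comp (f := fun y : (ℕ × Bool × ℤ) × ℤ => (false, y.2))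
        ((Computable.const false).pair Computable.snd)
    have h4 : UD fun W (y : (ℕ × Bool × ℤ) × ℤ) => rd W (true, y.2) :=
      UD.rd.comp (f := fun y : (ℕ × Bool × ℤ) × ℤ => (true, y.2))
        ((Computable.const true).pair Computable.snd)
    have hb : Computable fun y : ℕ × Bool × ℤ => gp (y.1 + 1) :=
      gp_comp.comp (Computable.succ.comp Computable.fst)
    have hj : Computable fun y : ℕ × Bool × ℤ => y.2.2 := Computable.snd.comp Computable.snd
    refine UD.or (UD.and ?_ ?_) (UD.and ?_ ?_)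
    · exact UD.of_prim (Primrec.eq.comp (Primrec.fst.comp Primrec.snd) (Primrec.const true))
    · exact UD.nU (P := fun W (y : ℕ × Bool × ℤ) => P (x (evn W)) y.1)
        (P' := fun W (y : ℕ × Bool × ℤ) => P (x (evn W)) (y.1 + 1))
        (Q := fun W (y : ℕ × Bool × ℤ) j => rd W (false, j))
        (U := fun W (y : ℕ × Bool × ℤ) j => rd W (true, j)) h1 h2 h3 h4 hb hj
    · exact UD.of_prim (Primrec.eq.comp (Primrec.fst.comp Primrec.snd) (Primrec.const false))
    · exact UD.nQ (P := fun W (y : ℕ × Bool × ℤ) => P (x (evn W)) y.1)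
        (P' := fun W (y : ℕ × Bool × ℤ) => P (x (evn W)) (y.1 + 1))
        (Q := fun W (y : ℕ × Bool × ℤ) j => rd W (false, j))
        (U := fun W (y : ℕ × Bool × ℤ) j => rd W (true, j)) h1 h2 h3 h4 hb hj
  · rintro B n ⟨b, j⟩
    simp only [evn_join, rd_join]
    cases b
    · simp only [Bool.false_eq_true, false_and, false_or, true_and]
      exact Q_succ
    · simp only [Bool.true_eq_false, false_and, or_false, true_and]
      exact U_succ

theorem gQ_UD : UD fun B (y : ℕ × ℤ) => Q (x B) y.1 y.2 :=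
  (gQU_UD hx).comp (f := fun y : ℕ × ℤ => (y.1, (false, y.2)))
    (Computable.fst.pair ((Computable.const false).pair Computable.snd))

theorem cod_UD : UD fun B (y : ℤ × ℕ) => cod (x B) y.1 y.2 = true := by
  have h0 : UD fun B (y : ℤ × ℕ) => x B y.1 0 = true :=
    hx.comp (f := fun y : ℤ × ℕ => (y.1, 0)) (Computable.fst.pair (Computable.const 0))
  have hb2 : Computable fun y : ℤ × ℕ => y.2 / 2 + 1 :=
    (Primrec.succ.comp (Primrec.nat_div.comp Primrec.snd (Primrec.const 2))).to_comp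
  have hodd : UD fun (_ : ℕ → Bool) (y : ℤ × ℕ) => y.2 % 2 = 1 :=
    UD.of_prim (Primrec.eq.comp (Primrec.nat_mod.comp Primrec.snd (Primrec.const 2))
      (Primrec.const 1))
  have hz : UD fun (_ : ℕ → Bool) (y : ℤ × ℕ) => y.2 = 0 :=
    UD.of_prim (Primrec.eq.comp Primrec.snd (Primrec.const 0))
  have h1 : UD fun B (y : ℤ × ℕ) => ∀ k < y.2 / 2 + 1, ¬ x B (y.1 - (k : ℕ)) 0 = true := by
    refine UD.all_lt (p := fun B (y : ℤ × ℕ) k => ¬ x B (y.1 - (k : ℕ)) 0 = true) (UD.not ?_) hb2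
    exact hx.comp (f := fun z : (ℤ × ℕ) × ℕ => (z.1.1 - (z.2 : ℕ), 0))
      ((c_subZ (Computable.fst.comp Computable.fst) (c_cast Computable.snd)).pair
        (Computable.const 0))
  have h2 : UD fun B (y : ℤ × ℕ) => ∀ k < y.2 / 2 + 1, ¬ x B (y.1 + (k : ℕ)) 0 = true := by
    refine UD.all_lt (p := fun B (y : ℤ × ℕ) k => ¬ x B (y.1 + (k : ℕ)) 0 = true) (UD.not ?_) hb2
    exact hx.comp (f := fun z : (ℤ × ℕ) × ℕ => (z.1.1 + (z.2 : ℕ), 0))
      ((comp_addZ (Computable.fst.comp Computable.fst) (c_cast Computable.snd)).pair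
        (Computable.const 0))
  refine (UD.or (UD.and h0 hx) (UD.and h0.not (UD.and hz.not (UD.or (UD.and hodd h1)
    (UD.and hodd.not h2))))).of_eq fun B y => ?_
  unfold cod
  by_cases a1 : x B y.1 0 = true
  · simp [a1]
  · by_cases a2 : y.2 = 0
    · simp [a1, a2]
    · by_cases a3 : y.2 % 2 = 1
      · simp [a1, a2, a3]
      · simp [a1, a2, a3]

end general

/-- the rows of an oracle, numbered by the integers -/
def rowz (O : ℕ → Bool) (j : ℤ) (b : ℕ) : Bool := O (encode ((j, b) : ℤ × ℕ))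

theorem rowz_UD : UD fun O (y : ℤ × ℕ) => rowz O y.1 y.2 = true :=
  UD.query.comp (f := fun y : ℤ × ℕ => encode y) Computable.encode

/-- an oracle from its rows -/
def colz (w : ℤ → ℕ → Bool) (m : ℕ) : Bool := w (dp m).1 (dp m).2

theorem rowz_colz (w : ℤ → ℕ → Bool) : rowz (colz w) = w := by
  funext j b
  unfold rowz colz
  rw [dp_encode]

/-- the rows of an oracle, numbered by the natural numbers -/
def rown (O : ℕ → Bool) (q m : ℕ) : Bool := O (Nat.pair q m)

theorem rown_UD : UD fun O (y : ℕ × ℕ) => rown O y.1 y.2 = true :=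
  UD.query.comp (f := fun y : ℕ × ℕ => Nat.pair y.1 y.2) (c_pair Computable.fst Computable.snd)

/-! ### the labels -/

theorem lhi_comp : Computable lhi := (Primrec.fst.comp Primrec.unpair).to_comp

theorem sec_prim : Primrec fun i : ℕ => i.unpair.2 := Primrec.snd.comp Primrec.unpair

theorem fst_prim : Primrec fun i : ℕ => i.unpair.1 := Primrec.fst.comp Primrec.unpair

theorem llv_comp : Computable llv := (fst_prim.comp sec_prim).to_comp

theorem lf_comp : Computable lf := (fst_prim.comp (sec_prim.comp sec_prim)).to_comp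

theorem lk_comp : Computable lk := (fst_prim.comp (sec_prim.comp (sec_prim.comp sec_prim))).to_comp

theorem lL_comp : Computable lL := (sec_prim.comp (sec_prim.comp (sec_prim.comp sec_prim))).to_comp

theorem aP_comp : Computable aP := by
  have h := Computable.nat_rec (f := fun n : ℕ => n) (g := fun _ : ℕ => (0 : ℕ))
    (h := fun (_ : ℕ) (y : ℕ × ℕ) => y.2 + (y.1 + 1)) Computable.id (Computable.const 0)
    (c_add (Computable.snd.comp Computable.snd)
      (Computable.succ.comp (Computable.fst.comp Computable.snd)))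
  refine h.of_eq fun n => ?_
  induction n with
  | zero => rfl
  | succ n ih =>
    simp only at ih ⊢
    rw [ih]
    rfl

theorem aQ_comp : Computable aQ := by
  have h := Computable.nat_rec (f := fun n : ℕ => n) (g := fun _ : ℕ => (0 : ℕ))
    (h := fun (_ : ℕ) (y : ℕ × ℕ) => gp (y.1 + 1) + aP (y.1 + 1) + y.2) Computable.id
    (Computable.const 0)
    (c_add (c_add (gp_comp.comp (Computable.succ.comp (Computable.fst.comp Computable.snd)))
      (aP_comp.comp (Computable.succ.comp (Computable.fst.comp Computable.snd))))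
      (Computable.snd.comp Computable.snd))
  refine h.of_eq fun n => ?_
  induction n with
  | zero => rfl
  | succ n ih =>
    simp only at ih ⊢
    rw [ih]
    rfl

theorem aa_comp : Computable aa := c_add aQ_comp Computable.id

theorem lo_comp : Computable lo := Computable.succ.comp aa_comp

theorem ell_comp : Computable ell :=
  c_add (c_add (c_mul (Computable.const 2) aa_comp) (c_mul (Computable.const 4) gp_comp))
    (Computable.const 4)

theorem yy_UD : UD fun _ (y : (ℕ × ℕ) × (ℤ × ℕ)) => yy y.1.1 y.1.2 y.2.1 y.2.2 = true := by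
  have h1 : PrimrecPred fun y : (ℕ × ℕ) × (ℤ × ℕ) => 0 ≤ y.2.1 :=
    prim_leZ.comp (Primrec.const 0) (Primrec.fst.comp Primrec.snd)
  have h2 : PrimrecPred fun y : (ℕ × ℕ) × (ℤ × ℕ) => y.2.2 ≤ y.1.1 :=
    Primrec.nat_le.comp (Primrec.snd.comp Primrec.snd) (Primrec.fst.comp Primrec.fst)
  have h3 : PrimrecPred fun y : (ℕ × ℕ) × (ℤ × ℕ) =>
      y.1.2 / 2 ^ (y.2.1.toNat * (y.1.1 + 1) + y.2.2) % 2 = 1 := by
    refine Primrec.eq.comp (Primrec.nat_mod.comp (Primrec.nat_div.comp
      (Primrec.snd.comp Primrec.fst) (primrec_pow.comp (Primrec.const 2) ?_)) (Primrec.const 2))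
      (Primrec.const 1)
    exact Primrec.nat_add.comp (Primrec.nat_mul.comp
      (prim_toNat.comp (Primrec.fst.comp Primrec.snd)) (Primrec.succ.comp
        (Primrec.fst.comp Primrec.fst))) (Primrec.snd.comp Primrec.snd)
  refine (UD.of_prim (h1.and (h2.and h3))).of_eq fun _ y => ?_
  unfold yy
  simp

theorem pQ_UD : UD fun _ (y : (ℕ × ℕ) × (ℕ × ℤ)) => Q (cod (yy y.1.1 y.1.2)) y.2.1 y.2.2 := by
  have hF : UD fun (_ : ℕ → Bool) (y : (ℕ × ℕ) × ℕ) => colz (yy y.1.1 y.1.2) y.2 = true :=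
    yy_UD.comp (f := fun y : (ℕ × ℕ) × ℕ => (y.1, dp y.2))
      (Computable.fst.pair (dp_comp.comp Computable.snd))
  have h1 := UD.sub (F := fun (_ : ℕ → Bool) (y : ℕ × ℕ) => colz (yy y.1 y.2)) hF
    (gQ_UD (cod_UD rowz_UD))
  refine h1.of_eq fun B y => ?_
  rw [rowz_colz]

theorem Valid_UD : UD fun _ (i : ℕ) => Valid i := by
  have hn := llv_comp
  have hhi := Computable.succ.comp lhi_comp
  have hlo : Computable fun i : ℕ => lo (llv i) := lo_comp.comp hn
  have hell : Computable fun i : ℕ => ell (llv i) := ell_comp.comp hn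
  have haa : Computable fun i : ℕ => aa (llv i) := aa_comp.comp hn
  have hpat : ∀ (γ : Type) [Primcodable γ] (a : γ → ℕ) (j : γ → ℤ) (b : γ → ℕ), Computable a →
      Computable j → Computable b →
      UD fun (_ : ℕ → Bool) (y : γ) => yy (llv (a y)) (lL (a y)) (j y) (b y) = true :=
    fun γ _ a j b ha hj hb => yy_UD.comp (f := fun y : γ => ((llv (a y), lL (a y)), (j y, b y)))
      (((hn.comp ha).pair (lL_comp.comp ha)).pair (hj.pair hb))
  have hcut : ∀ (γ : Type) [Primcodable γ] (a : γ → ℕ) (j : γ → ℤ), Computable a →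
      Computable j →
      UD fun (_ : ℕ → Bool) (y : γ) => Q (cod (yy (llv (a y)) (lL (a y)))) (llv (a y)) (j y) :=
    fun γ _ a j ha hj => pQ_UD.comp (f := fun y : γ => ((llv (a y), lL (a y)), (llv (a y), j y)))
      (((hn.comp ha).pair (lL_comp.comp ha)).pair ((hn.comp ha).pair hj))
  refine UD.and (UD.and ?_ (UD.and ?_ (UD.and ?_ (UD.and ?_ ?_)))) (UD.and ?_ (UD.and ?_
    (UD.and (UD.or ?_ ?_) (UD.or ?_ ?_))))
  · exact UD.le hlo lf_comp
  · exact UD.lt lf_comp hhi
  · exact UD.lt (c_add hhi haa) hell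
  · exact UD.le lk_comp hn
  · exact UD.lt lL_comp (c_pow (c_mul hell (Computable.succ.comp hn)))
  · refine UD.all_lt (p := fun _ i j => lo (llv i) ≤ j → yy (llv i) (lL i) j 0 = true)
      (f := fun i => lhi i + 1) (UD.imp ?_ ?_) hhi
    · exact UD.le (hlo.comp Computable.fst) Computable.snd
    · exact hpat (ℕ × ℕ) (fun y => y.1) (fun y => y.2) (fun _ => 0) Computable.fst
        (c_cast Computable.snd) (Computable.const 0)
  · refine UD.all_lt (p := fun _ i j => lo (llv i) < j →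
      ¬ Q (cod (yy (llv i) (lL i))) (llv i) j) (f := fun i => lhi i + 1) (UD.imp ?_ (UD.not ?_)) hhi
    · exact UD.lt (hlo.comp Computable.fst) Computable.snd
    · exact hcut (ℕ × ℕ) (fun y => y.1) (fun y => y.2) Computable.fst (c_cast Computable.snd)
  · exact (hpat ℕ (fun i => i) (fun i => (lo (llv i) : ℤ) - 1) (fun _ => 0) Computable.id
      (c_subZ (c_cast hlo) (Computable.const 1)) (Computable.const 0)).not.of_eq fun B i => by
        rw [Bool.not_eq_true]
  · exact hcut ℕ (fun i => i) (fun i => (lo (llv i) : ℤ)) Computable.id (c_cast hlo)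
  · exact (hpat ℕ (fun i => i) (fun i => (lhi i : ℤ) + 1) (fun _ => 0) Computable.id
      (comp_addZ (c_cast lhi_comp) (Computable.const 1)) (Computable.const 0)).not.of_eq
        fun B i => by rw [Bool.not_eq_true]
  · exact hcut ℕ (fun i => i) (fun i => (lhi i : ℤ) + 1) Computable.id
      (comp_addZ (c_cast lhi_comp) (Computable.const 1))

/-! ### the functionals -/

section func

variable {g h : Str → Str} (hg : Computable g) (hh : Computable h)

theorem it_comp (hg : Computable g) : Computable fun y : ℕ × Str => g^[y.1] y.2 := by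
  have h1 := Computable.nat_rec (f := fun y : ℕ × Str => y.1) (g := fun y : ℕ × Str => y.2)
    (h := fun (_ : ℕ × Str) (z : ℕ × Str) => g z.2) Computable.fst Computable.snd
    (hg.comp (Computable.snd.comp Computable.snd))
  refine h1.of_eq fun y => ?_
  rcases y with ⟨n, σ⟩
  simp only
  induction n with
  | zero => rfl
  | succ n ih =>
    simp only at ih ⊢
    rw [ih, Function.iterate_succ_apply']

include hg hh

theorem gz_comp : Computable fun y : ℤ × Str => gz g h y.1 y.2 := by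
  have h0 : Computable fun y : ℤ × Str => decide (0 ≤ y.1) :=
    (prim_leZ.decide.to_comp.comp (Computable.const 0) Computable.fst)
  have h1 : Computable fun y : ℤ × Str => g^[y.1.toNat] y.2 :=
    (it_comp hg).comp ((prim_toNat.to_comp.comp Computable.fst).pair Computable.snd)
  have h2 : Computable fun y : ℤ × Str => h^[(-y.1).toNat] y.2 :=
    (it_comp hh).comp ((prim_negToNat.to_comp.comp Computable.fst).pair Computable.snd)
  refine (Computable.cond h0 h1 h2).of_eq fun y => ?_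
  unfold gz
  by_cases hy : 0 ≤ y.1
  · simp [hy]
  · simp [hy]

theorem ok_UD : UD fun _ (y : ℕ × Str) => ok g h y.1 y.2 := by
  have hl : Computable fun y : ℕ × Str => y.2.length := Computable.list_length.comp Computable.snd
  have ht : Computable fun y : ℕ × Str => y.2.take y.1 :=
    (Primrec.list_take.comp Primrec.fst Primrec.snd).to_comp
  have hp : PrimrecPred fun x : Str × Str => x.1 <+: x.2 := by
    refine (Primrec.eq.comp (f := fun x : Str × Str => x.1)
      (g := fun x : Str × Str => x.2.take x.1.length) Primrec.fst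
      (Primrec.list_take.comp (Primrec.list_length.comp Primrec.fst) Primrec.snd)).of_eq fun x => ?_
    exact List.prefix_iff_eq_take.symm
  refine UD.and (UD.le Computable.fst hl) ?_
  exact UD.of_comp (p := fun x : Str × Str => x.1 <+: x.2) hp
    (ht.pair (hh.comp (hg.comp Computable.snd)))

theorem ver_UD : UD fun _ (y : (ℕ × ℕ) × Str) => ver g h y.1.1 y.1.2 y.2 := by
  refine UD.and (UD.le (Computable.fst.comp Computable.fst)
    (Computable.list_length.comp Computable.snd)) ?_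
  refine UD.all_lt (p := fun _ (y : (ℕ × ℕ) × Str) l => ok g h y.1.1 (g^[l] y.2))
    (f := fun y => y.1.2) ?_ (Computable.snd.comp Computable.fst)
  exact (ok_UD hg hh).comp (f := fun z : ((ℕ × ℕ) × Str) × ℕ => (z.1.1.1, g^[z.2] z.1.2))
    ((Computable.fst.comp (Computable.fst.comp Computable.fst)).pair ((it_comp hg).comp
      (Computable.snd.pair (Computable.snd.comp Computable.fst))))

theorem verz_UD : UD fun _ (y : (ℕ × ℤ) × Str) => verz g h y.1.1 y.1.2 y.2 := by
  have h0 : UD fun (_ : ℕ → Bool) (y : (ℕ × ℤ) × Str) => 0 ≤ y.1.2 :=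
    UD.leZ (Computable.const 0) (Computable.snd.comp Computable.fst)
  have h1 : UD fun (_ : ℕ → Bool) (y : (ℕ × ℤ) × Str) => ver g h y.1.1 y.1.2.toNat y.2 :=
    (ver_UD hg hh).comp (f := fun y : (ℕ × ℤ) × Str => ((y.1.1, y.1.2.toNat), y.2))
      (((Computable.fst.comp Computable.fst).pair
        (prim_toNat.to_comp.comp (Computable.snd.comp Computable.fst))).pair Computable.snd)
  have h2 : UD fun (_ : ℕ → Bool) (y : (ℕ × ℤ) × Str) => ver h g y.1.1 (-y.1.2).toNat y.2 :=
    (ver_UD hh hg).comp (f := fun y : (ℕ × ℤ) × Str => ((y.1.1, (-y.1.2).toNat), y.2))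
      (((Computable.fst.comp Computable.fst).pair
        (prim_negToNat.to_comp.comp (Computable.snd.comp Computable.fst))).pair Computable.snd)
  refine (UD.or (UD.and h0 h1) (UD.and h0.not h2)).of_eq fun _ y => ?_
  unfold verz
  by_cases hy : 0 ≤ y.1.2
  · simp [hy]
  · simp [hy]

theorem Raw_UD : UD fun _ (y : (ℕ × Str) × (ℤ × ℕ)) => Raw g h y.1.1 y.1.2 y.2.1 y.2.2 = true := by
  have hb : Computable fun y : (ℕ × Str) × (ℤ × ℕ) => y.2.2 := Computable.snd.comp Computable.snd
  have hj : Computable fun y : (ℕ × Str) × (ℤ × ℕ) => y.2.1 := Computable.fst.comp Computable.snd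
  have hs : Computable fun y : (ℕ × Str) × (ℤ × ℕ) => y.1.2 := Computable.snd.comp Computable.fst
  have h1 : UD fun (_ : ℕ → Bool) (y : (ℕ × Str) × (ℤ × ℕ)) => y.2.2 ≤ y.1.1 :=
    UD.le hb (Computable.fst.comp Computable.fst)
  have h2 : UD fun (_ : ℕ → Bool) (y : (ℕ × Str) × (ℤ × ℕ)) => verz g h y.1.1 y.2.1 y.1.2 :=
    (verz_UD hg hh).comp (f := fun y : (ℕ × Str) × (ℤ × ℕ) => ((y.1.1, y.2.1), y.1.2))
      (((Computable.fst.comp Computable.fst).pair hj).pair hs)
  have h3 : UD fun (_ : ℕ → Bool) (y : (ℕ × Str) × (ℤ × ℕ)) => y.2.2 = 0 :=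
    UD.eqn hb (Computable.const 0)
  have h4 : UD fun (_ : ℕ → Bool) (y : (ℕ × Str) × (ℤ × ℕ)) =>
      (gz g h y.2.1 y.1.2).getD (y.2.2 - 1) false = true :=
    UD.of_bool (Computable₂.comp (f := fun (l : List Bool) (n : ℕ) => l.getD n false)
      (Primrec.list_getD false).to_comp ((gz_comp hg hh).comp (hj.pair hs))
      (Primrec.pred.to_comp.comp hb))
  refine (UD.and h1 (UD.and h2 (UD.or h3 h4))).of_eq fun _ y => ?_
  unfold Raw
  simp

theorem mt_UD : UD fun Y (y : ℕ × ℕ × ℕ) => mt g h y.1 y.2.1 y.2.2 Y := by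
  have hi : Computable fun z : ((ℕ × ℕ × ℕ) × ℕ) × ℕ => z.1.1.1 :=
    Computable.fst.comp (Computable.fst.comp Computable.fst)
  have hj : Computable fun z : ((ℕ × ℕ × ℕ) × ℕ) × ℕ => z.1.2 := Computable.snd.comp Computable.fst
  have hq : Computable fun z : ((ℕ × ℕ × ℕ) × ℕ) × ℕ => z.1.1.2.1 :=
    Computable.fst.comp (Computable.snd.comp (Computable.fst.comp Computable.fst))
  have hs : Computable fun z : ((ℕ × ℕ × ℕ) × ℕ) × ℕ => z.1.1.2.2 :=
    Computable.snd.comp (Computable.snd.comp (Computable.fst.comp Computable.fst))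
  refine UD.all_lt (p := fun Y (y : ℕ × ℕ × ℕ) j => ∀ b < llv y.1 + 1,
    Raw g h (llv y.1) (pre Y y.2.2) ((j : ℤ) - y.2.1) b = yy (llv y.1) (lL y.1) j b)
    (f := fun y => ell (llv y.1)) ?_ (ell_comp.comp (llv_comp.comp Computable.fst))
  refine UD.all_lt (p := fun Y (z : (ℕ × ℕ × ℕ) × ℕ) b =>
    Raw g h (llv z.1.1) (pre Y z.1.2.2) ((z.2 : ℤ) - z.1.2.1) b = yy (llv z.1.1) (lL z.1.1) z.2 b)
    (f := fun z => llv z.1.1 + 1) ?_
    (Computable.succ.comp (llv_comp.comp (Computable.fst.comp Computable.fst)))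
  have h1 : UD fun (_ : ℕ → Bool) (w : List Bool × (((ℕ × ℕ × ℕ) × ℕ) × ℕ)) =>
      Raw g h (llv w.2.1.1.1) w.1 ((w.2.1.2 : ℤ) - w.2.1.1.2.1) w.2.2 = true :=
    (Raw_UD hg hh).comp (f := fun w : List Bool × (((ℕ × ℕ × ℕ) × ℕ) × ℕ) =>
      ((llv w.2.1.1.1, w.1), ((w.2.1.2 : ℤ) - w.2.1.1.2.1, w.2.2)))
      (((llv_comp.comp (hi.comp Computable.snd)).pair Computable.fst).pair
        ((c_subZ (c_cast (hj.comp Computable.snd)) (c_cast (hq.comp Computable.snd))).pair
          (Computable.snd.comp Computable.snd)))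
  have h2 := UD.of_preC (P := fun w : List Bool × (((ℕ × ℕ × ℕ) × ℕ) × ℕ) =>
      Raw g h (llv w.2.1.1.1) w.1 ((w.2.1.2 : ℤ) - w.2.1.1.2.1) w.2.2 = true) h1 hs
  have h3 : UD fun (_ : ℕ → Bool) (z : ((ℕ × ℕ × ℕ) × ℕ) × ℕ) =>
      yy (llv z.1.1.1) (lL z.1.1.1) z.1.2 z.2 = true :=
    yy_UD.comp (f := fun z : ((ℕ × ℕ × ℕ) × ℕ) × ℕ =>
      ((llv z.1.1.1, lL z.1.1.1), ((z.1.2 : ℤ), z.2)))
      (((llv_comp.comp hi).pair (lL_comp.comp hi)).pair ((c_cast hj).pair Computable.snd))
  exact (UD.iff h2 h3).of_eq fun Y z => Bool.eq_iff_iff.symm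

omit hg hh in
theorem st_UD : UD fun Y (y : ℕ × ℕ × ℕ) => st y.1 y.2.1 y.2.2 Y := by
  have hi : Computable fun z : ((ℕ × ℕ × ℕ) × ℕ) × ℕ => z.1.1.1 :=
    Computable.fst.comp (Computable.fst.comp Computable.fst)
  have hc : Computable fun z : ((ℕ × ℕ × ℕ) × ℕ) × ℕ => z.1.2 := Computable.snd.comp Computable.fst
  have hx : Computable fun z : ((ℕ × ℕ × ℕ) × ℕ) × ℕ => z.1.1.2.1 :=
    Computable.fst.comp (Computable.snd.comp (Computable.fst.comp Computable.fst))
  have hs : Computable fun z : ((ℕ × ℕ × ℕ) × ℕ) × ℕ => z.1.1.2.2 :=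
    Computable.snd.comp (Computable.snd.comp (Computable.fst.comp Computable.fst))
  refine UD.all_lt (p := fun Y (y : ℕ × ℕ × ℕ) c => ∀ w < 2 ^ ((y.1 + 1) * (y.1 + 1)),
    En y.2.2 c (Nat.pair y.1 w) Y → En y.2.1 c (Nat.pair y.1 w) Y)
    (f := fun y => y.1 + 1) ?_ (Computable.succ.comp Computable.fst)
  refine UD.all_lt (p := fun Y (z : (ℕ × ℕ × ℕ) × ℕ) w =>
    En z.1.2.2 z.2 (Nat.pair z.1.1 w) Y → En z.1.2.1 z.2 (Nat.pair z.1.1 w) Y)
    (f := fun z => 2 ^ ((z.1.1 + 1) * (z.1.1 + 1))) (UD.imp ?_ ?_)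
    (c_pow (c_mul (Computable.succ.comp (Computable.fst.comp Computable.fst))
      (Computable.succ.comp (Computable.fst.comp Computable.fst))))
  · exact En_UD.comp (f := fun z : ((ℕ × ℕ × ℕ) × ℕ) × ℕ =>
      (z.1.1.2.2, (z.1.2, Nat.pair z.1.1.1 z.2))) (hs.pair (hc.pair (c_pair hi Computable.snd)))
  · exact En_UD.comp (f := fun z : ((ℕ × ℕ × ℕ) × ℕ) × ℕ =>
      (z.1.1.2.1, (z.1.2, Nat.pair z.1.1.1 z.2))) (hx.pair (hc.pair (c_pair hi Computable.snd)))

omit hg hh in
theorem el_comp {α : Type} [Primcodable α] {i p x : α → ℕ} (hi : Computable i) (hp : Computable p)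
    (hx : Computable x) : Computable fun a => el (i a) (p a) (x a) := c_pair (c_pair hi hp) hx

theorem Good_UD : UD fun O (y : ℕ × ℕ × ℕ) => Good g h y.1 y.2.1 y.2.2 (rown O) := by
  have hi : Computable fun y : ℕ × ℕ × ℕ => y.1 := Computable.fst
  have hx : Computable fun y : ℕ × ℕ × ℕ => y.2.1 := Computable.fst.comp Computable.snd
  have hs : Computable fun y : ℕ × ℕ × ℕ => y.2.2 := Computable.snd.comp Computable.snd
  have hmt : UD fun O (y : ℕ × (ℕ × ℕ × ℕ)) => mt g h y.2.1 y.2.2.1 y.2.2.2 (rown O y.1) :=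
    UD.sub (F := fun O q => rown O q) rown_UD (mt_UD hg hh)
  have hst : UD fun O (y : ℕ × (ℕ × ℕ × ℕ)) => st y.2.1 y.2.2.1 y.2.2.2 (rown O y.1) :=
    UD.sub (F := fun O q => rown O q) rown_UD st_UD
  have hen : UD fun O (y : ℕ × (ℕ × ℕ × ℕ)) => En y.2.1 y.2.2.1 y.2.2.2 (rown O y.1) :=
    UD.sub (F := fun O q => rown O q) rown_UD En_UD
  refine UD.and (Valid_UD.comp hi) (UD.and (UD.lt hx hs) (UD.and ?_ ?_))
  · refine UD.all_lt (p := fun O (y : ℕ × ℕ × ℕ) q => lo (llv y.1) ≤ q →
      mt g h y.1 q y.2.2 (rown O q) ∧ st y.1 y.2.1 y.2.2 (rown O q)) (f := fun y => lhi y.1 + 1)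
      (UD.imp ?_ (UD.and ?_ ?_)) (Computable.succ.comp (lhi_comp.comp hi))
    · exact UD.le (lo_comp.comp (llv_comp.comp (hi.comp Computable.fst))) Computable.snd
    · exact hmt.comp (f := fun z : (ℕ × ℕ × ℕ) × ℕ => (z.2, (z.1.1, (z.2, z.1.2.2))))
        (Computable.snd.pair ((hi.comp Computable.fst).pair
          (Computable.snd.pair (hs.comp Computable.fst))))
    · exact hst.comp (f := fun z : (ℕ × ℕ × ℕ) × ℕ => (z.2, (z.1.1, (z.1.2.1, z.1.2.2))))
        (Computable.snd.pair ((hi.comp Computable.fst).pair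
          ((hx.comp Computable.fst).pair (hs.comp Computable.fst))))
  · exact hen.comp (f := fun y : ℕ × ℕ × ℕ => (lf y.1, (y.2.2, (lk y.1, el y.1 (lf y.1) y.2.1))))
      ((lf_comp.comp hi).pair (hs.pair ((lk_comp.comp hi).pair
        (el_comp hi (lf_comp.comp hi) hx))))

theorem Dec_UD : UD fun O (y : ℕ × ℕ × ℕ) => Dec g h y.1 y.2.1 y.2.2 (rown O) := by
  have hG := Good_UD hg hh
  refine UD.and hG (UD.and ?_ ?_)
  · refine UD.all_lt (p := fun O (y : ℕ × ℕ × ℕ) s' => ∀ x' < s', ¬ Good g h y.1 x' s' (rown O))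
      (f := fun y => y.2.2) ?_ (Computable.snd.comp Computable.snd)
    refine UD.all_lt (p := fun O (z : (ℕ × ℕ × ℕ) × ℕ) x' => ¬ Good g h z.1.1 x' z.2 (rown O))
      (f := fun z => z.2) (UD.not ?_) Computable.snd
    exact hG.comp (f := fun w : ((ℕ × ℕ × ℕ) × ℕ) × ℕ => (w.1.1.1, (w.2, w.1.2)))
      ((Computable.fst.comp (Computable.fst.comp Computable.fst)).pair
        (Computable.snd.pair (Computable.snd.comp Computable.fst)))
  · refine UD.all_lt (p := fun O (y : ℕ × ℕ × ℕ) x' => ¬ Good g h y.1 x' y.2.2 (rown O))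
      (f := fun y => y.2.1) (UD.not ?_) (Computable.fst.comp Computable.snd)
    exact hG.comp (f := fun z : (ℕ × ℕ × ℕ) × ℕ => (z.1.1, (z.2, z.1.2.2)))
      ((Computable.fst.comp Computable.fst).pair
        (Computable.snd.pair (Computable.snd.comp (Computable.snd.comp Computable.fst))))

/-- `Dec` for a family of oracles which is computable in the oracle -/
theorem Dec_sub {β : Type} [Primcodable β] {u : (ℕ → Bool) → β → ℕ → ℕ → Bool}
    (hu : UD fun B (y : β × (ℕ × ℕ)) => u B y.1 y.2.1 y.2.2 = true) :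
    UD fun B (y : β × (ℕ × ℕ × ℕ)) => Dec g h y.2.1 y.2.2.1 y.2.2.2 (u B y.1) := by
  have h1 : UD fun B (y : β × ℕ) => u B y.1 y.2.unpair.1 y.2.unpair.2 = true :=
    hu.comp (f := fun y : β × ℕ => (y.1, y.2.unpair))
      (Computable.fst.pair (Computable.unpair.comp Computable.snd))
  refine (UD.sub (F := fun B (b : β) (m : ℕ) => u B b m.unpair.1 m.unpair.2) h1
    (Dec_UD hg hh)).of_eq fun B y => ?_
  have h2 : rown (fun m => u B y.1 m.unpair.1 m.unpair.2) = u B y.1 := by
    funext q m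
    simp [rown]
  rw [h2]

theorem V_U1 : U1 fun B (z : ℕ) => V g h B z = true := by
  -- the members which are computed from an initial segment
  have hu : UD fun B (y : (ℕ × ℕ) × (ℕ × ℕ)) =>
      ext (gz g h ((y.2.1 : ℤ) - y.1.2) (pre B y.1.1)) y.2.2 = true := by
    refine UD.of_preC (P := fun w : List Bool × ((ℕ × ℕ) × (ℕ × ℕ)) =>
      ext (gz g h ((w.2.2.1 : ℤ) - w.2.1.2) w.1) w.2.2.2 = true) ?_
      (Computable.fst.comp Computable.fst)
    refine UD.of_bool (Computable₂.comp (f := fun (l : List Bool) (n : ℕ) => l.getD n false)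
      (Primrec.list_getD false).to_comp ((gz_comp hg hh).comp ((c_subZ (c_cast ?_)
        (c_cast ?_)).pair Computable.fst)) ?_)
    · exact Computable.fst.comp (Computable.snd.comp Computable.snd)
    · exact Computable.snd.comp (Computable.fst.comp Computable.snd)
    · exact Computable.snd.comp (Computable.snd.comp Computable.snd)
  have hD := Dec_sub hg hh (u := fun B (b : ℕ × ℕ) q m =>
    ext (gz g h ((q : ℤ) - b.2) (pre B b.1)) m) hu
  have hlen : UD fun B (y : (ℕ × ℕ) × (ℕ × ℕ)) =>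
      y.2.2 ≤ (gz g h ((y.2.1 : ℤ) - y.1.2) (pre B y.1.1)).length := by
    refine UD.of_preC (P := fun w : List Bool × ((ℕ × ℕ) × (ℕ × ℕ)) =>
      w.2.2.2 ≤ (gz g h ((w.2.2.1 : ℤ) - w.2.1.2) w.1).length) ?_
      (Computable.fst.comp Computable.fst)
    refine UD.le ?_ (Computable.list_length.comp ((gz_comp hg hh).comp ((c_subZ (c_cast ?_)
        (c_cast ?_)).pair Computable.fst)))
    · exact Computable.snd.comp (Computable.snd.comp Computable.snd)
    · exact Computable.fst.comp (Computable.snd.comp Computable.snd)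
    · exact Computable.snd.comp (Computable.fst.comp Computable.snd)
  have hi : Primrec fun z : ℕ => z.unpair.1.unpair.1 := fst_prim.comp fst_prim
  have hp : Primrec fun z : ℕ => z.unpair.1.unpair.2 := sec_prim.comp fst_prim
  have hx : Primrec fun z : ℕ => z.unpair.2 := sec_prim
  have h1 : U1 fun B (z : ℕ) => lo (llv z.unpair.1.unpair.1) ≤ z.unpair.1.unpair.2 ∧
      (z.unpair.1.unpair.2 < lhi z.unpair.1.unpair.1 + 1 ∧ ∃ t s,
        (∀ q < lhi z.unpair.1.unpair.1 + 1, lo (llv z.unpair.1.unpair.1) ≤ q →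
          s ≤ (gz g h ((q : ℤ) - z.unpair.1.unpair.2) (pre B t)).length) ∧
        Dec g h z.unpair.1.unpair.1 z.unpair.2 s
          (fun q => ext (gz g h ((q : ℤ) - z.unpair.1.unpair.2) (pre B t)))) := by
    refine U1.and (UD.le (lo_comp.comp (llv_comp.comp hi.to_comp)) hp.to_comp).pos
      (U1.and (UD.lt hp.to_comp (Computable.succ.comp (lhi_comp.comp hi.to_comp))).pos ?_)
    refine U1.ex (p := fun B (z : ℕ) t => ∃ s,
        (∀ q < lhi z.unpair.1.unpair.1 + 1, lo (llv z.unpair.1.unpair.1) ≤ q →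
          s ≤ (gz g h ((q : ℤ) - z.unpair.1.unpair.2) (pre B t)).length) ∧
        Dec g h z.unpair.1.unpair.1 z.unpair.2 s
          (fun q => ext (gz g h ((q : ℤ) - z.unpair.1.unpair.2) (pre B t)))) ?_
    refine U1.ex (p := fun B (y : ℕ × ℕ) s =>
        (∀ q < lhi y.1.unpair.1.unpair.1 + 1, lo (llv y.1.unpair.1.unpair.1) ≤ q →
          s ≤ (gz g h ((q : ℤ) - y.1.unpair.1.unpair.2) (pre B y.2)).length) ∧
        Dec g h y.1.unpair.1.unpair.1 y.1.unpair.2 s
          (fun q => ext (gz g h ((q : ℤ) - y.1.unpair.1.unpair.2) (pre B y.2)))) ?_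
    have ci : Computable fun y : (ℕ × ℕ) × ℕ => y.1.1.unpair.1.unpair.1 :=
      hi.to_comp.comp (Computable.fst.comp Computable.fst)
    have cp : Computable fun y : (ℕ × ℕ) × ℕ => y.1.1.unpair.1.unpair.2 :=
      hp.to_comp.comp (Computable.fst.comp Computable.fst)
    have cx : Computable fun y : (ℕ × ℕ) × ℕ => y.1.1.unpair.2 :=
      hx.to_comp.comp (Computable.fst.comp Computable.fst)
    have ct : Computable fun y : (ℕ × ℕ) × ℕ => y.1.2 := Computable.snd.comp Computable.fst
    refine (UD.and ?_ ?_).pos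
    · refine UD.all_lt (p := fun B (y : (ℕ × ℕ) × ℕ) q => lo (llv y.1.1.unpair.1.unpair.1) ≤ q →
          y.2 ≤ (gz g h ((q : ℤ) - y.1.1.unpair.1.unpair.2) (pre B y.1.2)).length)
          (f := fun y => lhi y.1.1.unpair.1.unpair.1 + 1) (UD.imp ?_ ?_)
          (Computable.succ.comp (lhi_comp.comp ci))
      · exact UD.le (lo_comp.comp (llv_comp.comp (ci.comp Computable.fst))) Computable.snd
      · exact hlen.comp (f := fun w : ((ℕ × ℕ) × ℕ) × ℕ =>
          ((w.1.1.2, w.1.1.1.unpair.1.unpair.2), (w.2, w.1.2)))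
          (((ct.comp Computable.fst).pair (cp.comp Computable.fst)).pair
            (Computable.snd.pair (Computable.snd.comp Computable.fst)))
    · exact hD.comp (f := fun y : (ℕ × ℕ) × ℕ => ((y.1.2, y.1.1.unpair.1.unpair.2),
          (y.1.1.unpair.1.unpair.1, (y.1.1.unpair.2, y.2))))
          ((ct.pair cp).pair (ci.pair (cx.pair Computable.snd)))
  refine h1.of_eq fun B z => ?_
  have h2 : V g h B z = true ↔ VV g h B z.unpair.1.unpair.1 z.unpair.1.unpair.2 z.unpair.2 := by
    unfold V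
    simp
  exact h2.symm

theorem W_U1 : U1 fun B (n : ℕ) => W g h B n = true := by
  have h1 : U1 fun B (n : ℕ) => (n % 2 = 0 ∧ B (n / 2) = true) ∨
      (¬ n % 2 = 0 ∧ V g h B (n / 2) = true) := by
    have hd : Primrec fun n : ℕ => n / 2 := Primrec.nat_div.comp Primrec.id (Primrec.const 2)
    have h0 : PrimrecPred fun n : ℕ => n % 2 = 0 :=
      Primrec.eq.comp (Primrec.nat_mod.comp Primrec.id (Primrec.const 2)) (Primrec.const 0)
    exact U1.or (U1.and (U1.of_prim h0) (UD.query.pos.comp hd.to_comp))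
      (U1.and (U1.of_prim h0.not) ((V_U1 hg hh).comp hd.to_comp))
  refine h1.of_eq fun B n => ?_
  unfold W join
  by_cases hn : n % 2 = 0
  · simp [hn]
  · simp [hn]

theorem exists_index : ∃ e : ℕ, ∀ X, WE X e = {n | W g h X n = true} := U1.index (W_U1 hg hh)

end func

end Pool.Agent.V7H75.TP
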