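import Pool.Agent.V7H75.TP.Fix

set_option autoImplicit false

/-!
Invariance for a pair of functionals.
-/

namespace Pool.Agent.V7H75.TP

open Encodable Pool.Agent.Helper227 Pool.Agent.V7H75.HF
open Pool.Agent.H548R2.Post (hlt En ext En_mono En_congr mem_WE_iff primrec_pow)

/-- certificates that an element is never put in -/
def NN (g h : Str → Str) (I : ℤ → Prop) (B : ℕ → Bool) (i p x : ℕ) : Prop :=
  ¬ (lo (llv i) ≤ p ∧ p < lhi i + 1 ∧ Valid i ∧
      ∀ q < lhi i + 1, lo (llv i) ≤ q → I ((q : ℤ) - p)) ∨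
    ∃ S, (∃ j < ell (llv i), ∃ b < llv i + 1,
      (¬ I ((j : ℤ) - p) ∨ verz g h (llv i) ((j : ℤ) - p) (pre (rowz B 0) S)) ∧
      ¬ (Raw g h (llv i) (pre (rowz B 0) S) ((j : ℤ) - p) b = yy (llv i) (lL i) j b)) ∧
      ∀ s < S, ¬ Dec g h i x s (fun q => rowz B ((q : ℤ) - p))

section eff

variable {g h : Str → Str} {I : ℤ → Prop} (cg : Computable g) (ch : Computable h)
  (cI : PrimrecPred I)

include cg ch

theorem verzX_UD : UD fun B (w : (ℕ × ℤ) × ℕ) => verz g h w.1.1 w.1.2 (pre (rowz B 0) w.2) := by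
  have h0 : UD fun (_ : ℕ → Bool) (w : List Bool × ((ℕ × ℤ) × ℕ)) =>
      verz g h w.2.1.1 w.2.1.2 w.1 :=
    (verz_UD cg ch).comp (f := fun w : List Bool × ((ℕ × ℤ) × ℕ) =>
      (((w.2.1.1, w.2.1.2), w.1) : (ℕ × ℤ) × Str))
      (Computable.pair ((Computable.fst.comp (Computable.fst.comp Computable.snd)).pair
        (Computable.snd.comp (Computable.fst.comp Computable.snd))) Computable.fst)
  have h1 : UD fun V (w : (ℕ × ℤ) × ℕ) => verz g h w.1.1 w.1.2 (pre V w.2) :=
    UD.of_preC (P := fun w : List Bool × ((ℕ × ℤ) × ℕ) => verz g h w.2.1.1 w.2.1.2 w.1) h0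
      Computable.snd
  have h2 : UD fun B (y : Unit × ℕ) => rowz B 0 y.2 = true :=
    rowz_UD.comp (f := fun y : Unit × ℕ => ((0 : ℤ), y.2)) ((Computable.const 0).pair Computable.snd)
  exact (UD.sub (F := fun B (_ : Unit) => rowz B 0) h2 h1).comp
    (f := fun y : (ℕ × ℤ) × ℕ => ((), y)) ((Computable.const ()).pair Computable.id)

theorem RawX_UD : UD fun B (w : (ℕ × ℕ) × (ℤ × ℕ)) =>
    Raw g h w.1.1 (pre (rowz B 0) w.1.2) w.2.1 w.2.2 = true := by
  have h0 : UD fun (_ : ℕ → Bool) (w : List Bool × ((ℕ × ℕ) × (ℤ × ℕ))) =>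
      Raw g h w.2.1.1 w.1 w.2.2.1 w.2.2.2 = true :=
    (Raw_UD cg ch).comp (f := fun w : List Bool × ((ℕ × ℕ) × (ℤ × ℕ)) =>
      (((w.2.1.1, w.1), (w.2.2.1, w.2.2.2)) : (ℕ × Str) × (ℤ × ℕ)))
      (Computable.pair ((Computable.fst.comp (Computable.fst.comp Computable.snd)).pair
        Computable.fst) (Computable.pair (Computable.fst.comp (Computable.snd.comp Computable.snd))
          (Computable.snd.comp (Computable.snd.comp Computable.snd))))
  have h1 : UD fun V (w : (ℕ × ℕ) × (ℤ × ℕ)) => Raw g h w.1.1 (pre V w.1.2) w.2.1 w.2.2 = true :=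
    UD.of_preC (P := fun w : List Bool × ((ℕ × ℕ) × (ℤ × ℕ)) =>
      Raw g h w.2.1.1 w.1 w.2.2.1 w.2.2.2 = true) h0 (Computable.snd.comp Computable.fst)
  have h2 : UD fun B (y : Unit × ℕ) => rowz B 0 y.2 = true :=
    rowz_UD.comp (f := fun y : Unit × ℕ => ((0 : ℤ), y.2)) ((Computable.const 0).pair Computable.snd)
  exact (UD.sub (F := fun B (_ : Unit) => rowz B 0) h2 h1).comp
    (f := fun y : (ℕ × ℕ) × (ℤ × ℕ) => ((), y)) ((Computable.const ()).pair Computable.id)

include cI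

theorem NN_U1 : U1 fun B (y : ℕ × ℕ × ℕ) => NN g h I B y.1 y.2.1 y.2.2 := by
  have ci : Computable fun y : ℕ × ℕ × ℕ => y.1 := Computable.fst
  have cp : Computable fun y : ℕ × ℕ × ℕ => y.2.1 := Computable.fst.comp Computable.snd
  have cx : Computable fun y : ℕ × ℕ × ℕ => y.2.2 := Computable.snd.comp Computable.snd
  have cn : Computable fun y : ℕ × ℕ × ℕ => llv y.1 := llv_comp.comp ci
  have chi : Computable fun y : ℕ × ℕ × ℕ => lhi y.1 + 1 := Computable.succ.comp (lhi_comp.comp ci)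
  refine U1.or ?_ ?_
  · refine (UD.not (UD.and (UD.le (lo_comp.comp cn) cp) (UD.and (UD.lt cp chi)
      (UD.and (Valid_UD.comp ci) ?_)))).pos
    refine UD.all_lt (p := fun _ (y : ℕ × ℕ × ℕ) q => lo (llv y.1) ≤ q →
      I ((q : ℤ) - y.2.1)) (f := fun y => lhi y.1 + 1) (UD.imp ?_ ?_) chi
    · exact UD.le (lo_comp.comp (cn.comp Computable.fst)) Computable.snd
    · exact UD.of_comp (p := I) cI
        (c_subZ (c_cast Computable.snd) (c_cast (cp.comp Computable.fst)))
  · refine U1.ex (p := fun B (y : ℕ × ℕ × ℕ) S => (∃ j < ell (llv y.1), ∃ b < llv y.1 + 1,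
      (¬ I ((j : ℤ) - y.2.1) ∨ verz g h (llv y.1) ((j : ℤ) - y.2.1) (pre (rowz B 0) S)) ∧
      ¬ (Raw g h (llv y.1) (pre (rowz B 0) S) ((j : ℤ) - y.2.1) b = yy (llv y.1) (lL y.1) j b)) ∧
      ∀ s < S, ¬ Dec g h y.1 y.2.2 s (fun q => rowz B ((q : ℤ) - y.2.1))) ?_
    refine (UD.and ?_ ?_).pos
    · refine UD.ex_lt (p := fun B (z : (ℕ × ℕ × ℕ) × ℕ) j => ∃ b < llv z.1.1 + 1,
        (¬ I ((j : ℤ) - z.1.2.1) ∨ verz g h (llv z.1.1) ((j : ℤ) - z.1.2.1) (pre (rowz B 0) z.2)) ∧
        ¬ (Raw g h (llv z.1.1) (pre (rowz B 0) z.2) ((j : ℤ) - z.1.2.1) b =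
          yy (llv z.1.1) (lL z.1.1) j b)) (f := fun z => ell (llv z.1.1)) ?_
        (ell_comp.comp (cn.comp Computable.fst))
      refine UD.ex_lt (p := fun B (w : ((ℕ × ℕ × ℕ) × ℕ) × ℕ) b =>
        (¬ I ((w.2 : ℤ) - w.1.1.2.1) ∨
          verz g h (llv w.1.1.1) ((w.2 : ℤ) - w.1.1.2.1) (pre (rowz B 0) w.1.2)) ∧
        ¬ (Raw g h (llv w.1.1.1) (pre (rowz B 0) w.1.2) ((w.2 : ℤ) - w.1.1.2.1) b =
          yy (llv w.1.1.1) (lL w.1.1.1) w.2 b)) (f := fun w => llv w.1.1.1 + 1) ?_
        (Computable.succ.comp (cn.comp (Computable.fst.comp Computable.fst)))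
      have dn : Computable fun a : (((ℕ × ℕ × ℕ) × ℕ) × ℕ) × ℕ => llv a.1.1.1.1 :=
        cn.comp (Computable.fst.comp (Computable.fst.comp Computable.fst))
      have dL : Computable fun a : (((ℕ × ℕ × ℕ) × ℕ) × ℕ) × ℕ => lL a.1.1.1.1 :=
        lL_comp.comp (ci.comp (Computable.fst.comp (Computable.fst.comp Computable.fst)))
      have dp' : Computable fun a : (((ℕ × ℕ × ℕ) × ℕ) × ℕ) × ℕ => a.1.1.1.2.1 :=
        cp.comp (Computable.fst.comp (Computable.fst.comp Computable.fst))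
      have dS : Computable fun a : (((ℕ × ℕ × ℕ) × ℕ) × ℕ) × ℕ => a.1.1.2 :=
        Computable.snd.comp (Computable.fst.comp Computable.fst)
      have dj : Computable fun a : (((ℕ × ℕ × ℕ) × ℕ) × ℕ) × ℕ => a.1.2 :=
        Computable.snd.comp Computable.fst
      have dd : Computable fun a : (((ℕ × ℕ × ℕ) × ℕ) × ℕ) × ℕ => (a.1.2 : ℤ) - a.1.1.1.2.1 :=
        c_subZ (c_cast dj) (c_cast dp')
      refine UD.and (UD.or (UD.not (UD.of_comp (p := I) cI dd)) ?_) (UD.not ?_)
      · exact (verzX_UD cg ch).comp (f := fun a : (((ℕ × ℕ × ℕ) × ℕ) × ℕ) × ℕ =>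
          (((llv a.1.1.1.1, (a.1.2 : ℤ) - a.1.1.1.2.1), a.1.1.2) : (ℕ × ℤ) × ℕ))
          (Computable.pair (dn.pair dd) dS)
      · have h1 : UD fun B (a : (((ℕ × ℕ × ℕ) × ℕ) × ℕ) × ℕ) =>
            Raw g h (llv a.1.1.1.1) (pre (rowz B 0) a.1.1.2) ((a.1.2 : ℤ) - a.1.1.1.2.1) a.2 = true :=
          (RawX_UD cg ch).comp (f := fun a : (((ℕ × ℕ × ℕ) × ℕ) × ℕ) × ℕ =>
            (((llv a.1.1.1.1, a.1.1.2), ((a.1.2 : ℤ) - a.1.1.1.2.1, a.2)) : (ℕ × ℕ) × (ℤ × ℕ)))
            (Computable.pair (dn.pair dS) (Computable.pair dd Computable.snd))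
        have h2 : UD fun (_ : ℕ → Bool) (a : (((ℕ × ℕ × ℕ) × ℕ) × ℕ) × ℕ) =>
            yy (llv a.1.1.1.1) (lL a.1.1.1.1) (a.1.2 : ℤ) a.2 = true :=
          yy_UD.comp (f := fun a : (((ℕ × ℕ × ℕ) × ℕ) × ℕ) × ℕ =>
            (((llv a.1.1.1.1, lL a.1.1.1.1), ((a.1.2 : ℤ), a.2)) : (ℕ × ℕ) × (ℤ × ℕ)))
            (Computable.pair (dn.pair dL) (Computable.pair (c_cast dj) Computable.snd))
        exact (UD.iff h1 h2).of_eq fun B a => Bool.eq_iff_iff.symm
    · refine UD.all_lt (p := fun B (z : (ℕ × ℕ × ℕ) × ℕ) s =>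
        ¬ Dec g h z.1.1 z.1.2.2 s (fun q => rowz B ((q : ℤ) - z.1.2.1))) (f := fun z => z.2)
        (UD.not ?_) Computable.snd
      exact (Dz_UD cg ch).comp (f := fun a : ((ℕ × ℕ × ℕ) × ℕ) × ℕ =>
        (a.1.1.2.1, (a.1.1.1, (a.1.1.2.2, a.2))))
        ((cp.comp (Computable.fst.comp Computable.fst)).pair
          ((ci.comp (Computable.fst.comp Computable.fst)).pair
            ((cx.comp (Computable.fst.comp Computable.fst)).pair Computable.snd)))

end eff

section facts

variable {g h : Str → Str} (hg : SF g) (hh : SF h)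

include hg hh

/-- the certificates are correct -/
theorem NN_iff {X : ℕ → Bool} {i p x : ℕ} (hL : Lv g h X (llv i))
    (hT : Valid i → lo (llv i) ≤ p → p < lhi i + 1 → ¬ Tr g h X i p) :
    NN g h (fun j => In g h X j) (colz (zz g h X)) i p x ↔ ¬ VV g h X i p x := by
  unfold NN
  rw [rowz_colz, zz_zero, VV_iff hg hh hL]
  constructor
  · rintro (h1 | ⟨S, ⟨j, hj, b, hb, h2, h3⟩, h4⟩) ⟨a1, a2, a3, s, a4⟩
    · exact h1 ⟨a1, a2, a4.1.1, a3⟩
    · have hs : S ≤ s := by
        by_contra hc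
        exact h4 s (by omega) a4
      have h5 := (a4.1.2.2.1 p a2 a1).1 j hj b hb
      simp only [sub_self, zz_zero] at h5
      refine h3 (Eq.trans ?_ h5)
      rcases h2 with h2 | h2
      · have h6 : ∀ s', ¬ verz g h (llv i) ((j : ℤ) - p) (pre X s') :=
          fun s' hv => h2 (in_of_verz hg hh hL hv)
        unfold Raw
        simp [h6]
      · rw [Raw_eq hg hh hL h2 (by omega),
          Raw_eq hg hh hL (verz_mono hg hh (pre_prefix X hs) h2) (by omega)]
  · intro h1
    by_cases h2 : lo (llv i) ≤ p ∧ p < lhi i + 1 ∧ Valid i ∧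
      ∀ q < lhi i + 1, lo (llv i) ≤ q → In g h X ((q : ℤ) - p)
    · right
      obtain ⟨a1, a2, a3, a4⟩ := h2
      have h3 := hT a3 a1 a2
      unfold Tr at h3
      push Not at h3
      obtain ⟨j, hj, b, hb, h4⟩ := h3
      obtain ⟨S1, hS1⟩ := Raw_cast hg hh hL ((j : ℤ) - p)
      obtain ⟨S2, hS2⟩ : ∃ S, ∀ s ≥ S, (¬ In g h X ((j : ℤ) - p) ∨
          verz g h (llv i) ((j : ℤ) - p) (pre X s)) := by
        by_cases hin : In g h X ((j : ℤ) - p)
        · obtain ⟨S, hS⟩ := verz_of_in hg hh (llv i) hin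
          exact ⟨S, fun s hs => Or.inr (hS s hs)⟩
        · exact ⟨0, fun s _ => Or.inl hin⟩
      refine ⟨max S1 S2, ⟨j, hj, b, hb, hS2 _ (le_max_right _ _), ?_⟩, fun s _ hd => ?_⟩
      · rw [hS1 _ (le_max_left _ _) b hb]
        exact h4
      · exact h1 ⟨a1, a2, a4, s, hd⟩
    · exact Or.inl h2

/-- the elements for two members -/
theorem VV_move {X Y : ℕ → Bool} {d : ℤ} (hz : ∀ j, zz g h Y j = zz g h X (j + d))
    (hi : ∀ j, In g h Y j ↔ In g h X (j + d)) {i p x p' : ℕ} (hLX : Lv g h X (llv i))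
    (hLY : Lv g h Y (llv i)) (hp : lo (llv i) ≤ p ∧ p < lhi i + 1)
    (hp' : lo (llv i) ≤ p' ∧ p' < lhi i + 1) (hd : (p' : ℤ) = p + d) :
    VV g h X i p x ↔ VV g h Y i p' x := by
  rw [VV_iff hg hh hLX, VV_iff hg hh hLY]
  have e : ∀ q : ℕ, (q : ℤ) - p' + d = q - p := fun q => by omega
  constructor
  · rintro ⟨-, -, a3, s, a4⟩
    refine ⟨hp'.1, hp'.2, fun q hq hq' => ?_, s, ?_⟩
    · rw [hi, e]
      exact a3 q hq hq'
    · have : (fun q : ℕ => zz g h Y ((q : ℤ) - p')) = fun q : ℕ => zz g h X ((q : ℤ) - p) := by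
        funext q
        rw [hz, e]
      rw [this]
      exact a4
  · rintro ⟨-, -, a3, s, a4⟩
    refine ⟨hp.1, hp.2, fun q hq hq' => ?_, s, ?_⟩
    · have := a3 q hq hq'
      rwa [hi, e] at this
    · have : (fun q : ℕ => zz g h Y ((q : ℤ) - p')) = fun q : ℕ => zz g h X ((q : ℤ) - p) := by
        funext q
        rw [hz, e]
      rw [this] at a4
      exact a4

end facts

theorem W_even (g h : Str → Str) (X : ℕ → Bool) (n : ℕ) : X n = W g h X (2 * n) := by
  unfold W join
  have h1 : 2 * n % 2 = 0 := by omega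
  have h2 : 2 * n / 2 = n := by omega
  rw [if_pos h1, h2]

theorem W_odd (g h : Str → Str) (X : ℕ → Bool) (n : ℕ) : V g h X n = W g h X (2 * n + 1) := by
  unfold W join
  have h1 : ¬ (2 * n + 1) % 2 = 0 := by omega
  have h2 : (2 * n + 1) / 2 = n := by omega
  rw [if_neg h1, h2]

theorem le_W (g h : Str → Str) (X : ℕ → Bool) : TLe X (W g h X) :=
  tLe_of_computable (f := fun n : ℕ => 2 * n) (c_mul (Computable.const 2) Computable.id)
    fun n => W_even g h X n

theorem V_le_W (g h : Str → Str) (X : ℕ → Bool) : TLe (V g h X) (W g h X) :=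
  tLe_of_computable (f := fun n : ℕ => 2 * n + 1)
    (Computable.succ.comp (c_mul (Computable.const 2) Computable.id)) fun n => W_odd g h X n

theorem W_le {g h : Str → Str} {X Z : ℕ → Bool} (h1 : TLe X Z) (h2 : TLe (V g h X) Z) :
    TLe (W g h X) Z := by
  rw [tLe_iff_SI] at *
  have hd : Primrec fun y : ℕ × Bool => (y.1 / 2, y.2) :=
    (Primrec.nat_div.comp Primrec.fst (Primrec.const 2)).pair Primrec.snd
  have h0 : PrimrecPred fun y : ℕ × Bool => y.1 % 2 = 0 :=
    Primrec.eq.comp (Primrec.nat_mod.comp Primrec.fst (Primrec.const 2)) (Primrec.const 0)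
  refine (SI.or (SI.and (SI.of_prim h0) (h1.comp hd))
    (SI.and (SI.of_prim h0.not) (h2.comp hd))).of_eq fun y => ?_
  unfold W join
  by_cases hy : y.1 % 2 = 0
  · simp [hy]
  · simp [hy]

section inv

variable {g h : Str → Str} (hg : SF g) (hh : SF h) (cg : Computable g) (ch : Computable h)

include hg hh cg ch

/-- one direction of the reduction for two members -/
theorem half {X Y : ℕ → Bool} {d : ℤ} (hz : ∀ j, zz g h Y j = zz g h X (j + d))
    (hi : ∀ j, In g h Y j ↔ In g h X (j + d)) {n1 : ℕ} (hLX : ∀ n ≥ n1, Lv g h X n)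
    (hLY : ∀ n ≥ n1, Lv g h Y n)
    (hA : ∀ i p, n1 ≤ llv i → Valid i → lo (llv i) ≤ p → p < lhi i + 1 →
      ¬ ((lo (llv i) : ℤ) ≤ p + d ∧ (p : ℤ) + d < lhi i + 1) → ¬ Tr g h X i p)
    (hXY : TLe X Y) : TLe (W g h X) (W g h Y) := by
  refine W_le (TuringReducible.trans hXY (le_W g h Y)) ?_
  rw [tLe_iff_SI]
  have hfin := finite_levels hg hh X n1
  have hi1 : Primrec fun z : ℕ => z.unpair.1.unpair.1 := fst_prim.comp fst_prim
  have hp1 : Primrec fun z : ℕ => z.unpair.1.unpair.2 := sec_prim.comp fst_prim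
  have hx1 : Primrec fun z : ℕ => z.unpair.2 := sec_prim
  -- the four cases
  have cF : PrimrecPred fun z : ℕ => z ∈ hfin.toFinset := by
    refine (PP.ex_mem (α := ℕ) (f := fun _ => hfin.toFinset.toList) (p := fun z b => b = z)
      (Primrec.eq.comp Primrec.snd Primrec.fst) (Primrec.const _)).of_eq fun z => by simp
  let lowp : ℕ → Prop := fun z => llv z.unpair.1.unpair.1 < n1
  let move : ℕ → Prop := fun z => (lo (llv z.unpair.1.unpair.1) ≤ z.unpair.1.unpair.2 ∧
    z.unpair.1.unpair.2 < lhi z.unpair.1.unpair.1 + 1) ∧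
    ((lo (llv z.unpair.1.unpair.1) : ℤ) ≤ z.unpair.1.unpair.2 + d ∧
      (z.unpair.1.unpair.2 : ℤ) + d < lhi z.unpair.1.unpair.1 + 1)
  have cn : Computable fun z : ℕ => llv z.unpair.1.unpair.1 := llv_comp.comp hi1.to_comp
  have chi : Computable fun z : ℕ => lhi z.unpair.1.unpair.1 := lhi_comp.comp hi1.to_comp
  have clow : UD fun (_ : ℕ → Bool) (z : ℕ) => lowp z := UD.lt cn (Computable.const n1)
  have cmove : UD fun (_ : ℕ → Bool) (z : ℕ) => move z := by
    refine UD.and (UD.and (UD.le (lo_comp.comp cn) hp1.to_comp)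
      (UD.lt hp1.to_comp (Computable.succ.comp chi))) (UD.and ?_ ?_)
    · exact UD.leZ (c_cast (lo_comp.comp cn)) (comp_addZ (c_cast hp1.to_comp) (Computable.const d))
    · exact UD.ltZ (comp_addZ (c_cast hp1.to_comp) (Computable.const d))
        (comp_addZ (c_cast chi) (Computable.const 1))
  have s1 : SI (W g h Y) fun y : ℕ × Bool => lowp y.1 ∧
      ((y.1 ∈ hfin.toFinset ∧ y.2 = true) ∨ (¬ y.1 ∈ hfin.toFinset ∧ y.2 = false)) := by
    refine SI.and ((clow.comp Computable.fst).pos.si _) (SI.of_prim ?_)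
    exact PrimrecPred.or (PrimrecPred.and (cF.comp Primrec.fst)
      (Primrec.eq.comp Primrec.snd (Primrec.const true)))
      (PrimrecPred.and (cF.not.comp Primrec.fst) (Primrec.eq.comp Primrec.snd (Primrec.const false)))
  have s2 : SI (W g h Y) fun y : ℕ × Bool => (¬ lowp y.1 ∧ move y.1) ∧
      V g h Y (el y.1.unpair.1.unpair.1 ((y.1.unpair.1.unpair.2 : ℤ) + d).toNat y.1.unpair.2) =
        y.2 := by
    refine SI.and (((UD.and clow.not cmove).comp Computable.fst).pos.si _) ?_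
    exact (tLe_iff_SI.1 (V_le_W g h Y)).comp_computable
      (f := fun y : ℕ × Bool => (el y.1.unpair.1.unpair.1
        ((y.1.unpair.1.unpair.2 : ℤ) + d).toNat y.1.unpair.2, y.2))
      ((el_comp (hi1.to_comp.comp Computable.fst) (prim_toNat.to_comp.comp
        (comp_addZ (c_cast (hp1.to_comp.comp Computable.fst)) (Computable.const d)))
        (hx1.to_comp.comp Computable.fst)).pair Computable.snd)
  have hXW : TLe X (W g h Y) := TuringReducible.trans hXY (le_W g h Y)
  have s3 : SI (W g h Y) fun y : ℕ × Bool => (¬ lowp y.1 ∧ ¬ move y.1) ∧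
      ((V g h X y.1 = true ∧ y.2 = true) ∨
        (NN g h (fun j => In g h X j) (colz (zz g h X)) y.1.unpair.1.unpair.1 y.1.unpair.1.unpair.2
          y.1.unpair.2 ∧ y.2 = false)) := by
    refine SI.and (((UD.and clow.not cmove.not).comp Computable.fst).pos.si _)
      (SI.or (SI.and ?_ (SI.of_prim ?_)) (SI.and ?_ (SI.of_prim ?_)))
    · exact (((V_U1 cg ch).si X).trans hXW).comp Primrec.fst
    · exact Primrec.eq.comp Primrec.snd (Primrec.const true)
    · have h1 := (NN_U1 cg ch (In_prim g h X)).si (colz (zz g h X))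
      exact ((h1.trans (orbit_le hg hh cg ch X)).trans hXW).comp
        (f := fun y : ℕ × Bool => (y.1.unpair.1.unpair.1, (y.1.unpair.1.unpair.2, y.1.unpair.2)))
        ((hi1.comp Primrec.fst).pair ((hp1.comp Primrec.fst).pair (hx1.comp Primrec.fst)))
    · exact Primrec.eq.comp Primrec.snd (Primrec.const false)
  refine (SI.or s1 (SI.or s2 s3)).of_eq fun y => ?_
  obtain ⟨z, b⟩ := y
  have hV : ∀ X : ℕ → Bool, V g h X z = true ↔
      VV g h X z.unpair.1.unpair.1 z.unpair.1.unpair.2 z.unpair.2 := by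
    intro X
    unfold V
    simp
  by_cases h1 : lowp z
  · have h2 : z ∈ hfin.toFinset ↔ V g h X z = true := by
      rw [Set.Finite.mem_toFinset]
      exact ⟨fun h3 => h3.2, fun h3 => ⟨h1, h3⟩⟩
    simp only [h1, not_true, false_and, or_false, true_and, h2]
    cases b
    · simp
    · simp
  · by_cases h2 : move z
    · simp only [h1, h2, not_true, not_false_eq_true, false_and, and_false, or_false, true_and,
        false_or, and_true, and_self]
      have h3 : V g h X z = true ↔ V g h Y (el z.unpair.1.unpair.1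
          ((z.unpair.1.unpair.2 : ℤ) + d).toNat z.unpair.2) = true := by
        rw [hV, V_el]
        have hn : n1 ≤ llv z.unpair.1.unpair.1 := not_lt.1 h1
        obtain ⟨h2a, h2b, h2c⟩ := h2
        exact VV_move hg hh hz hi (hLX _ hn) (hLY _ hn) h2a ⟨by omega, by omega⟩ (by omega)
      have h4 : V g h X z = V g h Y (el z.unpair.1.unpair.1
          ((z.unpair.1.unpair.2 : ℤ) + d).toNat z.unpair.2) := Bool.eq_iff_iff.2 h3
      rw [h4]
    · have hn : n1 ≤ llv z.unpair.1.unpair.1 := not_lt.1 h1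
      have h3 := NN_iff hg hh (x := z.unpair.2) (hLX _ hn)
        (fun hv ha hb => hA _ z.unpair.1.unpair.2 hn hv ha hb fun hc => h2 ⟨⟨ha, hb⟩, hc⟩)
      rw [← hV] at h3
      simp only [h1, h2, not_false_eq_true, false_and, and_false, true_and,
        false_or, and_self, h3]
      cases b
      · simp
      · simp

/-- the sets for two neighbours which are finally not separated -/
theorem step {X Y : ℕ → Bool} (hR : Rl g h X Y)
    (hQ : ∃ N, ∀ n ≥ N, ¬ Q (cod (Rt g h X)) n 1) :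
    TLe (W g h X) (W g h Y) ∧ TLe (W g h Y) (W g h X) := by
  obtain ⟨N, hN⟩ := hQ
  obtain ⟨n0, hn0⟩ := exists_Lv hg hh X
  have h0 := Rl_next hg hh (X := X) (j := 0) (In_zero g h X) hR
  rw [zero_add] at h0
  obtain ⟨hin, hY⟩ := h0
  have hz : ∀ j, zz g h Y j = zz g h X (j + 1) := by
    intro j
    rw [← hY, zz_add hg hh hin]
  have hi : ∀ j, In g h Y j ↔ In g h X (j + 1) := by
    intro j
    rw [← hY, In_add hg hh hin]
  have hL : ∀ n ≥ max n0 N, Lv g h X n := fun n hn => hn0 n (by omega)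
  have hL' : ∀ n ≥ max n0 N, Lv g h Y n := by
    intro n hn
    rw [← hY]
    exact Lv_shift hg hh (hL n hn) hin
  have hXY : TLe X Y := by
    refine TuringReducible.trans ?_ (orbit_le hg hh cg ch Y)
    refine tLe_of_computable (f := fun n : ℕ => encode ((-1, n) : ℤ × ℕ))
      (Computable.encode.comp ((Computable.const (-1)).pair Computable.id)) fun n => ?_
    unfold colz
    rw [dp_encode, hz]
    rfl
  have hYX : TLe Y X := by
    refine TuringReducible.trans ?_ (orbit_le hg hh cg ch X)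
    refine tLe_of_computable (f := fun n : ℕ => encode ((1, n) : ℤ × ℕ))
      (Computable.encode.comp ((Computable.const 1).pair Computable.id)) fun n => ?_
    unfold colz
    rw [dp_encode, hY]
  constructor
  · refine half hg hh cg ch hz hi hL hL' ?_ hXY
    intro i p hn hv h1 h2 h3 ht
    have hp : p = lhi i := by omega
    have hw := hv.1.2.2.1
    rcases hv.2.2.2.2 with h4 | h4
    · rw [← Bool.not_eq_true, ht.flag (by omega) (by omega)] at h4
      refine h4 ?_
      rw [hp, show (lhi i : ℤ) + 1 - lhi i = 1 by ring]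
      exact hin
    · rw [ht.Q_iff (by unfold lo at h1; omega) (by omega), hp,
        show (lhi i : ℤ) + 1 - lhi i = 1 by ring] at h4
      exact hN _ (by omega) h4
  · refine half hg hh cg ch (X := Y) (Y := X) (d := -1) (fun j => ?_) (fun j => ?_) hL' hL ?_ hYX
    · rw [hz, neg_add_cancel_right]
    · rw [hi, neg_add_cancel_right]
    · intro i p hn hv h1 h2 h3 ht
      have hp : p = lo (llv i) := by omega
      have hw := hv.1.2.2.1
      have hlo : 0 < lo (llv i) := Nat.succ_pos _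
      rcases hv.2.2.2.1 with h4 | h4
      · rw [← Bool.not_eq_true, ht.flag (by omega) (by omega)] at h4
        refine h4 ?_
        rw [hp, show (lo (llv i) : ℤ) - 1 - lo (llv i) = -1 by ring, hi]
        exact In_zero g h X
      · rw [ht.Q_iff (by unfold lo at h1 ⊢; omega) (by omega), hp, sub_self] at h4
        rw [← hY, Rt_shift hg hh hin, Q_cod_shift, zero_add] at h4
        exact hN _ (by omega) h4

/-- invariance -/
theorem inv_pair {X Y : ℕ → Bool} (hR : Rl g h X Y) :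
    TLe (W g h X) (W g h Y) ∧ TLe (W g h Y) (W g h X) := by
  rcases edges hg hh X with h1 | ⟨p, hp, hper, hedge⟩
  · exact step hg hh cg ch hR h1
  · have hnn := Rl_next hg hh (X := X) (j := 0) (In_zero g h X) hR
    rw [zero_add] at hnn
    obtain ⟨hin, hY⟩ := hnn
    have hpz := hper 0 (In_zero g h X)
    rw [zero_add, zz_zero] at hpz
    have hall : ∀ i : ℕ, i ≤ p → In g h X i := fun i hi =>
      In_int (by omega) (by exact_mod_cast hi) (In_zero g h X) hpz.1
    have chain : ∀ i : ℕ, 1 ≤ i → i ≤ p →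
        TLe (W g h (zz g h X 1)) (W g h (zz g h X i)) ∧
          TLe (W g h (zz g h X i)) (W g h (zz g h X 1)) := by
      intro i h1 h2
      induction i with
      | zero => omega
      | succ i ih =>
        rcases Nat.eq_zero_or_pos i with rfl | h3
        · simp only [Nat.zero_add, Nat.cast_one]
          exact ⟨TuringReducible.refl _, TuringReducible.refl _⟩
        · obtain ⟨a1, a2⟩ := ih h3 (by omega)
          have hi0 := hall i (by omega)
          have hi1 := hall (i + 1) h2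
          push_cast at hi1
          have hst := step hg hh cg ch (Rl_succ hg hh hi0 hi1) (by
            obtain ⟨N, hN⟩ := hedge i h3 (by omega)
            refine ⟨N, fun n hn hq => hN n hn ?_⟩
            rw [Rt_shift hg hh hi0, Q_cod_shift, add_comm] at hq
            exact hq)
          push_cast
          exact ⟨TuringReducible.trans a1 hst.1, TuringReducible.trans hst.2 a2⟩
    have h2 := chain p hp le_rfl
    rw [hpz.2, hY] at h2
    exact ⟨h2.2, h2.1⟩

end inv

end Pool.Agent.V7H75.TP
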