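import Pool.Agent.V7H75.TP.Adv
import Pool.Agent.V7H75.TP.Inv
import Pool.Agent.H639.LU.All

set_option autoImplicit false

/-!
Solutions to Post's problem which are invariant for one pair of programs.
-/

namespace Pool.Agent.V7H75.TP

open Encodable Pool.Agent.Helper227 Pool.Agent.V7H75.HF
open Nat.Partrec (Code)

/-! ### translation -/

theorem St_chi (X : ℕ → Bool) : Pool.Agent.Helper446.Defs.chi (Pool.Agent.H639.LU.St X) = chi X := by
  funext n
  unfold Pool.Agent.Helper446.Defs.chi Pool.Agent.Helper446.Defs.chiN chi Pool.Agent.H639.LU.St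
  cases h : X n <;> simp [h]

theorem le_iff {X Y : ℕ → Bool} : Pool.Agent.H639.LU.le X Y ↔ TLe X Y := by
  unfold Pool.Agent.H639.LU.le TLe
  rw [St_chi, St_chi]

theorem ch_true {P : ℕ → Prop} {n : ℕ} : Pool.Agent.H639.LU.ch P n = true ↔ P n := by
  unfold Pool.Agent.H639.LU.ch
  simp

theorem ch_eq (Z : ℕ → Bool) : (Pool.Agent.H639.LU.ch fun n => Z n = true) = Z := by
  funext n
  rw [Bool.eq_iff_iff, ch_true]

theorem seg_eq (X : ℕ → Bool) (s : ℕ) : Pool.Agent.Helper446.Defs.seg X s = pre X s := rfl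

theorem exists_program {E : List Bool × ℕ → Prop} (hE : S1 E) :
    ∃ r : Code, ∀ X n, Pool.Agent.H639.LU.W r X n ↔ ∃ s, E (pre X s, n) := by
  have h1 : S1 fun y : ℕ × List Bool => E (y.2, y.1) := hE.comp (Primrec.snd.pair Primrec.fst)
  obtain ⟨cd, hcd⟩ := Nat.Partrec.Code.exists_code.1 h1.re
  refine ⟨cd, fun X n => ?_⟩
  unfold Pool.Agent.H639.LU.W
  refine exists_congr fun k => ?_
  rw [hcd, seg_eq]
  simp [Part.assert, pre]

theorem tLe_of_SI {X : ℕ → Bool} {p : ℕ → Prop} (hp : SI X p) :
    TLe (Pool.Agent.H639.LU.ch p) (jump X) := by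
  rw [tLe_iff_SI]
  obtain ⟨h2, h3⟩ := hp.decide_jump
  have h4 : SI (jump X) fun x : ℕ × Bool => (p x.1 ∧ x.2 = true) ∨ (¬ p x.1 ∧ x.2 = false) := by
    refine SI.or (SI.and (h2.comp Primrec.fst) (SI.of_prim ?_))
      (SI.and (h3.comp (f := fun x : ℕ × Bool => x.1) Primrec.fst) (SI.of_prim ?_))
    · exact Primrec.eq.comp Primrec.snd (Primrec.const true)
    · exact Primrec.eq.comp Primrec.snd (Primrec.const false)
  refine h4.of_eq fun x => ?_
  rcases x with ⟨n, b⟩
  cases b
  · simp only [Bool.false_eq_true, and_false, and_true, false_or]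
    rw [← Bool.not_eq_true, ch_true]
  · simp only [Bool.true_eq_false, and_false, and_true, or_false]
    rw [ch_true]

theorem J_SI (X : ℕ → Bool) : SI X fun p : ℕ => Pool.Agent.H639.LU.J X p := by
  have h1 : SI X fun p : ℕ => ∃ σ : List Bool, (∀ i < σ.length, X i = σ.getD i false) ∧
      ((Denumerable.ofNat Code p.unpair.1).eval (encode (p.unpair.2, σ))).Dom := by
    refine SI.ex (p := fun (p : ℕ) (σ : List Bool) =>
      (∀ i < σ.length, X i = σ.getD i false) ∧
      ((Denumerable.ofNat Code p.unpair.1).eval (encode (p.unpair.2, σ))).Dom)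
      (SI.and ?_ (SI.of_s1 ?_))
    · refine SI.all_lt (α := ℕ × List Bool) (p := fun x i => X i = x.2.getD i false)
        (f := fun x => x.2.length) ?_ (Primrec.list_length.comp Primrec.snd)
      exact SI.query.comp (f := fun z : (ℕ × List Bool) × ℕ => (z.2, z.1.2.getD z.2 false))
        (Primrec.snd.pair ((Primrec.list_getD false).comp (Primrec.snd.comp Primrec.fst) Primrec.snd))
    · exact S1.comp (f := fun x : ℕ × List Bool =>
        (Denumerable.ofNat Code x.1.unpair.1, encode (x.1.unpair.2, x.2))) s1_eval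
        (((Primrec.ofNat Code).comp (fst_prim.comp Primrec.fst)).pair
          (Primrec.encode.comp ((sec_prim.comp Primrec.fst).pair Primrec.snd)))
  refine h1.of_eq fun p => ?_
  constructor
  · rintro ⟨σ, h3, h4⟩
    refine ⟨σ.length, ?_⟩
    have : Pool.Agent.Helper446.Defs.seg X σ.length = σ := by
      refine List.ext_getElem (by simp [Pool.Agent.Helper446.Defs.seg]) fun i h5 h6 => ?_
      simp only [Pool.Agent.Helper446.Defs.seg, List.getElem_map, List.getElem_range]
      rw [h3 i h6]
      simp [h6]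
    rwa [this]
  · rintro ⟨s, hs⟩
    exact ⟨pre X s, fun i hi => (pre_getD X _ _ _ (by simpa using hi)).symm, hs⟩

theorem J_le (X : ℕ → Bool) : TLe (Pool.Agent.H639.LU.ch (Pool.Agent.H639.LU.J X)) (jump X) :=
  tLe_of_SI (J_SI X)

theorem le_J (X : ℕ → Bool) : TLe (jump X) (Pool.Agent.H639.LU.ch (Pool.Agent.H639.LU.J X)) := by
  obtain ⟨E, hE, -, eE⟩ := si_jump X
  obtain ⟨r, hr⟩ := exists_program hE
  refine tLe_of_computable (f := fun e : ℕ => Nat.pair (encode r) e)
    (c_pair (Computable.const _) Computable.id) fun e => ?_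
  rw [Bool.eq_iff_iff, ch_true]
  unfold Pool.Agent.H639.LU.J
  rw [Nat.unpair_pair]
  simp only [Denumerable.ofNat_encode]
  rw [hr X e]
  exact eE e

/-! ### the functionals of the programs -/

theorem dec_SF (c : Code) : SF (Pool.Agent.H639.LU.dec c) :=
  ⟨fun σ τ h => Pool.Agent.H639.LU.D1.2.2.1 c σ τ h, fun σ => Pool.Agent.H639.LU.D1.2.2.2 c σ⟩

theorem dec_computable (c : Code) : Computable (Pool.Agent.H639.LU.dec c) :=
  (Pool.Agent.H639.LU.C2 Pool.Agent.H639.LU.C1).1.comp
    ((Computable.const c).pair Computable.id)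

open Pool.Agent.H639.LU in
theorem red_nxt {c : Code} {X Y : ℕ → Bool} (h : Red c X Y) {t n : ℕ} {b : Bool}
    (hb : nxt c (pre X t) n = some b) : b = Y n := by
  unfold nxt at hb
  rw [Option.map_eq_some_iff] at hb
  obtain ⟨v, hv, rfl⟩ := hb
  obtain ⟨s, -, hs⟩ := N1.2.1 c X n t v hv
  have h1 := (h n v).1 ⟨s, hs⟩
  rw [h1]
  cases Y n <;> rfl

open Pool.Agent.H639.LU in
theorem red_nxt_some {c : Code} {X Y : ℕ → Bool} (h : Red c X Y) (n : ℕ) :
    ∃ t, ∀ t' ≥ t, nxt c (pre X t') n = some (Y n) := by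
  obtain ⟨s, hs⟩ := (h n _).2 rfl
  obtain ⟨t, ht⟩ := N1.2.2 c X n s (Part.dom_iff_mem.2 ⟨_, hs⟩)
  refine ⟨t, fun t' ht' => ?_⟩
  have h1 := N1.1 c (pre X t) (pre X t') n (pre_prefix X ht') ht
  have h2 : (nxt c (pre X t') n).isSome = true := by
    unfold nxt
    rw [Option.isSome_map]
    exact h1
  obtain ⟨b, hb⟩ := Option.isSome_iff_exists.1 h2
  rw [hb, red_nxt h hb]

theorem pre_succ' (X : ℕ → Bool) (s : ℕ) : pre X (s + 1) = pre X s ++ [X s] := by
  unfold pre
  rw [List.range_succ, List.map_append]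
  rfl

open Pool.Agent.H639.LU in
theorem dec_pre {c : Code} {X Y : ℕ → Bool} (h : Red c X Y) (s : ℕ) :
    dec c (pre X s) = pre Y (dec c (pre X s)).length := by
  induction s with
  | zero =>
    have h1 : pre X 0 = [] := rfl
    rw [h1, D1.1 c]
    rfl
  | succ s ih =>
    have h1 := D1.2.1 c (pre X s) (X s)
    rw [← pre_succ'] at h1
    cases h2 : nxt c (pre X (s + 1)) (dec c (pre X s)).length with
    | none =>
      rw [h2] at h1
      simp only [Option.toList_none, List.append_nil] at h1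
      rw [h1]
      exact ih
    | some b =>
      rw [h2] at h1
      simp only [Option.toList_some] at h1
      have h3 := red_nxt h h2
      rw [h1, List.length_append, List.length_singleton, pre_succ', ← ih, ← h3]

open Pool.Agent.H639.LU in
theorem ap_of_red {c : Code} {X Y : ℕ → Bool} (h : Red c X Y) : Ap (dec c) X Y := by
  have key : ∀ k, ∃ s, k ≤ (dec c (pre X s)).length := by
    intro k
    induction k with
    | zero => exact ⟨0, Nat.zero_le _⟩
    | succ k ih =>
      obtain ⟨s, hs⟩ := ih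
      by_contra hc
      push Not at hc
      have h0 : ∀ s' ≥ s, (dec c (pre X s')).length = k := by
        intro s' hs'
        have h1 := ((dec_SF c).mono _ _ (pre_prefix X hs')).length_le
        have h2 := hc s'
        omega
      obtain ⟨t, ht⟩ := red_nxt_some h k
      have h1 := D1.2.1 c (pre X (max s t)) (X (max s t))
      rw [← pre_succ', h0 _ (le_max_left _ _), ht (max s t + 1) (by omega)] at h1
      have h2 := congrArg List.length h1
      simp only [Option.toList_some, List.length_append, List.length_singleton] at h2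
      rw [h0 _ (le_max_left _ _), h0 _ (by omega)] at h2
      omega
  intro k
  obtain ⟨s, hs⟩ := key k
  refine ⟨s, ?_⟩
  rw [dec_pre h s]
  exact pre_prefix Y hs

open Pool.Agent.H639 Pool.Agent.H639.LU in
/-- for each pair of programs there is a solution to Post's problem which is invariant for the
pair. -/
theorem main (i j : Code) : ∃ r : Code,
    (∀ X : ℕ → Bool, le X (ch (LU.W r X)) ∧ ¬ le (ch (LU.W r X)) X ∧
      le (ch (LU.W r X)) (ch (J X)) ∧ ¬ le (ch (J X)) (ch (LU.W r X))) ∧
    ∀ X Y : ℕ → Bool, Red i X Y → Red j Y X →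
      le (ch (LU.W r X)) (ch (LU.W r Y)) ∧ le (ch (LU.W r Y)) (ch (LU.W r X)) := by
  have hg := dec_SF i
  have hh := dec_SF j
  have cg := dec_computable i
  have ch' := dec_computable j
  obtain ⟨E, hE, -, eE⟩ := W_U1 cg ch'
  obtain ⟨r, hr⟩ := exists_program hE
  have hW : ∀ X, ch (LU.W r X) = TP.W (dec i) (dec j) X := by
    intro X
    funext n
    rw [Bool.eq_iff_iff, ch_true, hr X n]
    exact (eE X n).symm
  refine ⟨r, fun X => ?_, fun X Y h1 h2 => ?_⟩
  · simp only [le_iff, hW]
    refine ⟨le_W _ _ X, fun h => not_le_V hg hh X (TuringReducible.trans (V_le_W _ _ X) h), ?_,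
      fun h => not_jump_le_W hg hh cg ch' X (TuringReducible.trans (le_J X) h)⟩
    have h1 := tLe_of_SI ((W_U1 cg ch').si X)
    rw [ch_eq] at h1
    exact TuringReducible.trans h1 (le_J X)
  · simp only [le_iff, hW]
    exact inv_pair hg hh cg ch' ⟨ap_of_red h1, ap_of_red h2⟩

end Pool.Agent.V7H75.TP
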