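import Pool.Agent.V7H75.TP.Loc

set_option autoImplicit false

/-!
Partial functionals given by monotone functions of finite strings, and the orbits of a pair of them.
-/

namespace Pool.Agent.V7H75.TP

open Pool.Agent.Helper227 Pool.Agent.V7H75.HF

abbrev Str := List Bool

structure SF (g : Str → Str) : Prop where
  mono : ∀ σ τ : Str, σ <+: τ → g σ <+: g τ
  len : ∀ σ : Str, (g σ).length ≤ σ.length

/-- the functional given by `g` takes the value `Y` at `X` -/
def Ap (g : Str → Str) (X Y : ℕ → Bool) : Prop := ∀ k, ∃ s, pre Y k <+: g (pre X s)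

theorem pre_eq_iff {X Y : ℕ → Bool} {n : ℕ} : pre X n = pre Y n ↔ ∀ i < n, X i = Y i := by
  constructor
  · intro h i hi
    have h1 := pre_getD X n i false hi
    rw [← h1, h, pre_getD Y n i false hi]
  · intro h
    unfold pre
    exact List.map_congr_left fun i hi => h i (List.mem_range.1 hi)

theorem prefix_antisymm_len {σ τ ρ : Str} (h1 : σ <+: ρ) (h2 : τ <+: ρ) (h : σ.length = τ.length) :
    σ = τ := (List.prefix_of_prefix_length_le h1 h2 h.le).eq_of_length h

section basic

variable {g g' : Str → Str} {X Y Z : ℕ → Bool}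

theorem SF.id : SF (fun σ => σ) := ⟨fun _ _ h => h, fun _ => le_rfl⟩

theorem SF.comp (h' : SF g') (h : SF g) : SF (fun σ => g' (g σ)) :=
  ⟨fun _ _ hs => h'.mono _ _ (h.mono _ _ hs), fun _ => (h'.len _).trans (h.len _)⟩

theorem SF.iter (h : SF g) (j : ℕ) : SF g^[j] := by
  induction j with
  | zero => exact SF.id
  | succ j ih =>
    rw [Function.iterate_succ']
    exact h.comp ih

theorem Ap.eq_pre (hg : SF g) (h : Ap g X Y) (s : ℕ) :
    g (pre X s) = pre Y (g (pre X s)).length := by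
  obtain ⟨s', hs'⟩ := h (g (pre X s)).length
  have h1 := hg.mono _ _ (pre_prefix X (le_max_left s s'))
  have h2 := hs'.trans (hg.mono _ _ (pre_prefix X (le_max_right s s')))
  exact prefix_antisymm_len h1 h2 (by simp)

theorem Ap.len (hg : SF g) (h : Ap g X Y) (k : ℕ) : ∃ s, ∀ s' ≥ s, k ≤ (g (pre X s')).length := by
  obtain ⟨s, hs⟩ := h k
  refine ⟨s, fun s' hs' => ?_⟩
  have := (hs.trans (hg.mono _ _ (pre_prefix X hs'))).length_le
  simpa using this

theorem Ap.unique (hg : SF g) (h : Ap g X Y) (h' : Ap g X Z) : Y = Z := by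
  funext i
  obtain ⟨s, hs⟩ := h.len hg (i + 1)
  have h1 := h.eq_pre hg s
  have h2 := h'.eq_pre hg s
  have h3 := hs s le_rfl
  have h4 := pre_getD Y (g (pre X s)).length i false (by omega)
  rw [← h1] at h4
  have h5 := pre_getD Z (g (pre X s)).length i false (by omega)
  rw [← h2] at h5
  rw [← h4, h5]

theorem Ap.comp (hg' : SF g') (h : Ap g X Y) (h' : Ap g' Y Z) : Ap (fun σ => g' (g σ)) X Z := by
  intro k
  obtain ⟨s, hs⟩ := h' k
  obtain ⟨t, ht⟩ := h s
  exact ⟨t, hs.trans (hg'.mono _ _ ht)⟩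

theorem Ap.refl (X : ℕ → Bool) : Ap (fun σ => σ) X X := fun k => ⟨k, List.prefix_rfl⟩

end basic

/-- `Y` is obtained from `X` by `g`, and `X` from `Y` by `h`. -/
def Rl (g h : Str → Str) (X Y : ℕ → Bool) : Prop := Ap g X Y ∧ Ap h Y X

/-- verification of the length `n` -/
def ok (g h : Str → Str) (n : ℕ) (σ : Str) : Prop := n ≤ σ.length ∧ σ.take n <+: h (g σ)

section ok

variable {g h : Str → Str} (hg : SF g) (hh : SF h)

include hg hh

theorem ok_mono {n : ℕ} {σ τ : Str} (h1 : σ <+: τ) (h2 : ok g h n σ) : ok g h n τ := by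
  refine ⟨h2.1.trans h1.length_le, ?_⟩
  obtain ⟨ρ, rfl⟩ := h1
  rw [List.take_append_of_le_length h2.1]
  exact h2.2.trans (hh.mono _ _ (hg.mono _ _ (List.prefix_append _ _)))

theorem ok_len {n : ℕ} {σ : Str} (h2 : ok g h n σ) : n ≤ (g σ).length := by
  have h3 := h2.2.length_le
  rw [List.length_take, min_eq_left h2.1] at h3
  exact h3.trans (hh.len _)

omit hg hh in
theorem ok_anti {n m : ℕ} (hm : m ≤ n) {σ : Str} (h2 : ok g h n σ) : ok g h m σ :=
  ⟨hm.trans h2.1, (List.take_prefix_take_left hm).trans h2.2⟩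

theorem ok_of_Rl {X Y : ℕ → Bool} (hR : Rl g h X Y) (n : ℕ) : ∃ s, ∀ s' ≥ s, ok g h n (pre X s') := by
  obtain ⟨s, hs⟩ := (hR.1.comp hh hR.2) n
  refine ⟨max s n, fun s' hs' => ⟨by simp only [length_pre]; omega, ?_⟩⟩
  rw [take_pre X _ _ (by omega)]
  exact hs.trans (hh.mono _ _ (hg.mono _ _ (pre_prefix X (by omega))))

theorem Rl_of_ok {X : ℕ → Bool} (hX : ∀ n, ∃ s, ok g h n (pre X s)) : ∃ Y, Rl g h X Y := by
  choose f hf using hX
  have hlen : ∀ n, n ≤ (g (pre X (f n))).length := fun n => ok_len hg hh (hf n)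
  let Y : ℕ → Bool := fun k => (g (pre X (f (k + 1)))).getD k false
  have key : ∀ s i, i < (g (pre X s)).length → (g (pre X s)).getD i false = Y i := by
    intro s i hi
    have h1 := hg.mono _ _ (pre_prefix X (le_max_left s (f (i + 1))))
    have h2 := hg.mono _ _ (pre_prefix X (le_max_right s (f (i + 1))))
    have h3 := hlen (i + 1)
    obtain ⟨ρ, hρ⟩ := h1
    obtain ⟨ρ', hρ'⟩ := h2
    have e1 := List.getD_append (g (pre X s)) ρ false i hi
    have e2 := List.getD_append (g (pre X (f (i + 1)))) ρ' false i (by omega)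
    rw [hρ] at e1
    rw [hρ'] at e2
    exact e1.symm.trans e2
  have hpre : ∀ s, g (pre X s) = pre Y (g (pre X s)).length := by
    intro s
    refine List.ext_getElem (by simp) fun i h1 h2 => ?_
    rw [getElem_pre, ← key s i h1, List.getD_eq_getElem _ _ h1]
  refine ⟨Y, fun k => ⟨f k, ?_⟩, fun k => ?_⟩
  · rw [hpre]
    exact pre_prefix Y (hlen k)
  · refine ⟨(g (pre X (f k))).length, ?_⟩
    rw [← hpre]
    have := (hf k).2
    rwa [take_pre X _ _ (by have := (hf k).1; simpa using this)] at this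

end ok

/-! ### orbits -/

open Classical in
/-- the next oracle -/
noncomputable def fw (g h : Str → Str) (X : ℕ → Bool) : Option (ℕ → Bool) :=
  if H : ∃ Y, Rl g h X Y then some H.choose else none

theorem fw_eq_some {g h : Str → Str} (hg : SF g) {X Y : ℕ → Bool} :
    fw g h X = some Y ↔ Rl g h X Y := by
  unfold fw
  constructor
  · intro h1
    split_ifs at h1 with H
    · simp only [Option.some.injEq] at h1
      rw [← h1]
      exact H.choose_spec
  · intro h1
    have H : ∃ Y, Rl g h X Y := ⟨Y, h1⟩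
    rw [dif_pos H]
    congr 1
    exact H.choose_spec.1.unique hg h1.1

/-- iterates -/
noncomputable def it (f : (ℕ → Bool) → Option (ℕ → Bool)) : ℕ → (ℕ → Bool) → Option (ℕ → Bool)
  | 0, X => some X
  | j + 1, X => (it f j X).bind f

theorem it_succ (f : (ℕ → Bool) → Option (ℕ → Bool)) (j : ℕ) (X : ℕ → Bool) :
    it f (j + 1) X = (f X).bind (it f j) := by
  induction j with
  | zero =>
    show (some X).bind f = (f X).bind fun Y => some Y
    simp
  | succ j ih =>
    show (it f (j + 1) X).bind f = _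
    rw [ih, Option.bind_assoc]
    rfl

/-- the oracle at the place `j` of the orbit -/
noncomputable def ob (g h : Str → Str) (X : ℕ → Bool) (j : ℤ) : Option (ℕ → Bool) :=
  if 0 ≤ j then it (fw g h) j.toNat X else it (fw h g) (-j).toNat X

def In (g h : Str → Str) (X : ℕ → Bool) (j : ℤ) : Prop := ∃ Y, ob g h X j = some Y

noncomputable def zz (g h : Str → Str) (X : ℕ → Bool) (j : ℤ) : ℕ → Bool :=
  (ob g h X j).getD fun _ => false

theorem ob_eq_some {g h : Str → Str} {X : ℕ → Bool} {j : ℤ} (h1 : In g h X j) :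
    ob g h X j = some (zz g h X j) := by
  obtain ⟨Y, hY⟩ := h1
  unfold zz
  rw [hY]
  rfl

theorem In_zero (g h : Str → Str) (X : ℕ → Bool) : In g h X 0 := ⟨X, rfl⟩

theorem zz_zero (g h : Str → Str) (X : ℕ → Bool) : zz g h X 0 = X := rfl

theorem ob_neg (g h : Str → Str) (X : ℕ → Bool) (j : ℤ) : ob g h X (-j) = ob h g X j := by
  unfold ob
  rcases lt_trichotomy j 0 with h1 | h1 | h1
  · rw [if_pos (by omega), if_neg (by omega)]
  · subst h1
    rfl
  · rw [if_neg (by omega), if_pos (by omega), neg_neg]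

theorem In_neg {g h : Str → Str} {X : ℕ → Bool} {j : ℤ} : In g h X (-j) ↔ In h g X j := by
  unfold In
  rw [ob_neg]

theorem zz_neg {g h : Str → Str} {X : ℕ → Bool} {j : ℤ} : zz g h X (-j) = zz h g X j := by
  unfold zz
  rw [ob_neg]

section orbit

variable {g h : Str → Str} (hg : SF g) (hh : SF h)

include hg hh

theorem ob_shift {X Y : ℕ → Bool} (hR : Rl g h X Y) (j : ℤ) : ob g h Y j = ob g h X (j + 1) := by
  have h1 : fw g h X = some Y := (fw_eq_some hg).2 hR
  have h2 : fw h g Y = some X := (fw_eq_some hh).2 ⟨hR.2, hR.1⟩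
  unfold ob
  by_cases hj : 0 ≤ j
  · rw [if_pos hj, if_pos (by omega), show (j + 1).toNat = j.toNat + 1 by omega, it_succ, h1]
    rfl
  · rw [if_neg hj, show (-j).toNat = (-j).toNat - 1 + 1 by omega, it_succ, h2]
    by_cases hj1 : j = -1
    · subst hj1
      rfl
    · rw [if_neg (by omega), show (-(j + 1)).toNat = (-j).toNat - 1 by omega]
      rfl

theorem Rl_zero_one {X : ℕ → Bool} (h1 : In g h X 1) : Rl g h X (zz g h X 1) := by
  rw [← fw_eq_some hg]
  have := ob_eq_some h1
  rw [← this]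
  rfl

/-- the orbits of the members -/
theorem ob_add {X : ℕ → Bool} (m : ℤ) : In g h X m → ∀ j, ob g h (zz g h X m) j = ob g h X (j + m) := by
  have pos : ∀ (g h : Str → Str) (_ : SF g) (_ : SF h) (m : ℕ), In g h X m →
      ∀ j, ob g h (zz g h X m) j = ob g h X (j + m) := by
    intro g h hg hh m
    induction m with
    | zero => intro _ j; rw [Nat.cast_zero, zz_zero, add_zero]
    | succ m ih =>
      intro hm j
      have e : ob g h X ((m + 1 : ℕ) : ℤ) = (ob g h X (m : ℤ)).bind (fw g h) := by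
        unfold ob
        rw [if_pos (by omega), if_pos (by omega)]
        rfl
      obtain ⟨Y, hY⟩ := hm
      have hY0 := hY
      rw [e, Option.bind_eq_some_iff] at hY
      obtain ⟨Z, hZ, hZY⟩ := hY
      have hm' : In g h X m := ⟨Z, hZ⟩
      have eZ : zz g h X m = Z := by unfold zz; rw [hZ]; rfl
      have eY : zz g h X ((m + 1 : ℕ) : ℤ) = Y := by unfold zz; rw [hY0]; rfl
      rw [eY, ob_shift hg hh ((fw_eq_some hg).1 hZY), ← eZ, ih hm']
      congr 1
      push_cast
      ring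
  intro hm j
  rcases le_total 0 m with h0 | h0
  · obtain ⟨k, rfl⟩ := Int.eq_ofNat_of_zero_le h0
    exact pos g h hg hh k hm j
  · obtain ⟨k, hk⟩ := Int.eq_ofNat_of_zero_le (show 0 ≤ -m by omega)
    have hm' : In h g X k := by
      rw [← hk, ← In_neg, neg_neg]
      exact hm
    have h1 := pos h g hh hg k hm' (-j)
    have h2 : zz h g X (k : ℤ) = zz g h X m := by
      rw [← hk, ← zz_neg, neg_neg]
    rw [h2, ← hk, show -j + -m = -(j + m) by ring, ob_neg, ob_neg] at h1
    exact h1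

theorem In_add {X : ℕ → Bool} {m : ℤ} (hm : In g h X m) {j : ℤ} :
    In g h (zz g h X m) j ↔ In g h X (j + m) := by
  unfold In
  rw [ob_add hg hh m hm]

theorem zz_add {X : ℕ → Bool} {m : ℤ} (hm : In g h X m) {j : ℤ} :
    zz g h (zz g h X m) j = zz g h X (j + m) := by
  unfold zz
  rw [show (ob g h X m).getD (fun _ => false) = zz g h X m from rfl, ob_add hg hh m hm]

theorem Rl_succ {X : ℕ → Bool} {j : ℤ} (h1 : In g h X j) (h2 : In g h X (j + 1)) :
    Rl g h (zz g h X j) (zz g h X (j + 1)) := by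
  have h3 : In g h (zz g h X j) 1 := by
    rw [In_add hg hh h1, add_comm]
    exact h2
  have h4 := Rl_zero_one hg hh h3
  rwa [zz_add hg hh h1, add_comm] at h4

theorem Rl_next {X Y : ℕ → Bool} {j : ℤ} (h1 : In g h X j) (h2 : Rl g h (zz g h X j) Y) :
    In g h X (j + 1) ∧ zz g h X (j + 1) = Y := by
  have h3 : ob g h (zz g h X j) 1 = some Y := (fw_eq_some hg).2 h2
  rw [ob_add hg hh j h1, add_comm] at h3
  refine ⟨⟨Y, h3⟩, ?_⟩
  unfold zz
  rw [h3]
  rfl

omit hg hh in
theorem In_pred_nat {X : ℕ → Bool} {m : ℕ} (hm : In g h X ((m + 1 : ℕ) : ℤ)) : In g h X m := by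
  obtain ⟨Y, hY⟩ := hm
  have e : ob g h X ((m + 1 : ℕ) : ℤ) = (ob g h X (m : ℤ)).bind (fw g h) := by
    unfold ob
    rw [if_pos (by omega), if_pos (by omega)]
    rfl
  rw [e, Option.bind_eq_some_iff] at hY
  obtain ⟨Z, hZ, -⟩ := hY
  exact ⟨Z, hZ⟩

omit hg hh in
theorem In_le_nat {X : ℕ → Bool} {m k : ℕ} (hk : k ≤ m) (hm : In g h X m) : In g h X k := by
  induction hk with
  | refl => exact hm
  | step _ ih => exact ih (In_pred_nat hm)

omit hg hh in
/-- the domain is an interval -/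
theorem In_int {X : ℕ → Bool} {i j k : ℤ} (hij : i ≤ j) (hjk : j ≤ k) (hi : In g h X i)
    (hk : In g h X k) : In g h X j := by
  rcases le_total 0 j with h0 | h0
  · obtain ⟨a, rfl⟩ := Int.eq_ofNat_of_zero_le h0
    obtain ⟨b, rfl⟩ := Int.eq_ofNat_of_zero_le (h0.trans hjk)
    exact In_le_nat (by exact_mod_cast hjk) hk
  · obtain ⟨a, ha⟩ := Int.eq_ofNat_of_zero_le (show 0 ≤ -j by omega)
    obtain ⟨b, hb⟩ := Int.eq_ofNat_of_zero_le (show 0 ≤ -i by omega)
    have h1 : In h g X (b : ℤ) := by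
      rw [← hb, ← In_neg, neg_neg]
      exact hi
    have h2 := In_le_nat (k := a) (by omega) h1
    rw [← ha, ← In_neg, neg_neg] at h2
    exact h2

end orbit

/-- the string function for the place `j` -/
def gz (g h : Str → Str) (j : ℤ) (σ : Str) : Str :=
  if 0 ≤ j then g^[j.toNat] σ else h^[(-j).toNat] σ

theorem gz_zero (g h : Str → Str) (σ : Str) : gz g h 0 σ = σ := rfl

/-- the place `j` is verified to the length `n` -/
def ver (g h : Str → Str) (n j : ℕ) (σ : Str) : Prop :=
  n ≤ σ.length ∧ ∀ l < j, ok g h n (g^[l] σ)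

def verz (g h : Str → Str) (n : ℕ) (j : ℤ) (σ : Str) : Prop :=
  if 0 ≤ j then ver g h n j.toNat σ else ver h g n (-j).toNat σ

open Classical in
/-- the flag and the digits at the place `j` which are visible in `σ` at level `n` -/
noncomputable def Raw (g h : Str → Str) (n : ℕ) (σ : Str) (j : ℤ) (b : ℕ) : Bool :=
  decide (b ≤ n ∧ verz g h n j σ ∧ (b = 0 ∨ (gz g h j σ).getD (b - 1) false = true))

open Classical in
/-- the flag and the digits at the place `j` -/
noncomputable def Rt (g h : Str → Str) (X : ℕ → Bool) (j : ℤ) (b : ℕ) : Bool :=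
  decide (In g h X j ∧ (b = 0 ∨ zz g h X j (b - 1) = true))

/-- at level `n` the ends of the orbit are visible -/
def Lv (g h : Str → Str) (X : ℕ → Bool) (n : ℕ) : Prop :=
  ∀ j : ℤ, In g h X j → (¬ In g h X (j + 1) → ∀ s, ¬ ok g h n (pre (zz g h X j) s)) ∧
    (¬ In g h X (j - 1) → ∀ s, ¬ ok h g n (pre (zz g h X j) s))

section facts

variable {g h : Str → Str} (hg : SF g) (hh : SF h)

include hg hh

theorem gz_SF (j : ℤ) : SF (gz g h j) := by
  unfold gz
  by_cases hj : 0 ≤ j
  · simp only [if_pos hj]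
    exact hg.iter _
  · simp only [if_neg hj]
    exact hh.iter _

theorem ap_nat {X : ℕ → Bool} (j : ℕ) : In g h X j → Ap g^[j] X (zz g h X j) := by
  induction j with
  | zero => intro _; exact Ap.refl X
  | succ j ih =>
    intro hj
    have h1 := In_pred_nat hj
    have h2 := Rl_succ hg hh h1 (by push_cast at hj; exact hj)
    rw [Function.iterate_succ']
    have h3 := (ih h1).comp hg h2.1
    push_cast
    exact h3

theorem ap_gz {X : ℕ → Bool} {j : ℤ} (hj : In g h X j) : Ap (gz g h j) X (zz g h X j) := by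
  unfold gz
  by_cases h0 : 0 ≤ j
  · simp only [if_pos h0]
    obtain ⟨a, rfl⟩ := Int.eq_ofNat_of_zero_le h0
    exact ap_nat hg hh a hj
  · simp only [if_neg h0]
    obtain ⟨a, ha⟩ := Int.eq_ofNat_of_zero_le (show 0 ≤ -j by omega)
    have h1 : In h g X (a : ℤ) := by
      rw [← ha, ← In_neg, neg_neg]
      exact hj
    have h2 := ap_nat hh hg a h1
    rw [← ha, ← zz_neg, neg_neg] at h2
    rw [ha]
    exact h2

theorem ver_mono {n j : ℕ} {σ τ : Str} (h1 : σ <+: τ) (h2 : ver g h n j σ) : ver g h n j τ :=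
  ⟨h2.1.trans h1.length_le, fun l hl => ok_mono hg hh ((hg.iter l).mono _ _ h1) (h2.2 l hl)⟩

theorem verz_mono {n : ℕ} {j : ℤ} {σ τ : Str} (h1 : σ <+: τ) (h2 : verz g h n j σ) :
    verz g h n j τ := by
  unfold verz at *
  split_ifs at * with h0
  · exact ver_mono hg hh h1 h2
  · exact ver_mono hh hg h1 h2

theorem ver_len {n j : ℕ} {σ : Str} (h2 : ver g h n j σ) : n ≤ (g^[j] σ).length := by
  cases j with
  | zero => exact h2.1
  | succ j =>
    rw [Function.iterate_succ_apply']
    exact ok_len hg hh (h2.2 j (Nat.lt_succ_self j))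

theorem verz_len {n : ℕ} {j : ℤ} {σ : Str} (h2 : verz g h n j σ) : n ≤ (gz g h j σ).length := by
  unfold verz at h2
  unfold gz
  split_ifs at * with h0
  · exact ver_len hg hh h2
  · exact ver_len hh hg h2

theorem in_of_ver {X : ℕ → Bool} {n s : ℕ}
    (hL : ∀ j : ℕ, In g h X j → ¬ In g h X (j + 1) → ∀ s, ¬ ok g h n (pre (zz g h X j) s)) (j : ℕ) :
    ver g h n j (pre X s) → In g h X j := by
  induction j with
  | zero => intro _; exact In_zero g h X
  | succ j ih =>
    intro hv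
    have h1 := ih ⟨hv.1, fun l hl => hv.2 l (by omega)⟩
    by_contra hc
    have h2 := hv.2 j (Nat.lt_succ_self j)
    rw [(ap_nat hg hh j h1).eq_pre (hg.iter j)] at h2
    exact hL j h1 (by push_cast at hc; exact hc) _ h2

theorem in_of_verz {X : ℕ → Bool} {n s : ℕ} (hL : Lv g h X n) {j : ℤ}
    (hv : verz g h n j (pre X s)) : In g h X j := by
  unfold verz at hv
  split_ifs at hv with h0
  · have h1 := in_of_ver hg hh (fun k hk => (hL k hk).1) j.toNat hv
    rwa [Int.toNat_of_nonneg h0] at h1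
  · have h1 := in_of_ver (g := h) (h := g) (X := X) hh hg (fun k hk hk' => ?_) (-j).toNat hv
    · rw [Int.toNat_of_nonneg (by omega), ← In_neg, neg_neg] at h1
      exact h1
    · have h2 := (hL (-(k : ℤ)) (by rw [In_neg]; exact hk)).2
      rw [zz_neg] at h2
      refine h2 ?_
      rw [show -(k : ℤ) - 1 = -(k + 1) by ring, In_neg]
      exact hk'

theorem ver_of_in {X : ℕ → Bool} (n j : ℕ) : In g h X j → ∃ s, ∀ s' ≥ s, ver g h n j (pre X s') := by
  induction j with
  | zero =>
    intro _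
    exact ⟨n, fun s' hs' => ⟨by simpa using hs', fun l hl => by omega⟩⟩
  | succ j ih =>
    intro hj
    have h1 := In_pred_nat hj
    obtain ⟨s1, hs1⟩ := ih h1
    obtain ⟨s2, hs2⟩ := ok_of_Rl hg hh (Rl_succ hg hh h1 (by push_cast at hj; exact hj)) n
    have h3 := ap_nat hg hh j h1
    obtain ⟨s3, hs3⟩ := h3.len (hg.iter j) s2
    refine ⟨max s1 s3, fun s' hs' => ⟨(hs1 s' (by omega)).1, fun l hl => ?_⟩⟩
    rcases Nat.lt_succ_iff_lt_or_eq.1 hl with hl' | rfl
    · exact (hs1 s' (by omega)).2 l hl'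
    · rw [h3.eq_pre (hg.iter l)]
      exact hs2 _ (hs3 s' (by omega))

theorem verz_of_in {X : ℕ → Bool} (n : ℕ) {j : ℤ} (hj : In g h X j) :
    ∃ s, ∀ s' ≥ s, verz g h n j (pre X s') := by
  unfold verz
  split_ifs with h0
  · refine ver_of_in hg hh n j.toNat ?_
    rwa [Int.toNat_of_nonneg h0]
  · refine ver_of_in hh hg n (-j).toNat ?_
    rw [Int.toNat_of_nonneg (by omega), ← In_neg, neg_neg]
    exact hj

omit hg hh in
theorem Raw_flag {n : ℕ} {σ : Str} {j : ℤ} : Raw g h n σ j 0 = true ↔ verz g h n j σ := by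
  unfold Raw
  simp

omit hg hh in
theorem Rt_flag {X : ℕ → Bool} {j : ℤ} : Rt g h X j 0 = true ↔ In g h X j := by
  unfold Rt
  simp

theorem Raw_eq {X : ℕ → Bool} {n s : ℕ} (hL : Lv g h X n) {j : ℤ}
    (hv : verz g h n j (pre X s)) {b : ℕ} (hb : b ≤ n) : Raw g h n (pre X s) j b = Rt g h X j b := by
  have h1 := in_of_verz hg hh hL hv
  have h2 := verz_len hg hh hv
  have h3 := (ap_gz hg hh h1).eq_pre (gz_SF hg hh j) s
  unfold Raw Rt
  simp only [hb, hv, h1, true_and]
  rcases Nat.eq_zero_or_pos b with rfl | hb0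
  · simp
  · have h4 : b ≠ 0 := by omega
    have h5 := pre_getD (zz g h X j) (gz g h j (pre X s)).length (b - 1) false (by omega)
    rw [← h3] at h5
    rw [h5]

/-- the visible part converges -/
theorem Raw_lim {X : ℕ → Bool} {n : ℕ} (hL : Lv g h X n) (j : ℤ) :
    ∃ s, ∀ s' ≥ s, ∀ b ≤ n, Raw g h n (pre X s') j b = Rt g h X j b := by
  by_cases hj : In g h X j
  · obtain ⟨s, hs⟩ := verz_of_in hg hh n hj
    exact ⟨s, fun s' hs' b hb => Raw_eq hg hh hL (hs s' hs') hb⟩
  · refine ⟨0, fun s' _ b _ => ?_⟩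
    have h1 : ¬ verz g h n j (pre X s') := fun hv => hj (in_of_verz hg hh hL hv)
    unfold Raw Rt
    simp [h1, hj]

theorem exists_Lv (X : ℕ → Bool) : ∃ n0, ∀ n ≥ n0, Lv g h X n := by
  have one : ∀ (g h : Str → Str) (_ : SF g) (_ : SF h), ∃ n0, ∀ n ≥ n0, ∀ j : ℤ, In g h X j →
      ¬ In g h X (j + 1) → ∀ s, ¬ ok g h n (pre (zz g h X j) s) := by
    intro g h hg hh
    by_cases hex : ∃ j : ℤ, In g h X j ∧ ¬ In g h X (j + 1)
    · obtain ⟨j, h1, h2⟩ := hex
      have h3 : ∃ n0, ∀ s, ¬ ok g h n0 (pre (zz g h X j) s) := by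
        by_contra hc
        push Not at hc
        obtain ⟨Y, hY⟩ := Rl_of_ok hg hh hc
        exact h2 (Rl_next hg hh h1 hY).1
      obtain ⟨n0, hn0⟩ := h3
      refine ⟨n0, fun n hn j' h1' h2' s hs => ?_⟩
      have : j' = j := by
        by_contra hne
        rcases lt_or_gt_of_ne hne with h4 | h4
        · exact h2' (In_int (by omega) (by omega) h1' h1)
        · exact h2 (In_int (by omega) (by omega) h1 h1')
      subst this
      exact hn0 s (ok_anti hn hs)
    · push Not at hex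
      exact ⟨0, fun n _ j h1 h2 => absurd (hex j h1) h2⟩
  obtain ⟨n1, hn1⟩ := one g h hg hh
  obtain ⟨n2, hn2⟩ := one h g hh hg
  refine ⟨max n1 n2, fun n hn j hj => ⟨hn1 n (by omega) j hj, fun h1 s => ?_⟩⟩
  have h2 := hn2 n (by omega) (-j) (by rw [In_neg]; exact hj)
    (by rw [show -j + 1 = -(j - 1) by ring, In_neg]; exact h1) s
  rw [zz_neg] at h2
  exact h2

theorem Lv_shift {X : ℕ → Bool} {n : ℕ} (hL : Lv g h X n) {m : ℤ} (hm : In g h X m) :
    Lv g h (zz g h X m) n := by
  intro j hj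
  rw [In_add hg hh hm] at hj
  rw [In_add hg hh hm, In_add hg hh hm, zz_add hg hh hm]
  have := hL (j + m) hj
  rwa [show j + 1 + m = j + m + 1 by ring, show j - 1 + m = j + m - 1 by ring]

theorem Rt_shift {X : ℕ → Bool} {m : ℤ} (hm : In g h X m) :
    Rt g h (zz g h X m) = fun j => Rt g h X (j + m) := by
  funext j b
  unfold Rt
  rw [zz_add hg hh hm]
  congr 1
  rw [In_add hg hh hm]

theorem Rt_per {X : ℕ → Bool} (a b : ℤ) (_ : a < b) (h1 : Rt g h X a 0 = true)
    (h2 : Rt g h X b 0 = true) (h3 : Rt g h X a = Rt g h X b) (i : ℤ) :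
    Rt g h X (i + (b - a)) = Rt g h X i := by
  rw [Rt_flag] at h1 h2
  have h4 : zz g h X a = zz g h X b := by
    funext c
    have := congrFun h3 (c + 1)
    unfold Rt at this
    simp only [h1, h2, true_and, Nat.add_sub_cancel, decide_eq_decide, Nat.succ_ne_zero,
      false_or] at this
    rw [Bool.eq_iff_iff]
    exact this
  have h5 : ob g h X (i + (b - a)) = ob g h X i := by
    have e1 := ob_add hg hh b h2 (i - a)
    have e2 := ob_add hg hh a h1 (i - a)
    rw [← h4, e2] at e1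
    rw [show i + (b - a) = i - a + b by ring, ← e1, sub_add_cancel]
  funext c
  unfold Rt In zz
  rw [h5]

theorem edges (X : ℕ → Bool) : (∃ N, ∀ n ≥ N, ¬ Q (cod (Rt g h X)) n 1) ∨
    ∃ p : ℕ, 0 < p ∧ (∀ i, In g h X i → In g h X (i + p) ∧ zz g h X (i + p) = zz g h X i) ∧
      ∀ i : ℕ, 1 ≤ i → i < p → ∃ N, ∀ n ≥ N, ¬ Q (cod (Rt g h X)) n ((i : ℤ) + 1) := by
  have h0 : Rt g h X 0 0 = true := Rt_flag.2 (In_zero g h X)
  rcases edge (cod (Rt g h X)) (cod_per h0 (fun i j k hij hjk hi hk =>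
      Rt_flag.2 (In_int hij hjk (Rt_flag.1 hi) (Rt_flag.1 hk))) (Rt_per hg hh)) with h1 | h1
  · exact Or.inl h1
  · obtain ⟨p, hp, h2, h3⟩ := h1
    refine Or.inr ⟨p, hp, fun i hi => ?_, h3⟩
    have h4 := h2 i
    have hcod : ∀ j, Rt g h X j 0 = true → cod (Rt g h X) j = Rt g h X j := by
      intro j h
      funext c
      unfold cod
      rw [if_pos h]
    have hfl : ∀ j, cod (Rt g h X) j 0 = Rt g h X j 0 := by
      intro j
      unfold cod
      by_cases h : Rt g h X j 0 = true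
      · rw [if_pos h]
      · rw [if_neg h, if_pos rfl]
        simp only [Bool.not_eq_true] at h
        exact h.symm
    have h5 : Rt g h X (i + p) 0 = true := by
      rw [← hfl, h4, hfl]
      exact Rt_flag.2 hi
    rw [hcod _ h5, hcod _ (Rt_flag.2 hi)] at h4
    have h6 := Rt_flag.1 h5
    refine ⟨h6, ?_⟩
    funext c
    have := congrFun h4 (c + 1)
    unfold Rt at this
    simp only [h6, hi, true_and, Nat.add_sub_cancel, decide_eq_decide, Nat.succ_ne_zero,
      false_or] at this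
    rw [Bool.eq_iff_iff]
    exact this

end facts

end Pool.Agent.V7H75.TP
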