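import Pool.Agent.V7H75.TP.Fix

set_option autoImplicit false

/-!
The jump of the oracle is not computable in the join of the oracle with the set which is put in.
-/

namespace Pool.Agent.V7H75.TP

open Encodable Pool.Agent.Helper227 Pool.Agent.V7H75.HF
open Pool.Agent.H548R2.Post (hlt En ext En_mono En_congr mem_WE_iff primrec_pow)

section defs

variable (g h : Str → Str) (I : ℤ → Prop) (n0 : ℕ) (F : Finset ℕ) (B : ℕ → Bool)

/-- the element is put in by stage `t` -/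
def Ac (i p x t : ℕ) : Prop :=
  n0 ≤ llv i ∧ lo (llv i) ≤ p ∧ p < lhi i + 1 ∧
    (∀ q < lhi i + 1, lo (llv i) ≤ q → I ((q : ℤ) - p)) ∧
    ∃ s < t + 1, Dec g h i x s (fun q => rowz B ((q : ℤ) - p))

/-- the label acts by stage `t` -/
def Ad (i p t : ℕ) : Prop := ∃ x < t + 1, Ac g h I n0 B i p x t

/-- `w` codes the actions of the first labels by stage `t` -/
def wt (t i w : ℕ) : Prop := w < 2 ^ ((i + 1) * (i + 1)) ∧
  ∀ a < (i + 1) * (i + 1), (w / 2 ^ a % 2 = 1 ↔ Ad g h I n0 B (a / (i + 1)) (a % (i + 1)) t)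

open Classical in
noncomputable def Vt (t z : ℕ) : Bool :=
  decide (z ∈ F ∨ Ac g h I n0 B z.unpair.1.unpair.1 z.unpair.1.unpair.2 z.unpair.2 t)

noncomputable def Wt (t : ℕ) : ℕ → Bool := join (rowz B 0) (Vt g h I n0 F B t)

/-- the label `i` is locked -/
def lck (c u t i w : ℕ) : Prop :=
  ¬ En u c (Nat.pair i w) (rowz B 0) ∧ En t c (Nat.pair i w) (rowz B 0)

def pc (E : List Bool × (ℕ × ℕ) → Prop) (c y : ℕ) : Prop :=
  ∃ i w t u, y = Nat.pair i w ∧ c ≤ i ∧ i < u ∧ u ≤ t ∧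
    (∃ v, wt g h I n0 B t c v ∧ E (pre (Wt g h I n0 F B t) u, (c, Nat.pair c v))) ∧
    wt g h I n0 B t i w ∧
    (∀ i' < u, i < i' → ∀ w' < 2 ^ ((i' + 1) * (i' + 1)), wt g h I n0 B t i' w' →
      lck B c u t i' w') ∧ ¬ En t c (Nat.pair i w) (rowz B 0)

end defs

variable {g h : Str → Str} {I : ℤ → Prop} {n0 : ℕ} {F : Finset ℕ} {B : ℕ → Bool}

theorem Vt_iff {t z : ℕ} : Vt g h I n0 F B t z = true ↔
    (z ∈ F ∨ Ac g h I n0 B z.unpair.1.unpair.1 z.unpair.1.unpair.2 z.unpair.2 t) := by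
  unfold Vt
  simp

theorem Ac.mono {i p x t t' : ℕ} (ht : t ≤ t') (h1 : Ac g h I n0 B i p x t) :
    Ac g h I n0 B i p x t' := by
  obtain ⟨a1, a2, a3, a4, s, hs, a5⟩ := h1
  exact ⟨a1, a2, a3, a4, s, by omega, a5⟩

theorem Ac.lt {i p x t : ℕ} (h1 : Ac g h I n0 B i p x t) : x < t + 1 := by
  obtain ⟨-, -, -, -, s, hs, a5⟩ := h1
  have := a5.1.2.1
  omega

theorem Ac.unique {i p x x' t t' : ℕ} (h1 : Ac g h I n0 B i p x t)
    (h2 : Ac g h I n0 B i p x' t') : x = x' := by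
  obtain ⟨-, -, -, -, s, -, a5⟩ := h1
  obtain ⟨-, -, -, -, s', -, a5'⟩ := h2
  exact (Dec_unique a5 a5').2

theorem Ad.mono {i p t t' : ℕ} (ht : t ≤ t') (h1 : Ad g h I n0 B i p t) : Ad g h I n0 B i p t' := by
  obtain ⟨x, hx, h2⟩ := h1
  exact ⟨x, by omega, h2.mono ht⟩

theorem bits_unique (N : ℕ) : ∀ w w' : ℕ, w < 2 ^ N → w' < 2 ^ N →
    (∀ a < N, (w / 2 ^ a % 2 = 1 ↔ w' / 2 ^ a % 2 = 1)) → w = w' := by
  intro w w' hw hw' h1
  refine Nat.eq_of_testBit_eq fun a => ?_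
  by_cases ha : a < N
  · rw [Nat.testBit_eq_decide_div_mod_eq, Nat.testBit_eq_decide_div_mod_eq, decide_eq_decide]
    exact h1 a ha
  · have h2 : 2 ^ N ≤ 2 ^ a := Nat.pow_le_pow_right (by norm_num) (by omega)
    rw [Nat.testBit_lt_two_pow (lt_of_lt_of_le hw h2), Nat.testBit_lt_two_pow (lt_of_lt_of_le hw' h2)]

theorem wt_unique {t i w w' : ℕ} (h1 : wt g h I n0 B t i w) (h2 : wt g h I n0 B t i w') : w = w' :=
  bits_unique _ w w' h1.1 h2.1 fun a ha => (h1.2 a ha).trans (h2.2 a ha).symm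

theorem exists_wt (t i : ℕ) : ∃ w, wt g h I n0 B t i w := by
  classical
  obtain ⟨w, hw, h1⟩ := exists_bits
    (fun a => decide (Ad g h I n0 B (a / (i + 1)) (a % (i + 1)) t)) ((i + 1) * (i + 1))
  exact ⟨w, hw, fun a ha => (h1 a ha).trans (by simp)⟩

theorem wt_Ad {t t' i w i' p' : ℕ} (h1 : wt g h I n0 B t i w) (h2 : wt g h I n0 B t' i w)
    (hi : i' ≤ i) (hp : p' ≤ i) : Ad g h I n0 B i' p' t ↔ Ad g h I n0 B i' p' t' := by
  have ha : i' * (i + 1) + p' < (i + 1) * (i + 1) := by nlinarith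
  have e1 : (i' * (i + 1) + p') / (i + 1) = i' := by
    rw [mul_comm, Nat.mul_add_div (Nat.succ_pos i), Nat.div_eq_of_lt (by omega), add_zero]
  have e2 : (i' * (i + 1) + p') % (i + 1) = p' := by
    rw [mul_comm, Nat.mul_add_mod, Nat.mod_eq_of_lt (by omega)]
  have h3 := (h1.2 _ ha).symm.trans (h2.2 _ ha)
  rwa [e1, e2] at h3

theorem wt_of_Ad {t t' i w : ℕ} (h1 : wt g h I n0 B t i w)
    (h2 : ∀ i' ≤ i, ∀ p' ≤ i, (Ad g h I n0 B i' p' t ↔ Ad g h I n0 B i' p' t')) :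
    wt g h I n0 B t' i w := by
  refine ⟨h1.1, fun a ha => (h1.2 a ha).trans (h2 _ ?_ _ ?_)⟩
  · have : a / (i + 1) < i + 1 := Nat.div_lt_of_lt_mul ha
    omega
  · have : a % (i + 1) < i + 1 := Nat.mod_lt _ (Nat.succ_pos i)
    omega

/-- the codes converge -/
theorem wt_final (g h : Str → Str) (I : ℤ → Prop) (n0 : ℕ) (B : ℕ → Bool) (i : ℕ) :
    ∃ w, ∃ T, ∀ t ≥ T, wt g h I n0 B t i w := by
  have h1 : ∃ T, ∀ t ≥ T, ∀ i' < i + 1, ∀ p' < i + 1,
      (Ad g h I n0 B i' p' t ↔ ∃ t', Ad g h I n0 B i' p' t') := by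
    refine ev_all (P := fun i' t => ∀ p' < i + 1,
      (Ad g h I n0 B i' p' t ↔ ∃ t', Ad g h I n0 B i' p' t')) _ fun i' _ => ?_
    refine ev_all (P := fun p' t => (Ad g h I n0 B i' p' t ↔ ∃ t', Ad g h I n0 B i' p' t')) _
      fun p' _ => ?_
    by_cases hex : ∃ t', Ad g h I n0 B i' p' t'
    · obtain ⟨t', ht'⟩ := hex
      exact ⟨t', fun t ht => ⟨fun h2 => ⟨t, h2⟩, fun _ => ht'.mono ht⟩⟩
    · exact ⟨0, fun t _ => ⟨fun h2 => ⟨t, h2⟩, fun h2 => absurd h2 hex⟩⟩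
  obtain ⟨T, hT⟩ := h1
  obtain ⟨w, hw⟩ := exists_wt (g := g) (h := h) (I := I) (n0 := n0) (B := B) T i
  refine ⟨w, T, fun t ht => wt_of_Ad hw fun i' hi' p' hp' => ?_⟩
  rw [hT T le_rfl i' (by omega) p' (by omega), hT t ht i' (by omega) p' (by omega)]

section comb

variable (hg : SF g) (hh : SF h) {X : ℕ → Bool} (hL : ∀ n ≥ n0, Lv g h X n)
  (hI : ∀ j, I j ↔ In g h X j)
  (hF : ∀ z, z ∈ F ↔ llv z.unpair.1.unpair.1 < n0 ∧ V g h X z = true)
  (hB : B = colz (zz g h X))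

include hg hh hL hI hF hB

omit hg hh hL hI hF in
theorem row_zero : rowz B 0 = X := by
  rw [hB, rowz_colz, zz_zero]

theorem V_stage (z : ℕ) : V g h X z = true ↔ ∃ t, Vt g h I n0 F B t z = true := by
  have h0 : ∀ t, Vt g h I n0 F B t z = true ↔
      (z ∈ F ∨ Ac g h I n0 B z.unpair.1.unpair.1 z.unpair.1.unpair.2 z.unpair.2 t) := by
    intro t
    unfold Vt
    simp
  have h1 : V g h X z = true ↔ VV g h X z.unpair.1.unpair.1 z.unpair.1.unpair.2 z.unpair.2 := by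
    unfold V
    simp
  simp only [h0]
  by_cases hn : llv z.unpair.1.unpair.1 < n0
  · constructor
    · intro h2
      exact ⟨0, Or.inl ((hF z).2 ⟨hn, h2⟩)⟩
    · rintro ⟨t, h2 | h2⟩
      · exact ((hF z).1 h2).2
      · exact absurd h2.1 (by omega)
  · rw [h1, VV_iff hg hh (hL _ (by omega))]
    constructor
    · rintro ⟨a1, a2, a3, s, a4⟩
      refine ⟨s, Or.inr ⟨by omega, a1, a2, fun q hq hq' => (hI _).2 (a3 q hq hq'), s, by omega, ?_⟩⟩
      rw [hB, rowz_colz]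
      exact a4
    · rintro ⟨t, h2 | h2⟩
      · exact absurd ((hF z).1 h2).1 hn
      · obtain ⟨-, a1, a2, a3, s, -, a4⟩ := h2
        rw [hB, rowz_colz] at a4
        exact ⟨a1, a2, fun q hq hq' => (hI _).1 (a3 q hq hq'), s, a4⟩

omit hg hh hL hI hF hB in
theorem Vt_mono {t t' z : ℕ} (ht : t ≤ t') (h1 : Vt g h I n0 F B t z = true) :
    Vt g h I n0 F B t' z = true := by
  rw [Vt_iff] at *
  exact h1.imp_right fun h2 => h2.mono ht

omit hg hh hL hI hF hB in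
theorem pre_join {Y : ℕ → Bool} {P R : ℕ → Bool} {u : ℕ} (h1 : ∀ z < u, P z = R z) :
    pre (join Y P) u = pre (join Y R) u := by
  refine pre_eq_of fun m hm => ?_
  unfold join
  by_cases hm2 : m % 2 = 0
  · rw [if_pos hm2, if_pos hm2]
  · rw [if_neg hm2, if_neg hm2, h1 _ (by omega)]

/-- the part of the set below `u` is final when the labels below `u` are final or locked -/
theorem preserve {c i0 u t w : ℕ} (hci : c ≤ i0) (hw : wt g h I n0 B t i0 w)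
    (hfin : ∃ T, ∀ t' ≥ T, wt g h I n0 B t' i0 w)
    (hlock : ∀ i' < u, i0 < i' → ∀ w' < 2 ^ ((i' + 1) * (i' + 1)), wt g h I n0 B t i' w' →
      lck B c u t i' w') :
    pre (W g h X) u = pre (Wt g h I n0 F B t) u := by
  have hX := row_zero hB
  unfold W Wt
  rw [hX]
  refine pre_join fun z hz => ?_
  rw [Bool.eq_iff_iff, V_stage hg hh hL hI hF hB]
  refine ⟨?_, fun h1 => ⟨t, h1⟩⟩
  rintro ⟨t1, h1⟩
  by_contra hc
  have h2 : Ac g h I n0 B z.unpair.1.unpair.1 z.unpair.1.unpair.2 z.unpair.2 t1 := by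
    rw [Vt_iff] at h1 hc
    rcases h1 with h1 | h1
    · exact absurd (Or.inl h1) hc
    · exact h1
  have h3 : ¬ Ac g h I n0 B z.unpair.1.unpair.1 z.unpair.1.unpair.2 z.unpair.2 t := by
    rw [Vt_iff] at hc
    exact fun h4 => hc (Or.inr h4)
  have hle := le_el z.unpair.1.unpair.1 z.unpair.1.unpair.2 z.unpair.2
  rw [el_eta] at hle
  generalize z.unpair.1.unpair.1 = i at *
  generalize z.unpair.1.unpair.2 = p at *
  generalize z.unpair.2 = x at *
  rcases le_or_gt i i0 with hi | hi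
  · obtain ⟨T, hT⟩ := hfin
    have hp : p ≤ i := by
      have := h2.2.2.1
      have := lhi_le i
      omega
    have h4 : Ad g h I n0 B i p (max T t1) := ⟨x, by have := h2.lt; omega, h2.mono (le_max_right _ _)⟩
    rw [← wt_Ad hw (hT _ (le_max_left _ _)) hi (by omega)] at h4
    obtain ⟨x', -, h5⟩ := h4
    rw [h5.unique h2] at h5
    exact h3 h5
  · obtain ⟨w', hw'⟩ := exists_wt (g := g) (h := h) (I := I) (n0 := n0) (B := B) t i
    obtain ⟨h4, h5⟩ := hlock i (by omega) hi w' hw'.1 hw'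
    obtain ⟨a1, a2, a3, a4, s, hs, a5⟩ := h2
    by_cases hst : s < t + 1
    · exact h3 ⟨a1, a2, a3, a4, s, hst, a5⟩
    · have h6 := (a5.1.2.2.1 p a3 a2).2
      simp only [sub_self] at h6
      have h7 := h6 c (by omega) w' hw'.1 (En_mono (by omega) h5)
      exact h4 (En_mono (by omega) h7)

/-- the combinatorial core -/
theorem comb {E : List Bool × (ℕ × ℕ) → Prop}
    (mE : ∀ (σ τ : List Bool) (a : ℕ × ℕ), σ <+: τ → E (σ, a) → E (τ, a)) {c : ℕ}
    (hc : ∀ y, y ∈ WE X c ↔ pc g h I n0 F B E c y)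
    (hE : ∀ y, y ∉ WE X c ↔ ∃ u, E (pre (W g h X) u, (c, y))) : False := by
  classical
  have hX := row_zero hB
  choose f hf using wt_final g h I n0 B
  -- the first element is not enumerated
  have claim2 : Nat.pair c (f c) ∉ WE X c := by
    intro h1
    obtain ⟨i, w, t, u, e1, h2, h3, h4, ⟨v, h5, h6⟩, h7, h8, -⟩ := (hc _).1 h1
    obtain ⟨e2, e3⟩ := Nat.pair_eq_pair.1 e1
    subst e2
    subst e3
    have e4 := wt_unique h5 h7
    subst e4
    have h9 := preserve hg hh hL hI hF hB (c := c) le_rfl h7 (hf c) h8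
    rw [← h9] at h6
    exact (hE _).2 ⟨u, h6⟩ h1
  have hex : ∃ u, c < u ∧ E (pre (W g h X) u, (c, Nat.pair c (f c))) := by
    obtain ⟨u, hu⟩ := (hE _).1 claim2
    exact ⟨max u (c + 1), by omega, mE _ _ _ (pre_prefix _ (le_max_left _ _)) hu⟩
  obtain ⟨hu1, hu2⟩ := Nat.find_spec hex
  have hmin := fun u => Nat.find_min (H := hex) (m := u)
  generalize Nat.find hex = u0 at *
  have claim1 : ∀ d i, c ≤ i → i < u0 → u0 - i ≤ d →
      Nat.pair i (f i) ∈ WE X c ∧ ¬ En u0 c (Nat.pair i (f i)) X := by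
    intro d
    induction d with
    | zero => intro i _ h2 h3; omega
    | succ d ih =>
      intro i h1 h2 h3
      have ih' : ∀ i', i < i' → i' < u0 →
          Nat.pair i' (f i') ∈ WE X c ∧ ¬ En u0 c (Nat.pair i' (f i')) X :=
        fun i' h4 h5 => ih i' (by omega) h5 (by omega)
      constructor
      · by_contra hcon
        apply hcon
        -- a late stage
        obtain ⟨T1, hT1⟩ := ev_all (P := fun i' t => wt g h I n0 B t i' (f i')) (u0 + 1)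
          fun i' _ => hf i'
        obtain ⟨T2, hT2⟩ := ev_all (P := fun i' t => i < i' → En t c (Nat.pair i' (f i')) X) u0
          fun i' hi' => by
            by_cases hii : i < i'
            · obtain ⟨s, hs⟩ := (mem_WE_iff _ _ _).1 (ih' i' hii hi').1
              exact ⟨s, fun t ht _ => En_mono ht hs⟩
            · exact ⟨0, fun t _ h4 => absurd h4 hii⟩
        obtain ⟨T3, hT3⟩ := ev_all (P := fun z t => (V g h X z = true → Vt g h I n0 F B t z = true))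
          u0 fun z _ => by
            by_cases hz : V g h X z = true
            · obtain ⟨t, ht⟩ := (V_stage hg hh hL hI hF hB z).1 hz
              exact ⟨t, fun t' ht' _ => Vt_mono ht' ht⟩
            · exact ⟨0, fun t _ h4 => absurd h4 hz⟩
        let t := max (max T1 T2) (max T3 u0)
        have hpre : pre (W g h X) u0 = pre (Wt g h I n0 F B t) u0 := by
          unfold W Wt
          rw [hX]
          refine pre_join fun z hz => ?_
          rw [Bool.eq_iff_iff]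
          exact ⟨hT3 t (by omega) z hz, fun h4 => (V_stage hg hh hL hI hF hB z).2 ⟨t, h4⟩⟩
        refine (hc _).2 ⟨i, f i, t, u0, rfl, h1, h2, by omega, ⟨f c, hT1 t (by omega) c (by omega), ?_⟩,
          hT1 t (by omega) i (by omega), ?_, ?_⟩
        · rw [← hpre]
          exact hu2
        · intro i' hi' hii w' _ hw'
          have e1 := wt_unique hw' (hT1 t (by omega) i' (by omega))
          subst e1
          unfold lck
          rw [hX]
          exact ⟨(ih' i' hii hi').2, hT2 t (by omega) i' hi' hii⟩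
        · rw [hX]
          exact fun h4 => hcon ((mem_WE_iff _ _ _).2 ⟨t, h4⟩)
      · intro hcon
        obtain ⟨i1, w, t, u, e1, h4, h5, h6, ⟨v, h7, h8⟩, h9, h10, h11⟩ :=
          (hc _).1 ((mem_WE_iff _ _ _).2 ⟨u0, hcon⟩)
        obtain ⟨e2, e3⟩ := Nat.pair_eq_pair.1 e1
        subst e2
        subst e3
        rw [hX] at h11
        have htu : t < u0 := by
          by_contra hle
          exact h11 (En_mono (by omega) hcon)
        have h12 := preserve hg hh hL hI hF hB h1 h9 (hf i) h10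
        have e4 : v = f c := by
          obtain ⟨T, hT⟩ := hf c
          obtain ⟨T', hT'⟩ := hf i
          refine wt_unique h7 (wt_of_Ad (hT (max T T') (le_max_left _ _)) fun i' hi' p' hp' => ?_)
          exact wt_Ad (hT' (max T T') (le_max_right _ _)) h9 (by omega) (by omega)
        subst e4
        rw [← h12] at h8
        exact hmin u (by omega) ⟨by omega, h8⟩
  exact claim2 (claim1 u0 c le_rfl hu1 (by omega)).1

end comb

/-! ### computability -/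

section eff

variable (cg : Computable g) (ch : Computable h) (cI : PrimrecPred I) (n0 : ℕ) (F : Finset ℕ)

include cg ch cI

theorem Ac_UD : UD fun B (y : ℕ × ℕ × ℕ × ℕ) => Ac g h I n0 B y.1 y.2.1 y.2.2.1 y.2.2.2 := by
  have hi : Computable fun y : ℕ × ℕ × ℕ × ℕ => y.1 := Computable.fst
  have hp : Computable fun y : ℕ × ℕ × ℕ × ℕ => y.2.1 := Computable.fst.comp Computable.snd
  have hx : Computable fun y : ℕ × ℕ × ℕ × ℕ => y.2.2.1 :=
    Computable.fst.comp (Computable.snd.comp Computable.snd)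
  have ht : Computable fun y : ℕ × ℕ × ℕ × ℕ => y.2.2.2 :=
    Computable.snd.comp (Computable.snd.comp Computable.snd)
  have hn : Computable fun y : ℕ × ℕ × ℕ × ℕ => llv y.1 := llv_comp.comp hi
  have hhi : Computable fun y : ℕ × ℕ × ℕ × ℕ => lhi y.1 + 1 :=
    Computable.succ.comp (lhi_comp.comp hi)
  refine UD.and (UD.le (Computable.const n0) hn) (UD.and (UD.le (lo_comp.comp hn) hp)
    (UD.and (UD.lt hp hhi) (UD.and ?_ ?_)))
  · refine UD.all_lt (p := fun _ (y : ℕ × ℕ × ℕ × ℕ) q => lo (llv y.1) ≤ q →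
      I ((q : ℤ) - y.2.1)) (f := fun y => lhi y.1 + 1) (UD.imp ?_ ?_) hhi
    · exact UD.le (lo_comp.comp (hn.comp Computable.fst)) Computable.snd
    · exact UD.of_comp (p := I) cI
        (c_subZ (c_cast Computable.snd) (c_cast (hp.comp Computable.fst)))
  · refine UD.ex_lt (p := fun B (y : ℕ × ℕ × ℕ × ℕ) s =>
      Dec g h y.1 y.2.2.1 s (fun q => rowz B ((q : ℤ) - y.2.1))) (f := fun y => y.2.2.2 + 1) ?_
      (Computable.succ.comp ht)
    exact (Dz_UD cg ch).comp (f := fun z : (ℕ × ℕ × ℕ × ℕ) × ℕ => (z.1.2.1, (z.1.1, (z.1.2.2.1, z.2))))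
      ((hp.comp Computable.fst).pair ((hi.comp Computable.fst).pair
        ((hx.comp Computable.fst).pair Computable.snd)))

theorem Ad_UD : UD fun B (y : ℕ × ℕ × ℕ) => Ad g h I n0 B y.1 y.2.1 y.2.2 := by
  refine UD.ex_lt (p := fun B (y : ℕ × ℕ × ℕ) x => Ac g h I n0 B y.1 y.2.1 x y.2.2)
    (f := fun y => y.2.2 + 1) ?_ (Computable.succ.comp (Computable.snd.comp Computable.snd))
  exact (Ac_UD cg ch cI n0).comp (f := fun z : (ℕ × ℕ × ℕ) × ℕ => (z.1.1, (z.1.2.1, (z.2, z.1.2.2))))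
    ((Computable.fst.comp Computable.fst).pair
      ((Computable.fst.comp (Computable.snd.comp Computable.fst)).pair
        (Computable.snd.pair (Computable.snd.comp (Computable.snd.comp Computable.fst)))))

omit cg ch cI in
theorem sq_comp {α : Type} [Primcodable α] {i : α → ℕ} (hi : Computable i) :
    Computable fun a => (i a + 1) * (i a + 1) := c_mul (Computable.succ.comp hi) (Computable.succ.comp hi)

theorem wt_UD : UD fun B (y : ℕ × ℕ × ℕ) => wt g h I n0 B y.1 y.2.1 y.2.2 := by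
  have hi : Computable fun y : ℕ × ℕ × ℕ => y.2.1 := Computable.fst.comp Computable.snd
  have hw : Computable fun y : ℕ × ℕ × ℕ => y.2.2 := Computable.snd.comp Computable.snd
  refine UD.and (UD.lt hw (c_pow (sq_comp hi))) ?_
  refine UD.all_lt (p := fun B (y : ℕ × ℕ × ℕ) a => (y.2.2 / 2 ^ a % 2 = 1 ↔
    Ad g h I n0 B (a / (y.2.1 + 1)) (a % (y.2.1 + 1)) y.1)) (f := fun y => (y.2.1 + 1) * (y.2.1 + 1))
    (UD.iff ?_ ?_) (sq_comp hi)
  · refine UD.of_prim (Primrec.eq.comp (Primrec.nat_mod.comp (Primrec.nat_div.comp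
      (Primrec.snd.comp (Primrec.snd.comp Primrec.fst))
      (primrec_pow.comp (Primrec.const 2) Primrec.snd)) (Primrec.const 2)) (Primrec.const 1))
  · have h1 : Primrec fun z : (ℕ × ℕ × ℕ) × ℕ => z.1.2.1 + 1 :=
      Primrec.succ.comp (Primrec.fst.comp (Primrec.snd.comp Primrec.fst))
    exact (Ad_UD cg ch cI n0).comp
      (f := fun z : (ℕ × ℕ × ℕ) × ℕ => (z.2 / (z.1.2.1 + 1), (z.2 % (z.1.2.1 + 1), z.1.1)))
      ((Primrec.nat_div.comp Primrec.snd h1).pair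
        ((Primrec.nat_mod.comp Primrec.snd h1).pair (Primrec.fst.comp Primrec.fst))).to_comp

theorem Vt_UD : UD fun B (y : ℕ × ℕ) => Vt g h I n0 F B y.1 y.2 = true := by
  have hF : PrimrecPred fun z : ℕ => z ∈ F := by
    refine (PP.ex_mem (α := ℕ) (f := fun _ => F.toList) (p := fun z b => b = z)
      (Primrec.eq.comp Primrec.snd Primrec.fst) (Primrec.const _)).of_eq fun z => by simp
  have h1 : UD fun (_ : ℕ → Bool) (y : ℕ × ℕ) => y.2 ∈ F := UD.of_comp (p := fun z : ℕ => z ∈ F) hF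
    Computable.snd
  have h2 : UD fun B (y : ℕ × ℕ) => Ac g h I n0 B y.2.unpair.1.unpair.1 y.2.unpair.1.unpair.2
      y.2.unpair.2 y.1 :=
    (Ac_UD cg ch cI n0).comp (f := fun y : ℕ × ℕ =>
      (y.2.unpair.1.unpair.1, (y.2.unpair.1.unpair.2, (y.2.unpair.2, y.1))))
      (((fst_prim.comp fst_prim).comp Primrec.snd).pair
        (((sec_prim.comp fst_prim).comp Primrec.snd).pair
          ((sec_prim.comp Primrec.snd).pair Primrec.fst))).to_comp
  refine (UD.or h1 h2).of_eq fun B y => ?_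
  unfold Vt
  simp

theorem Wt_UD : UD fun B (y : ℕ × ℕ) => Wt g h I n0 F B y.1 y.2 = true := by
  have hd : Primrec fun y : ℕ × ℕ => y.2 / 2 := Primrec.nat_div.comp Primrec.snd (Primrec.const 2)
  have h0 : UD fun (_ : ℕ → Bool) (y : ℕ × ℕ) => y.2 % 2 = 0 :=
    UD.of_prim (Primrec.eq.comp (Primrec.nat_mod.comp Primrec.snd (Primrec.const 2))
      (Primrec.const 0))
  have h1 : UD fun B (y : ℕ × ℕ) => rowz B 0 (y.2 / 2) = true :=
    rowz_UD.comp (f := fun y : ℕ × ℕ => ((0 : ℤ), y.2 / 2)) ((Computable.const 0).pair hd.to_comp)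
  have h2 : UD fun B (y : ℕ × ℕ) => Vt g h I n0 F B y.1 (y.2 / 2) = true :=
    (Vt_UD cg ch cI n0 F).comp (f := fun y : ℕ × ℕ => (y.1, y.2 / 2)) (Primrec.fst.pair hd).to_comp
  refine (UD.or (UD.and h0 h1) (UD.and h0.not h2)).of_eq fun B y => ?_
  unfold Wt join
  by_cases hy : y.2 % 2 = 0
  · simp [hy]
  · simp [hy]

omit cg ch cI in
theorem EnX_UD : UD fun B (y : ℕ × ℕ × ℕ) => En y.1 y.2.1 y.2.2 (rowz B 0) := by
  have h1 : UD fun B (y : Unit × ℕ) => rowz B 0 y.2 = true :=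
    rowz_UD.comp (f := fun y : Unit × ℕ => ((0 : ℤ), y.2)) ((Computable.const 0).pair Computable.snd)
  exact (UD.sub (F := fun B (_ : Unit) => rowz B 0) h1 En_UD).comp
    (f := fun y : ℕ × ℕ × ℕ => ((), y)) ((Computable.const ()).pair Computable.id)

theorem pc_U1 {E : List Bool × (ℕ × ℕ) → Prop} (hE : S1 E) :
    U1 fun B (y : ℕ × ℕ) => pc g h I n0 F B E y.1 y.2 := by
  have hEW : U1 fun B (y : ℕ × (ℕ × (ℕ × ℕ))) => E (pre (Wt g h I n0 F B y.1) y.2.1, y.2.2) := by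
    have h1 : U1 fun V (y : ℕ × (ℕ × ℕ)) => E (pre V y.1, y.2) :=
      U1.of_pre (P := fun w : List Bool × (ℕ × (ℕ × ℕ)) => E (w.1, w.2.2))
        (hE.comp (Primrec.fst.pair (Primrec.snd.comp Primrec.snd))) Computable.fst
    exact U1.sub (F := fun B t => Wt g h I n0 F B t)
      (UD.graph (F := fun B (y : ℕ × ℕ) => Wt g h I n0 F B y.1 y.2) (Wt_UD cg ch cI n0 F)) h1
  have hwt := wt_UD cg ch cI n0
  -- the variables: `((((c, y), i), w), t), u`
  refine U1.ex (p := fun B (y : ℕ × ℕ) i => ∃ w t u, y.2 = Nat.pair i w ∧ y.1 ≤ i ∧ i < u ∧ u ≤ t ∧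
    (∃ v, wt g h I n0 B t y.1 v ∧ E (pre (Wt g h I n0 F B t) u, (y.1, Nat.pair y.1 v))) ∧
    wt g h I n0 B t i w ∧
    (∀ i' < u, i < i' → ∀ w' < 2 ^ ((i' + 1) * (i' + 1)), wt g h I n0 B t i' w' →
      lck B y.1 u t i' w') ∧ ¬ En t y.1 (Nat.pair i w) (rowz B 0)) ?_
  refine U1.ex (p := fun B (y : (ℕ × ℕ) × ℕ) w => ∃ t u, y.1.2 = Nat.pair y.2 w ∧ y.1.1 ≤ y.2 ∧
    y.2 < u ∧ u ≤ t ∧
    (∃ v, wt g h I n0 B t y.1.1 v ∧ E (pre (Wt g h I n0 F B t) u, (y.1.1, Nat.pair y.1.1 v))) ∧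
    wt g h I n0 B t y.2 w ∧
    (∀ i' < u, y.2 < i' → ∀ w' < 2 ^ ((i' + 1) * (i' + 1)), wt g h I n0 B t i' w' →
      lck B y.1.1 u t i' w') ∧ ¬ En t y.1.1 (Nat.pair y.2 w) (rowz B 0)) ?_
  refine U1.ex (p := fun B (y : ((ℕ × ℕ) × ℕ) × ℕ) t => ∃ u, y.1.1.2 = Nat.pair y.1.2 y.2 ∧
    y.1.1.1 ≤ y.1.2 ∧ y.1.2 < u ∧ u ≤ t ∧
    (∃ v, wt g h I n0 B t y.1.1.1 v ∧
      E (pre (Wt g h I n0 F B t) u, (y.1.1.1, Nat.pair y.1.1.1 v))) ∧
    wt g h I n0 B t y.1.2 y.2 ∧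
    (∀ i' < u, y.1.2 < i' → ∀ w' < 2 ^ ((i' + 1) * (i' + 1)), wt g h I n0 B t i' w' →
      lck B y.1.1.1 u t i' w') ∧ ¬ En t y.1.1.1 (Nat.pair y.1.2 y.2) (rowz B 0)) ?_
  refine U1.ex (p := fun B (y : (((ℕ × ℕ) × ℕ) × ℕ) × ℕ) u => y.1.1.1.2 = Nat.pair y.1.1.2 y.1.2 ∧
    y.1.1.1.1 ≤ y.1.1.2 ∧ y.1.1.2 < u ∧ u ≤ y.2 ∧
    (∃ v, wt g h I n0 B y.2 y.1.1.1.1 v ∧
      E (pre (Wt g h I n0 F B y.2) u, (y.1.1.1.1, Nat.pair y.1.1.1.1 v))) ∧
    wt g h I n0 B y.2 y.1.1.2 y.1.2 ∧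
    (∀ i' < u, y.1.1.2 < i' → ∀ w' < 2 ^ ((i' + 1) * (i' + 1)), wt g h I n0 B y.2 i' w' →
      lck B y.1.1.1.1 u y.2 i' w') ∧
      ¬ En y.2 y.1.1.1.1 (Nat.pair y.1.1.2 y.1.2) (rowz B 0)) ?_
  have pc' : Primrec fun y : ((((ℕ × ℕ) × ℕ) × ℕ) × ℕ) × ℕ => y.1.1.1.1.1 :=
    Primrec.fst.comp (Primrec.fst.comp (Primrec.fst.comp (Primrec.fst.comp Primrec.fst)))
  have py : Primrec fun y : ((((ℕ × ℕ) × ℕ) × ℕ) × ℕ) × ℕ => y.1.1.1.1.2 :=
    Primrec.snd.comp (Primrec.fst.comp (Primrec.fst.comp (Primrec.fst.comp Primrec.fst)))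
  have pi : Primrec fun y : ((((ℕ × ℕ) × ℕ) × ℕ) × ℕ) × ℕ => y.1.1.1.2 :=
    Primrec.snd.comp (Primrec.fst.comp (Primrec.fst.comp Primrec.fst))
  have pw : Primrec fun y : ((((ℕ × ℕ) × ℕ) × ℕ) × ℕ) × ℕ => y.1.1.2 :=
    Primrec.snd.comp (Primrec.fst.comp Primrec.fst)
  have pt : Primrec fun y : ((((ℕ × ℕ) × ℕ) × ℕ) × ℕ) × ℕ => y.1.2 := Primrec.snd.comp Primrec.fst
  have pu : Primrec fun y : ((((ℕ × ℕ) × ℕ) × ℕ) × ℕ) × ℕ => y.2 := Primrec.snd
  refine U1.and ?_ (U1.and ?_ (U1.and ?_ (U1.and ?_ (U1.and ?_ (U1.and ?_ (U1.and ?_ ?_))))))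
  · exact U1.of_prim (Primrec.eq.comp py (Primrec₂.natPair.comp pi pw))
  · exact U1.of_prim (Primrec.nat_le.comp pc' pi)
  · exact U1.of_prim (Primrec.nat_lt.comp pi pu)
  · exact U1.of_prim (Primrec.nat_le.comp pu pt)
  · refine U1.ex (p := fun B (y : ((((ℕ × ℕ) × ℕ) × ℕ) × ℕ) × ℕ) v =>
      wt g h I n0 B y.1.2 y.1.1.1.1.1 v ∧
      E (pre (Wt g h I n0 F B y.1.2) y.2, (y.1.1.1.1.1, Nat.pair y.1.1.1.1.1 v))) (U1.and ?_ ?_)
    · exact hwt.pos.comp (f := fun z : (((((ℕ × ℕ) × ℕ) × ℕ) × ℕ) × ℕ) × ℕ =>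
        (z.1.1.2, (z.1.1.1.1.1.1, z.2)))
        ((pt.comp Primrec.fst).pair ((pc'.comp Primrec.fst).pair Primrec.snd)).to_comp
    · exact hEW.comp (f := fun z : (((((ℕ × ℕ) × ℕ) × ℕ) × ℕ) × ℕ) × ℕ =>
        (z.1.1.2, (z.1.2, (z.1.1.1.1.1.1, Nat.pair z.1.1.1.1.1.1 z.2))))
        ((pt.comp Primrec.fst).pair ((pu.comp Primrec.fst).pair ((pc'.comp Primrec.fst).pair
          (Primrec₂.natPair.comp (pc'.comp Primrec.fst) Primrec.snd)))).to_comp
  · exact hwt.pos.comp (f := fun y : ((((ℕ × ℕ) × ℕ) × ℕ) × ℕ) × ℕ => (y.1.2, (y.1.1.1.2, y.1.1.2)))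
      (pt.pair (pi.pair pw)).to_comp
  · refine (UD.all_lt (p := fun B (y : ((((ℕ × ℕ) × ℕ) × ℕ) × ℕ) × ℕ) i' => y.1.1.1.2 < i' →
      ∀ w' < 2 ^ ((i' + 1) * (i' + 1)), wt g h I n0 B y.1.2 i' w' →
        lck B y.1.1.1.1.1 y.2 y.1.2 i' w') (f := fun y => y.2) (UD.imp ?_ ?_) pu.to_comp).pos
    · exact UD.lt (pi.comp Primrec.fst).to_comp Computable.snd
    · refine UD.all_lt (p := fun B (z : (((((ℕ × ℕ) × ℕ) × ℕ) × ℕ) × ℕ) × ℕ) w' =>
        wt g h I n0 B z.1.1.2 z.2 w' → lck B z.1.1.1.1.1.1 z.1.2 z.1.1.2 z.2 w')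
        (f := fun z => 2 ^ ((z.2 + 1) * (z.2 + 1))) (UD.imp ?_ (UD.and (UD.not ?_) ?_))
        (c_pow (sq_comp Computable.snd))
      · exact hwt.comp (f := fun a : ((((((ℕ × ℕ) × ℕ) × ℕ) × ℕ) × ℕ) × ℕ) × ℕ =>
          (a.1.1.1.2, (a.1.2, a.2)))
          ((pt.comp (Primrec.fst.comp Primrec.fst)).pair
            ((Primrec.snd.comp Primrec.fst).pair Primrec.snd)).to_comp
      · exact EnX_UD.comp (f := fun a : ((((((ℕ × ℕ) × ℕ) × ℕ) × ℕ) × ℕ) × ℕ) × ℕ =>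
          (a.1.1.2, (a.1.1.1.1.1.1.1, Nat.pair a.1.2 a.2)))
          ((pu.comp (Primrec.fst.comp Primrec.fst)).pair
            ((pc'.comp (Primrec.fst.comp Primrec.fst)).pair
              (Primrec₂.natPair.comp (Primrec.snd.comp Primrec.fst) Primrec.snd))).to_comp
      · exact EnX_UD.comp (f := fun a : ((((((ℕ × ℕ) × ℕ) × ℕ) × ℕ) × ℕ) × ℕ) × ℕ =>
          (a.1.1.1.2, (a.1.1.1.1.1.1.1, Nat.pair a.1.2 a.2)))
          ((pt.comp (Primrec.fst.comp Primrec.fst)).pair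
            ((pc'.comp (Primrec.fst.comp Primrec.fst)).pair
              (Primrec₂.natPair.comp (Primrec.snd.comp Primrec.fst) Primrec.snd))).to_comp
  · exact EnX_UD.neg.comp (f := fun y : ((((ℕ × ℕ) × ℕ) × ℕ) × ℕ) × ℕ =>
      (y.1.2, (y.1.1.1.1.1, Nat.pair y.1.1.1.2 y.1.1.2)))
      (pt.pair (pc'.pair (Primrec₂.natPair.comp pi pw))).to_comp

end eff

theorem not_jump_le_W (hg : SF g) (hh : SF h) (cg : Computable g) (ch : Computable h)
    (X : ℕ → Bool) : ¬ TLe (jump X) (W g h X) := by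
  intro hle
  obtain ⟨n0, hn0⟩ := exists_Lv hg hh X
  have h1 : SI (W g h X) fun a : ℕ × ℕ => ¬ a.2 ∈ WE X a.1 := (si_WE X).decide_jump.2.trans hle
  obtain ⟨E, hE, mE, eE⟩ := h1
  have hfin := finite_levels hg hh X n0
  have h2 : SI X fun y : ℕ × ℕ => pc g h (fun j => In g h X j) n0 hfin.toFinset
      (colz (zz g h X)) E y.1 y.2 :=
    ((pc_U1 cg ch (In_prim g h X) n0 hfin.toFinset hE).si (colz (zz g h X))).trans
      (orbit_le hg hh cg ch X)
  obtain ⟨c, hc⟩ := SI.fixed_point h2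
  exact comb hg hh hn0 (fun j => Iff.rfl) (fun z => by simp) rfl mE hc (fun y => eE (c, y))

end Pool.Agent.V7H75.TP
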