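import Pool.Agent.V7H75.TP.Str
import Pool.Agent.V7H75.HF.Iter

set_option autoImplicit false

/-!
The construction for a pair of functionals: the labels and the elements which are put in.
-/

namespace Pool.Agent.V7H75.TP

open Encodable Pool.Agent.Helper227 Pool.Agent.V7H75.HF
open Pool.Agent.H548R2.Post (hlt En ext En_mono En_congr mem_WE_iff)

/-! ### labels -/

def lhi (i : ℕ) : ℕ := i.unpair.1
def llv (i : ℕ) : ℕ := i.unpair.2.unpair.1
def lf (i : ℕ) : ℕ := i.unpair.2.unpair.2.unpair.1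
def lk (i : ℕ) : ℕ := i.unpair.2.unpair.2.unpair.2.unpair.1
def lL (i : ℕ) : ℕ := i.unpair.2.unpair.2.unpair.2.unpair.2
def mk (a n f k L : ℕ) : ℕ := Nat.pair a (Nat.pair n (Nat.pair f (Nat.pair k L)))

theorem lhi_mk (a n f k L : ℕ) : lhi (mk a n f k L) = a := by simp [lhi, mk]
theorem llv_mk (a n f k L : ℕ) : llv (mk a n f k L) = n := by simp [llv, mk]
theorem lf_mk (a n f k L : ℕ) : lf (mk a n f k L) = f := by simp [lf, mk]
theorem lk_mk (a n f k L : ℕ) : lk (mk a n f k L) = k := by simp [lk, mk]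
theorem lL_mk (a n f k L : ℕ) : lL (mk a n f k L) = L := by simp [lL, mk]

theorem mk_eta (i : ℕ) : mk (lhi i) (llv i) (lf i) (lk i) (lL i) = i := by
  simp [mk, lhi, llv, lf, lk, lL, Nat.pair_unpair]

theorem lhi_le (i : ℕ) : lhi i ≤ i := Nat.unpair_left_le i

/-- the left end of the segment -/
def lo (n : ℕ) : ℕ := aa n + 1

/-- the length of the window -/
def ell (n : ℕ) : ℕ := 2 * aa n + 4 * gp n + 4

/-- the pattern with the code `L` -/
def yy (n L : ℕ) (j : ℤ) (b : ℕ) : Bool :=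
  decide (0 ≤ j ∧ b ≤ n ∧ L / 2 ^ (j.toNat * (n + 1) + b) % 2 = 1)

/-- the label is coherent -/
def Valid (i : ℕ) : Prop :=
  (lo (llv i) ≤ lf i ∧ lf i < lhi i + 1 ∧ lhi i + 1 + aa (llv i) < ell (llv i) ∧ lk i ≤ llv i ∧
    lL i < 2 ^ (ell (llv i) * (llv i + 1))) ∧
  (∀ j < lhi i + 1, lo (llv i) ≤ j → yy (llv i) (lL i) j 0 = true) ∧
  (∀ j < lhi i + 1, lo (llv i) < j → ¬ Q (cod (yy (llv i) (lL i))) (llv i) j) ∧
  (yy (llv i) (lL i) (lo (llv i) - 1 : ℤ) 0 = false ∨
    Q (cod (yy (llv i) (lL i))) (llv i) (lo (llv i))) ∧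
  (yy (llv i) (lL i) (lhi i + 1 : ℤ) 0 = false ∨
    Q (cod (yy (llv i) (lL i))) (llv i) (lhi i + 1))

/-- the elements -/
def el (i p x : ℕ) : ℕ := Nat.pair (Nat.pair i p) x

theorem le_el (i p x : ℕ) : i ≤ el i p x ∧ x ≤ el i p x :=
  ⟨(Nat.left_le_pair i p).trans (Nat.left_le_pair _ _), Nat.right_le_pair _ _⟩

section defs

variable (g h : Str → Str)

/-- the oracle at the place `q` shows the pattern -/
def mt (i q s : ℕ) (Y : ℕ → Bool) : Prop :=
  ∀ j < ell (llv i), ∀ b < llv i + 1,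
    Raw g h (llv i) (pre Y s) ((j : ℤ) - q) b = yy (llv i) (lL i) j b

/-- the watched numbers are settled -/
def st (i x s : ℕ) (Y : ℕ → Bool) : Prop :=
  ∀ c < i + 1, ∀ w < 2 ^ ((i + 1) * (i + 1)), En s c (Nat.pair i w) Y → En x c (Nat.pair i w) Y

def Good (i x s : ℕ) (u : ℕ → ℕ → Bool) : Prop :=
  Valid i ∧ x < s ∧ (∀ q < lhi i + 1, lo (llv i) ≤ q → mt g h i q s (u q) ∧ st i x s (u q)) ∧
    En s (lk i) (el i (lf i) x) (u (lf i))

def Dec (i x s : ℕ) (u : ℕ → ℕ → Bool) : Prop :=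
  Good g h i x s u ∧ (∀ s' < s, ∀ x' < s', ¬ Good g h i x' s' u) ∧ ∀ x' < x, ¬ Good g h i x' s u

/-- the element is put in -/
def VV (X : ℕ → Bool) (i p x : ℕ) : Prop :=
  lo (llv i) ≤ p ∧ p < lhi i + 1 ∧ ∃ t s,
    (∀ q < lhi i + 1, lo (llv i) ≤ q → s ≤ (gz g h ((q : ℤ) - p) (pre X t)).length) ∧
    Dec g h i x s (fun q => ext (gz g h ((q : ℤ) - p) (pre X t)))

open Classical in
noncomputable def V (X : ℕ → Bool) : ℕ → Bool :=
  fun z => decide (VV g h X z.unpair.1.unpair.1 z.unpair.1.unpair.2 z.unpair.2)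

noncomputable def W (X : ℕ → Bool) : ℕ → Bool := join X (V g h X)

end defs

variable {g h : Str → Str}

theorem V_el {X : ℕ → Bool} {i p x : ℕ} : V g h X (el i p x) = true ↔ VV g h X i p x := by
  unfold V el
  simp

theorem el_eta (z : ℕ) : el z.unpair.1.unpair.1 z.unpair.1.unpair.2 z.unpair.2 = z := by
  simp [el, Nat.pair_unpair]

/-! ### dependence on the oracles -/

theorem pre_eq_of {Y Z : ℕ → Bool} {s : ℕ} (hYZ : ∀ m < s, Y m = Z m) : pre Y s = pre Z s :=
  pre_eq_iff.2 hYZ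

theorem mt_congr {i q s : ℕ} {Y Z : ℕ → Bool} (hYZ : ∀ m < s, Y m = Z m) :
    mt g h i q s Y ↔ mt g h i q s Z := by
  unfold mt
  rw [pre_eq_of hYZ]

theorem st_congr {i x s : ℕ} (hx : x < s) {Y Z : ℕ → Bool} (hYZ : ∀ m < s, Y m = Z m) :
    st i x s Y ↔ st i x s Z := by
  unfold st
  refine forall_congr' fun c => forall_congr' fun _ => forall_congr' fun w =>
    forall_congr' fun _ => ?_
  rw [En_congr hYZ, En_congr (s := x) fun m hm => hYZ m (hm.trans hx)]

theorem Good_congr {i x s : ℕ} {u u' : ℕ → ℕ → Bool}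
    (hu : ∀ q < lhi i + 1, lo (llv i) ≤ q → ∀ m < s, u q m = u' q m) :
    Good g h i x s u ↔ Good g h i x s u' := by
  unfold Good
  refine and_congr_right fun hv => and_congr_right fun hx => and_congr ?_ ?_
  · refine forall_congr' fun q => forall_congr' fun hq => forall_congr' fun hq' => ?_
    rw [mt_congr (hu q hq hq'), st_congr hx (hu q hq hq')]
  · exact En_congr (hu _ hv.1.2.1 hv.1.1)

theorem Dec_congr {i x s : ℕ} {u u' : ℕ → ℕ → Bool}
    (hu : ∀ q < lhi i + 1, lo (llv i) ≤ q → ∀ m < s, u q m = u' q m) :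
    Dec g h i x s u ↔ Dec g h i x s u' := by
  unfold Dec
  rw [Good_congr hu]
  refine and_congr_right fun _ => and_congr ?_ ?_
  · refine forall_congr' fun s' => forall_congr' fun hs' => forall_congr' fun x' =>
      forall_congr' fun _ => ?_
    rw [Good_congr fun q hq hq' m hm => hu q hq hq' m (hm.trans hs')]
  · refine forall_congr' fun x' => forall_congr' fun _ => ?_
    rw [Good_congr hu]

theorem Dec_unique {i x x' s s' : ℕ} {u : ℕ → ℕ → Bool} (h1 : Dec g h i x s u)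
    (h2 : Dec g h i x' s' u) : s = s' ∧ x = x' := by
  have hs : s = s' := by
    rcases lt_trichotomy s s' with hlt | heq | hlt
    · exact absurd h1.1 (h2.2.1 s hlt x h1.1.2.1)
    · exact heq
    · exact absurd h2.1 (h1.2.1 s' hlt x' h2.1.2.1)
  subst hs
  refine ⟨rfl, ?_⟩
  rcases lt_trichotomy x x' with hlt | heq | hlt
  · exact absurd h1.1 (h2.2.2 x hlt)
  · exact heq
  · exact absurd h2.1 (h1.2.2 x' hlt)

theorem exists_Dec {i x s : ℕ} {u : ℕ → ℕ → Bool} (h1 : Good g h i x s u) :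
    ∃ x' s', Dec g h i x' s' u := by
  classical
  have hex : ∃ s, ∃ x, Good g h i x s u := ⟨s, x, h1⟩
  have hex2 : ∃ x, Good g h i x (Nat.find hex) u := Nat.find_spec hex
  refine ⟨Nat.find hex2, Nat.find hex, Nat.find_spec hex2, fun s' hs' x' _ hg => ?_,
    fun x' hx' => Nat.find_min hex2 hx'⟩
  exact Nat.find_min hex hs' ⟨x', hg⟩

section facts

variable (hg : SF g) (hh : SF h)

include hg hh

theorem VV_unique {X : ℕ → Bool} {i p x x' : ℕ} (h1 : VV g h X i p x) (h2 : VV g h X i p x') :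
    x = x' := by
  obtain ⟨-, -, t, s, h3, h4⟩ := h1
  obtain ⟨-, -, t', s', h3', h4'⟩ := h2
  have key : ∀ t₀ s₀ x₀, t₀ ≤ max t t' →
      (∀ q < lhi i + 1, lo (llv i) ≤ q → s₀ ≤ (gz g h ((q : ℤ) - p) (pre X t₀)).length) →
      Dec g h i x₀ s₀ (fun q => ext (gz g h ((q : ℤ) - p) (pre X t₀))) →
      Dec g h i x₀ s₀ (fun q => ext (gz g h ((q : ℤ) - p) (pre X (max t t')))) := by
    intro t₀ s₀ x₀ ht h5 h6
    refine (Dec_congr fun q hq hq' m hm => ?_).1 h6
    exact (getD_of_prefix ((gz_SF hg hh _).mono _ _ (pre_prefix X ht))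
      (lt_of_lt_of_le hm (h5 q hq hq'))).symm
  exact (Dec_unique (key t s x (le_max_left _ _) h3 h4)
    (key t' s' x' (le_max_right _ _) h3' h4')).2

theorem finite_levels (X : ℕ → Bool) (n0 : ℕ) :
    {z | llv z.unpair.1.unpair.1 < n0 ∧ V g h X z = true}.Finite := by
  have h1 : {i | Valid i ∧ llv i < n0}.Finite := by
    have h2 : {i | Valid i ∧ llv i < n0} ⊆ (fun y : ℕ × ℕ × ℕ × ℕ × ℕ =>
        mk y.1 y.2.1 y.2.2.1 y.2.2.2.1 y.2.2.2.2) ''
        ⋃ n ∈ Finset.range n0, ((Finset.range (ell n) ×ˢ Finset.range n0 ×ˢ Finset.range (ell n) ×ˢ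
          Finset.range n0 ×ˢ Finset.range (2 ^ (ell n * (n + 1))) : Finset _) :
            Set (ℕ × ℕ × ℕ × ℕ × ℕ)) := by
      rintro i ⟨hv, hn⟩
      refine ⟨(lhi i, llv i, lf i, lk i, lL i), ?_, mk_eta i⟩
      simp only [Set.mem_iUnion]
      refine ⟨llv i, by simpa using hn, ?_⟩
      obtain ⟨⟨a1, a2, a3, a4, a5⟩, -⟩ := hv
      simp only [Finset.coe_product, Finset.coe_range, Set.mem_prod, Set.mem_Iio]
      refine ⟨by omega, hn, by omega, by omega, a5⟩
    refine Set.Finite.subset (Set.Finite.image _ ?_) h2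
    exact Set.Finite.biUnion (Finset.finite_toSet _) fun n _ => Finset.finite_toSet _
  have h3 : {z | llv z.unpair.1.unpair.1 < n0 ∧ V g h X z = true} ⊆
      ⋃ i ∈ {i | Valid i ∧ llv i < n0}, ⋃ p ∈ Finset.range (lhi i + 1),
        {z | ∃ x, z = el i p x ∧ VV g h X i p x} := by
    rintro z ⟨hn, hz⟩
    rw [← el_eta z, V_el] at hz
    simp only [Set.mem_iUnion]
    refine ⟨_, ⟨?_, hn⟩, _, Finset.mem_range.2 hz.2.1, z.unpair.2, (el_eta z).symm, hz⟩
    obtain ⟨-, -, t, s, -, h4⟩ := hz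
    exact h4.1.1
  refine Set.Finite.subset (Set.Finite.biUnion h1 fun i _ =>
    Set.Finite.biUnion (Finset.finite_toSet _) fun p _ => ?_) h3
  refine Set.Subsingleton.finite ?_
  rintro z ⟨x, rfl, hx⟩ z' ⟨x', rfl, hx'⟩
  rw [VV_unique hg hh hx hx']

/-- the elements which are put in, at a level at which the ends of the orbit are visible -/
theorem VV_iff {X : ℕ → Bool} {i p x : ℕ} (hL : Lv g h X (llv i)) : VV g h X i p x ↔
    lo (llv i) ≤ p ∧ p < lhi i + 1 ∧ (∀ q < lhi i + 1, lo (llv i) ≤ q → In g h X ((q : ℤ) - p)) ∧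
      ∃ s, Dec g h i x s (fun q => zz g h X ((q : ℤ) - p)) := by
  unfold VV
  refine and_congr_right fun hp => and_congr_right fun hp' => ?_
  constructor
  · rintro ⟨t, s, h1, h2⟩
    have hst : s ≤ t := by
      have h3 := h1 p hp' hp
      rw [sub_self, gz_zero, length_pre] at h3
      exact h3
    have h3 := (h2.1.2.2.1 p hp' hp).1
    have h4 : pre (ext (gz g h ((p : ℤ) - p) (pre X t))) s = pre X s := by
      rw [sub_self, gz_zero]
      refine pre_eq_of fun m hm => ?_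
      exact pre_getD X t m false (by omega)
    have hin : ∀ q < lhi i + 1, lo (llv i) ≤ q → In g h X ((q : ℤ) - p) := by
      intro q hq hq'
      have hv := h2.1.1
      have h5 := h3 q (by have := hv.1.2.2.1; omega) 0 (Nat.succ_pos _)
      rw [h4, hv.2.1 q hq hq', Raw_flag] at h5
      exact in_of_verz hg hh hL h5
    refine ⟨hin, s, (Dec_congr fun q hq hq' m hm => ?_).1 h2⟩
    have h5 := (ap_gz hg hh (hin q hq hq')).eq_pre (gz_SF hg hh _) t
    have h6 : m < (gz g h ((q : ℤ) - p) (pre X t)).length := lt_of_lt_of_le hm (h1 q hq hq')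
    have h7 := pre_getD (zz g h X ((q : ℤ) - p)) (gz g h ((q : ℤ) - p) (pre X t)).length m false h6
    rw [← h5] at h7
    exact h7
  · rintro ⟨h1, s, h2⟩
    have h3 : ∀ q, ∃ t, q < lhi i + 1 → lo (llv i) ≤ q →
        ∀ t' ≥ t, s ≤ (gz g h ((q : ℤ) - p) (pre X t')).length := by
      intro q
      by_cases hq : q < lhi i + 1 ∧ lo (llv i) ≤ q
      · obtain ⟨t, ht⟩ := (ap_gz hg hh (h1 q hq.1 hq.2)).len (gz_SF hg hh _) s
        exact ⟨t, fun _ _ => ht⟩
      · exact ⟨0, fun h4 h5 => absurd ⟨h4, h5⟩ hq⟩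
    choose f hf using h3
    let t := (Finset.range (lhi i + 1)).sup f
    have h4 : ∀ q < lhi i + 1, lo (llv i) ≤ q → s ≤ (gz g h ((q : ℤ) - p) (pre X t)).length :=
      fun q hq hq' => hf q hq hq' t (Finset.le_sup (f := f) (Finset.mem_range.2 hq))
    refine ⟨t, s, h4, (Dec_congr fun q hq hq' m hm => ?_).1 h2⟩
    have h5 := (ap_gz hg hh (h1 q hq hq')).eq_pre (gz_SF hg hh _) t
    have h6 : m < (gz g h ((q : ℤ) - p) (pre X t)).length := lt_of_lt_of_le hm (h4 q hq hq')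
    have h7 := pre_getD (zz g h X ((q : ℤ) - p)) (gz g h ((q : ℤ) - p) (pre X t)).length m false h6
    rw [← h5] at h7
    exact h7.symm

end facts

/-! ### true labels -/

/-- `X` is at the place `p` of the pattern of the label -/
def Tr (g h : Str → Str) (X : ℕ → Bool) (i p : ℕ) : Prop :=
  ∀ j < ell (llv i), ∀ b < llv i + 1, Rt g h X ((j : ℤ) - p) b = yy (llv i) (lL i) j b

theorem exists_bits (v : ℕ → Bool) (N : ℕ) : ∃ L < 2 ^ N, ∀ m < N, (L / 2 ^ m % 2 = 1 ↔ v m = true) := by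
  induction N with
  | zero => exact ⟨0, by norm_num, fun m hm => absurd hm (Nat.not_lt_zero m)⟩
  | succ N ih =>
    obtain ⟨L, hL, h1⟩ := ih
    refine ⟨L + (if v N then 1 else 0) * 2 ^ N, ?_, fun m hm => ?_⟩
    · rw [pow_succ]
      split_ifs <;> omega
    · rcases Nat.lt_succ_iff_lt_or_eq.1 hm with hm' | rfl
      · rw [← h1 m hm']
        obtain ⟨k, hk⟩ : ∃ k, N = m + (k + 1) := ⟨N - m - 1, by omega⟩
        have h2 : (if v N then 1 else 0) * 2 ^ N = (if v N then 1 else 0) * 2 ^ k * 2 * 2 ^ m := by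
          rw [hk, pow_add, pow_succ]
          ring
        rw [h2, Nat.add_mul_div_right _ _ (Nat.two_pow_pos m), Nat.add_mul_mod_self_right]
      · rw [Nat.add_mul_div_right _ _ (Nat.two_pow_pos m), Nat.div_eq_of_lt hL, zero_add]
        cases v m <;> simp

theorem yy_spec {n L j b : ℕ} (hb : b < n + 1) :
    yy n L j b = true ↔ L / 2 ^ (j * (n + 1) + b) % 2 = 1 := by
  unfold yy
  simp only [decide_eq_true_eq, Int.toNat_natCast]
  exact ⟨fun h1 => h1.2.2, fun h1 => ⟨by omega, by omega, h1⟩⟩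

theorem exists_pat (n N : ℕ) (r : ℕ → ℕ → Bool) : ∃ L < 2 ^ (N * (n + 1)),
    ∀ j < N, ∀ b < n + 1, yy n L j b = r j b := by
  obtain ⟨L, hL, h1⟩ := exists_bits (fun m => r (m / (n + 1)) (m % (n + 1))) (N * (n + 1))
  refine ⟨L, hL, fun j hj b hb => ?_⟩
  have h2 : j * (n + 1) + b < N * (n + 1) := by nlinarith
  have h3 := h1 _ h2
  have e1 : (j * (n + 1) + b) / (n + 1) = j := by
    rw [mul_comm, Nat.mul_add_div (Nat.succ_pos n), Nat.div_eq_of_lt hb, add_zero]
  have e2 : (j * (n + 1) + b) % (n + 1) = b := by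
    rw [mul_comm, Nat.mul_add_mod, Nat.mod_eq_of_lt hb]
  rw [e1, e2, ← yy_spec hb] at h3
  exact Bool.eq_iff_iff.2 h3

/-- the cuts of the pattern are the cuts of the orbit -/
theorem Tr.Q_iff {X : ℕ → Bool} {i p : ℕ} (ht : Tr g h X i p) {j : ℤ} (h1 : aa (llv i) ≤ j)
    (h2 : j + aa (llv i) < ell (llv i)) : Q (cod (yy (llv i) (lL i))) (llv i) j ↔
      Q (cod (Rt g h X)) (llv i) (j - p) := by
  have h3 := Q_cod_shift (Rt g h X) (-(p : ℤ)) (llv i) j
  rw [← sub_eq_add_neg] at h3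
  rw [← h3]
  refine Q_cod_loc fun k hk b hb => ?_
  rw [abs_le] at hk
  obtain ⟨a, rfl⟩ := Int.eq_ofNat_of_zero_le (show 0 ≤ k by omega)
  rw [← sub_eq_add_neg]
  exact (ht a (by omega) b (by omega)).symm

theorem Tr.flag {X : ℕ → Bool} {i p : ℕ} (ht : Tr g h X i p) {j : ℤ} (h1 : 0 ≤ j)
    (h2 : j < ell (llv i)) : yy (llv i) (lL i) j 0 = true ↔ In g h X (j - p) := by
  obtain ⟨a, rfl⟩ := Int.eq_ofNat_of_zero_le h1
  rw [← ht a (by omega) 0 (Nat.succ_pos _)]
  exact Rt_flag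

theorem aa_le (n : ℕ) : 2 * aa n + 4 < ell n + 1 := by
  unfold ell
  omega

/-- there are true labels at each level -/
theorem exists_Tr (X : ℕ → Bool) {n k : ℕ} (hk : k ≤ n) : ∃ i p, Valid i ∧ llv i = n ∧ lk i = k ∧
    lf i = p ∧ lo n ≤ p ∧ p < lhi i + 1 ∧ Tr g h X i p := by
  classical
  let S : ℤ → Prop := fun j => In g h X j ∧ sm (Q (cod (Rt g h X)) n) 0 j
  have h0 : S 0 := ⟨In_zero g h X, sm_refl _ _⟩
  have hbd : ∀ j, S j → |j| ≤ 2 * gp n := by
    rintro j ⟨-, hj⟩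
    have := smQ_bound hj
    rwa [zero_sub, abs_neg] at this
  obtain ⟨b, ⟨hb1, hb2⟩, hb3⟩ := Int.exists_greatest_of_bdd (P := S)
    ⟨2 * gp n, fun z hz => (le_abs_self z).trans (hbd z hz)⟩ ⟨0, h0⟩
  obtain ⟨a, ⟨ha1, ha2⟩, ha3⟩ := Int.exists_least_of_bdd (P := S)
    ⟨-(2 * gp n), fun z hz => by have := (abs_le.1 (hbd z hz)).1; omega⟩ ⟨0, h0⟩
  have hb0 := hb3 0 h0
  have ha0 := ha3 0 h0
  have hbl := abs_le.1 (hbd b ⟨hb1, hb2⟩)
  have hal := abs_le.1 (hbd a ⟨ha1, ha2⟩)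
  obtain ⟨a', ha'⟩ := Int.eq_ofNat_of_zero_le (show 0 ≤ -a by omega)
  obtain ⟨b', hb'⟩ := Int.eq_ofNat_of_zero_le hb0
  have hae : a = -(a' : ℤ) := by omega
  subst hae
  subst hb'
  obtain ⟨L, hL, hLr⟩ := exists_pat n (ell n) fun j c => Rt g h X ((j : ℤ) - (lo n + a' : ℕ)) c
  have e1 := llv_mk (lo n + a' + b') n (lo n + a') k L
  have e2 := lhi_mk (lo n + a' + b') n (lo n + a') k L
  have e3 := lk_mk (lo n + a' + b') n (lo n + a') k L
  have e4 := lf_mk (lo n + a' + b') n (lo n + a') k L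
  have e5 := lL_mk (lo n + a' + b') n (lo n + a') k L
  generalize mk (lo n + a' + b') n (lo n + a') k L = i at *
  subst e1
  subst e5
  have ht : Tr g h X i (lo (llv i) + a') := fun j hj c hc => (hLr j hj c hc).symm
  have hlo : lo (llv i) = aa (llv i) + 1 := rfl
  have hell : ell (llv i) = 2 * aa (llv i) + 4 * gp (llv i) + 4 := rfl
  have hw : lhi i + 1 + aa (llv i) < ell (llv i) := by omega
  have hall : ∀ j : ℤ, -(a' : ℤ) ≤ j → j ≤ b' → In g h X j := fun j h1 h2 => In_int h1 h2 ha1 hb1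
  have hcut : ∀ j : ℤ, -(a' : ℤ) < j → j ≤ b' → ¬ Q (cod (Rt g h X)) (llv i) j := by
    intro j h1 h2
    rcases le_or_gt j 0 with h3 | h3
    · exact ha2 j (Or.inr ⟨h1, h3⟩)
    · exact hb2 j (Or.inl ⟨h3, h2⟩)
  refine ⟨i, lo (llv i) + a', ⟨⟨by omega, by omega, hw, by omega, hL⟩, ?_, ?_, ?_, ?_⟩, rfl, e3,
    e4, by omega, by omega, ht⟩
  · intro j hj hj'
    rw [ht.flag (by omega) (by omega)]
    exact hall _ (by push_cast; omega) (by push_cast; omega)
  · intro j hj hj'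
    rw [ht.Q_iff (by omega) (by omega)]
    exact hcut _ (by push_cast; omega) (by push_cast; omega)
  · by_cases hin : In g h X (-(a' : ℤ) - 1)
    · right
      rw [ht.Q_iff (by omega) (by omega)]
      by_contra hc
      have h4 : S (-(a' : ℤ) - 1) := by
        refine ⟨hin, ?_⟩
        rintro m (hm | hm)
        · omega
        · by_cases h5 : m = -(a' : ℤ)
          · subst h5
            have : ((lo (llv i) : ℕ) : ℤ) - ((lo (llv i) + a' : ℕ) : ℤ) = -(a' : ℤ) := by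
              push_cast
              ring
            rwa [this] at hc
          · exact ha2 m (Or.inr ⟨by omega, hm.2⟩)
      have := ha3 _ h4
      omega
    · left
      rw [← Bool.not_eq_true, ht.flag (by omega) (by omega)]
      have : ((lo (llv i) : ℕ) : ℤ) - 1 - ((lo (llv i) + a' : ℕ) : ℤ) = -(a' : ℤ) - 1 := by
        push_cast
        ring
      rwa [this]
  · by_cases hin : In g h X ((b' : ℤ) + 1)
    · right
      rw [ht.Q_iff (by omega) (by omega)]
      by_contra hc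
      have h4 : S ((b' : ℤ) + 1) := by
        refine ⟨hin, ?_⟩
        rintro m (hm | hm)
        · by_cases h5 : m = (b' : ℤ) + 1
          · subst h5
            have : ((lhi i : ℕ) : ℤ) + 1 - ((lo (llv i) + a' : ℕ) : ℤ) = (b' : ℤ) + 1 := by
              rw [e2]
              push_cast
              ring
            rwa [this] at hc
          · exact hb2 m (Or.inl ⟨hm.1, by omega⟩)
        · omega
      have := hb3 _ h4
      omega
    · left
      rw [← Bool.not_eq_true, ht.flag (by omega) (by omega)]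
      have : ((lhi i : ℕ) : ℤ) + 1 - ((lo (llv i) + a' : ℕ) : ℤ) = (b' : ℤ) + 1 := by
        rw [e2]
        push_cast
        ring
      rwa [this]

end Pool.Agent.V7H75.TP
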