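import Pool.Agent.V7H75.TP.Def

set_option autoImplicit false

/-!
The set which is put in is not computable in the oracle.
-/

namespace Pool.Agent.V7H75.TP

open Encodable Pool.Agent.Helper227 Pool.Agent.V7H75.HF
open Pool.Agent.H548R2.Post (hlt En ext En_mono En_congr mem_WE_iff)

/-- finitely many facts which hold finally -/
theorem ev_all {P : ℕ → ℕ → Prop} (N : ℕ) (h : ∀ j < N, ∃ S, ∀ s ≥ S, P j s) :
    ∃ S, ∀ s ≥ S, ∀ j < N, P j s := by
  induction N with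
  | zero => exact ⟨0, fun s _ j hj => absurd hj (Nat.not_lt_zero j)⟩
  | succ N ih =>
    obtain ⟨S, hS⟩ := ih fun j hj => h j (hj.trans (Nat.lt_succ_self N))
    obtain ⟨S', hS'⟩ := h N (Nat.lt_succ_self N)
    refine ⟨max S S', fun s hs j hj => ?_⟩
    rcases Nat.lt_succ_iff_lt_or_eq.1 hj with hj' | rfl
    · exact hS s (by omega) j hj'
    · exact hS' s (by omega)

theorem En_settle (c y : ℕ) (Y : ℕ → Bool) : ∃ x0, ∀ x ≥ x0, ∀ s, En s c y Y → En x c y Y := by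
  by_cases h : ∃ s, En s c y Y
  · obtain ⟨s0, hs0⟩ := h
    exact ⟨s0, fun x hx s _ => En_mono hx hs0⟩
  · exact ⟨0, fun x _ s hs => absurd ⟨s, hs⟩ h⟩

theorem st_settle (i : ℕ) (Y : ℕ → Bool) : ∃ x0, ∀ x ≥ x0, ∀ s, st i x s Y := by
  have h1 : ∃ x0, ∀ x ≥ x0, ∀ c < i + 1, ∀ w < 2 ^ ((i + 1) * (i + 1)), ∀ s,
      En s c (Nat.pair i w) Y → En x c (Nat.pair i w) Y := by
    refine ev_all (P := fun c x => ∀ w < 2 ^ ((i + 1) * (i + 1)), ∀ s,
      En s c (Nat.pair i w) Y → En x c (Nat.pair i w) Y) (i + 1) fun c _ => ?_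
    exact ev_all (P := fun w x => ∀ s, En s c (Nat.pair i w) Y → En x c (Nat.pair i w) Y) _
      fun w _ => En_settle c (Nat.pair i w) Y
  obtain ⟨x0, hx0⟩ := h1
  exact ⟨x0, fun x hx s c hc w hw => hx0 x hx c hc w hw s⟩

variable {g h : Str → Str} (hg : SF g) (hh : SF h)

include hg hh

theorem Raw_cast {Y : ℕ → Bool} {n : ℕ} (hL : Lv g h Y n) (j : ℤ) :
    ∃ s, ∀ s' ≥ s, ∀ b < n + 1, Raw g h n (pre Y s') j b = Rt g h Y j b := by
  obtain ⟨s, hs⟩ := Raw_lim hg hh hL j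
  exact ⟨s, fun s' hs' b hb => hs s' hs' b (by omega)⟩

/-- the patterns of the true labels are finally seen by the members -/
theorem Tr.mt_final {X : ℕ → Bool} {i p q : ℕ} (ht : Tr g h X i p) (hL : Lv g h X (llv i))
    (hin : In g h X ((q : ℤ) - p)) : ∃ S, ∀ s ≥ S, mt g h i q s (zz g h X ((q : ℤ) - p)) := by
  have hL' := Lv_shift hg hh hL hin
  obtain ⟨S, hS⟩ := ev_all (P := fun j s => ∀ b < llv i + 1,
    Raw g h (llv i) (pre (zz g h X ((q : ℤ) - p)) s) ((j : ℤ) - q) b =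
      Rt g h (zz g h X ((q : ℤ) - p)) ((j : ℤ) - q) b) (ell (llv i))
    fun j _ => Raw_cast hg hh hL' ((j : ℤ) - q)
  refine ⟨S, fun s hs j hj b hb => ?_⟩
  rw [hS s hs j hj b hb, Rt_shift hg hh hin, ← ht j hj b hb]
  show Rt g h X ((j : ℤ) - q + (q - p)) b = Rt g h X ((j : ℤ) - p) b
  rw [show (j : ℤ) - q + (q - p) = j - p by ring]

theorem Tr.in_seg {X : ℕ → Bool} {i p : ℕ} (hv : Valid i) (ht : Tr g h X i p) {q : ℕ}
    (hq : q < lhi i + 1) (hq' : lo (llv i) ≤ q) : In g h X ((q : ℤ) - p) := by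
  rw [← ht.flag (by omega) (by have := hv.1.2.2.1; omega)]
  exact hv.2.1 q hq hq'

/-- a true label acts if its program enumerates all of the elements -/
theorem Tr.act {X : ℕ → Bool} {i : ℕ} (hv : Valid i) (ht : Tr g h X i (lf i))
    (hL : Lv g h X (llv i)) (hall : ∀ x, el i (lf i) x ∈ WE X (lk i)) :
    ∃ x, VV g h X i (lf i) x := by
  obtain ⟨S1, hS1⟩ : ∃ S, ∀ s ≥ S, ∀ q < lhi i + 1, lo (llv i) ≤ q →
      mt g h i q s (zz g h X ((q : ℤ) - lf i)) := by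
    refine ev_all (P := fun q s => lo (llv i) ≤ q → mt g h i q s (zz g h X ((q : ℤ) - lf i))) _
      fun q hq => ?_
    by_cases hq' : lo (llv i) ≤ q
    · obtain ⟨S, hS⟩ := ht.mt_final hg hh hL (ht.in_seg hg hh hv hq hq')
      exact ⟨S, fun s hs _ => hS s hs⟩
    · exact ⟨0, fun s _ h1 => absurd h1 hq'⟩
  obtain ⟨x0, hx0⟩ : ∃ x0, ∀ x ≥ x0, ∀ q < lhi i + 1, ∀ s,
      st i x s (zz g h X ((q : ℤ) - lf i)) :=
    ev_all (P := fun q x => ∀ s, st i x s (zz g h X ((q : ℤ) - lf i))) _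
      fun q _ => st_settle i _
  obtain ⟨s0, hs0⟩ := (mem_WE_iff _ _ _).1 (hall x0)
  let s := max (max S1 s0) (x0 + 1)
  have hG : Good g h i x0 s (fun q => zz g h X ((q : ℤ) - lf i)) := by
    refine ⟨hv, by omega, fun q hq hq' => ⟨hS1 s (by omega) q hq hq', hx0 x0 le_rfl q hq s⟩, ?_⟩
    show En s (lk i) (el i (lf i) x0) (zz g h X ((lf i : ℤ) - lf i))
    rw [sub_self, zz_zero]
    exact En_mono (by omega) hs0
  obtain ⟨x, s', hD⟩ := exists_Dec hG
  exact ⟨x, (VV_iff hg hh hL).2 ⟨hv.1.1, hv.1.2.1, fun q hq hq' => ht.in_seg hg hh hv hq hq', s', hD⟩⟩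

theorem not_le_V (X : ℕ → Bool) : ¬ TLe (V g h X) X := by
  intro hle
  have h1 : SI X fun z : ℕ => z ∈ {z | V g h X z = false} :=
    (tLe_iff_SI.1 hle).comp (f := fun z : ℕ => (z, false)) (Primrec.id.pair (Primrec.const false))
  obtain ⟨k, hk⟩ := ceIn_iff_exists_WE.1 (SI.iff_ceIn.2 h1)
  obtain ⟨n0, hn0⟩ := exists_Lv hg hh X
  obtain ⟨i, p, hv, e1, e2, e3, h2, h3, ht⟩ := exists_Tr (g := g) (h := h) X (le_max_right n0 k)
  subst e3
  have hL : Lv g h X (llv i) := hn0 _ (by rw [e1]; exact le_max_left _ _)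
  by_cases hex : ∃ x, VV g h X i (lf i) x
  · obtain ⟨x, hx⟩ := hex
    have h4 := (VV_iff hg hh hL).1 hx
    obtain ⟨-, -, -, s, hD⟩ := h4
    have h5 := hD.1.2.2.2
    simp only [sub_self, zz_zero] at h5
    have h6 : el i (lf i) x ∈ WE X k := by
      rw [← e2]
      exact (mem_WE_iff _ _ _).2 ⟨s, h5⟩
    rw [← hk] at h6
    have h7 : V g h X (el i (lf i) x) = true := V_el.2 hx
    have h8 : V g h X (el i (lf i) x) = false := h6
    rw [h7] at h8
    exact absurd h8 (by simp)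
  · refine hex (ht.act hg hh hv hL fun x => ?_)
    rw [e2, ← hk]
    show V g h X (el i (lf i) x) = false
    rw [← Bool.not_eq_true, V_el]
    exact fun h4 => hex ⟨x, h4⟩

end Pool.Agent.V7H75.TP
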