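import Pool.Agent.V7H75.TP.Eff
import Pool.Agent.V7H75.TP.Non

set_option autoImplicit false

/-!
The orbit of a fixed oracle is computable in the oracle.
-/

namespace Pool.Agent.V7H75.TP

open Encodable Pool.Agent.Helper227 Pool.Agent.V7H75.HF
open Pool.Agent.H548R2.Post (hlt En ext En_mono En_congr mem_WE_iff primrec_pow)

theorem In_prim_pos (g h : Str → Str) (X : ℕ → Bool) :
    ∃ R : ℤ → Prop, PrimrecPred R ∧ ∀ j, 0 ≤ j → (In g h X j ↔ R j) := by
  by_cases hall : ∀ j, 0 ≤ j → In g h X j
  · exact ⟨fun _ => True, PP.const True, fun j hj => ⟨fun _ => trivial, fun _ => hall j hj⟩⟩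
  · push Not at hall
    obtain ⟨j0, h0, h1⟩ := hall
    obtain ⟨b, ⟨hb1, hb2⟩, hb3⟩ := Int.exists_greatest_of_bdd (P := fun j => 0 ≤ j ∧ In g h X j)
      ⟨j0, fun z hz => by
        by_contra hc
        exact h1 (In_int h0 (by omega) (In_zero g h X) hz.2)⟩ ⟨0, le_rfl, In_zero g h X⟩
    refine ⟨fun j => j ≤ b, prim_leZ.comp Primrec.id (Primrec.const b), fun j hj =>
      ⟨fun h2 => hb3 j ⟨hj, h2⟩, fun h2 => In_int hj h2 (In_zero g h X) hb2⟩⟩

theorem In_prim (g h : Str → Str) (X : ℕ → Bool) : PrimrecPred fun j : ℤ => In g h X j := by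
  obtain ⟨R, hR, h1⟩ := In_prim_pos g h X
  obtain ⟨R', hR', h2⟩ := In_prim_pos h g X
  have h0 : PrimrecPred fun j : ℤ => 0 ≤ j := prim_leZ.comp (Primrec.const 0) Primrec.id
  have hneg : Primrec fun j : ℤ => -j :=
    (prim_mkZ.comp prim_negToNat prim_toNat).of_eq fun a => by omega
  refine ((h0.and hR).or (h0.not.and (hR'.comp hneg))).of_eq fun j => ?_
  by_cases hj : 0 ≤ j
  · simp only [hj, not_true, false_and, or_false, true_and]
    exact (h1 j hj).symm
  · simp only [hj, not_false_eq_true, false_and, false_or, true_and]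
    rw [← h2 (-j) (by omega), ← In_neg, neg_neg]

section fix

variable {g h : Str → Str} (hg : SF g) (hh : SF h) (cg : Computable g) (ch : Computable h)

include hg hh cg ch

/-- the orbit of `X` is computable in `X` -/
theorem orbit_le (X : ℕ → Bool) : TLe (colz (zz g h X)) X := by
  rw [tLe_iff_SI]
  have h1 : UD fun B (y : (ℕ × Bool) × ℕ) => (dp y.1.1).2 < (gz g h (dp y.1.1).1 (pre B y.2)).length ∧
      (gz g h (dp y.1.1).1 (pre B y.2)).getD (dp y.1.1).2 false = y.1.2 := by
    refine UD.of_preC (P := fun w : List Bool × ((ℕ × Bool) × ℕ) =>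
      (dp w.2.1.1).2 < (gz g h (dp w.2.1.1).1 w.1).length ∧
      (gz g h (dp w.2.1.1).1 w.1).getD (dp w.2.1.1).2 false = w.2.1.2) ?_ Computable.snd
    have c1 : Computable fun w : List Bool × ((ℕ × Bool) × ℕ) => dp w.2.1.1 :=
      dp_comp.comp (Computable.fst.comp (Computable.fst.comp Computable.snd))
    have c2 : Computable fun w : List Bool × ((ℕ × Bool) × ℕ) => gz g h (dp w.2.1.1).1 w.1 :=
      (gz_comp cg ch).comp
        (g := fun w : List Bool × ((ℕ × Bool) × ℕ) => (((dp w.2.1.1).1, w.1) : ℤ × Str))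
        ((Computable.fst.comp c1).pair Computable.fst)
    refine UD.and (UD.lt (Computable.snd.comp c1) (Computable.list_length.comp c2)) ?_
    exact UD.of_comp (p := fun x : Bool × Bool => x.1 = x.2) Primrec.eq
      ((Computable₂.comp (f := fun (l : List Bool) (n : ℕ) => l.getD n false)
        (Primrec.list_getD false).to_comp c2 (Computable.snd.comp c1)).pair
        (Computable.snd.comp (Computable.fst.comp Computable.snd)))
  have h2 := SI.ex (p := fun (y : ℕ × Bool) t => (dp y.1).2 < (gz g h (dp y.1).1 (pre X t)).length ∧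
      (gz g h (dp y.1).1 (pre X t)).getD (dp y.1).2 false = y.2) (h1.pos.si X)
  have h3 : SI X fun y : ℕ × Bool => In g h X (dp y.1).1 :=
    (SI.of_prim (In_prim g h X)).comp_computable (f := fun y : ℕ × Bool => (dp y.1).1)
      (Computable.fst.comp (dp_comp.comp Computable.fst))
  have h4 : SI X fun y : ℕ × Bool => ¬ In g h X (dp y.1).1 :=
    (SI.of_prim (In_prim g h X).not).comp_computable (f := fun y : ℕ × Bool => (dp y.1).1)
      (Computable.fst.comp (dp_comp.comp Computable.fst))
  have h5 : SI X fun y : ℕ × Bool => y.2 = false :=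
    SI.of_prim (Primrec.eq.comp Primrec.snd (Primrec.const false))
  refine (SI.or (SI.and h3 h2) (SI.and h4 h5)).of_eq fun y => ?_
  unfold colz
  by_cases hin : In g h X (dp y.1).1
  · simp only [hin, not_true, false_and, or_false, true_and]
    have ha := ap_gz hg hh hin
    constructor
    · rintro ⟨t, ht1, ht2⟩
      rw [← ht2]
      have h6 := pre_getD (zz g h X (dp y.1).1) _ (dp y.1).2 false ht1
      rw [← ha.eq_pre (gz_SF hg hh _) t] at h6
      exact h6.symm
    · intro h6
      obtain ⟨t, ht⟩ := ha.len (gz_SF hg hh _) ((dp y.1).2 + 1)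
      have ht' : (dp y.1).2 < (gz g h (dp y.1).1 (pre X t)).length := ht t le_rfl
      refine ⟨t, ht', ?_⟩
      rw [← h6]
      have h7 := pre_getD (zz g h X (dp y.1).1) _ (dp y.1).2 false ht'
      rw [← ha.eq_pre (gz_SF hg hh _) t] at h7
      exact h7
  · simp only [hin, not_false_eq_true, false_and, false_or, true_and]
    have h6 : zz g h X (dp y.1).1 = fun _ => false := by
      unfold zz
      cases h7 : ob g h X (dp y.1).1 with
      | none => rfl
      | some Y => exact absurd ⟨Y, h7⟩ hin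
    rw [h6]
    exact eq_comm

omit hg hh in
theorem Dz_UD : UD fun B (y : ℕ × (ℕ × ℕ × ℕ)) =>
    Dec g h y.2.1 y.2.2.1 y.2.2.2 (fun q => rowz B ((q : ℤ) - y.1)) := by
  have h1 : UD fun B (y : ℕ × (ℕ × ℕ)) => rowz B ((y.2.1 : ℤ) - y.1) y.2.2 = true :=
    rowz_UD.comp (f := fun y : ℕ × (ℕ × ℕ) => ((y.2.1 : ℤ) - y.1, y.2.2))
      ((c_subZ (c_cast (Computable.fst.comp Computable.snd)) (c_cast Computable.fst)).pair
        (Computable.snd.comp Computable.snd))
  exact Dec_sub cg ch (u := fun B (p : ℕ) q => rowz B ((q : ℤ) - p)) h1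

end fix

/-- the recursion theorem relative to an oracle -/
theorem SI.fixed_point {X : ℕ → Bool} {p : ℕ → ℕ → Prop} (hp : SI X fun y : ℕ × ℕ => p y.1 y.2) :
    ∃ c, ∀ y, y ∈ WE X c ↔ p c y := by
  obtain ⟨E, hE, mE, eE⟩ := hp
  have h1 : S1 fun y : Nat.Partrec.Code × ℕ => ∃ (σ : List Bool) (n : ℕ), y.2 = encode (σ, n) ∧
      E (σ, (encode y.1, n)) := by
    refine S1.ex (S1.ex (S1.and (S1.of_prim ?_) (hE.comp ?_)))
    · exact Primrec.eq.comp (Primrec.snd.comp (Primrec.fst.comp Primrec.fst))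
        (Primrec.encode.comp ((Primrec.snd.comp Primrec.fst).pair Primrec.snd))
    · exact (Primrec.snd.comp Primrec.fst).pair ((Primrec.encode.comp (Primrec.fst.comp
        (Primrec.fst.comp Primrec.fst))).pair Primrec.snd)
  have h2 : Partrec₂ fun (cd : Nat.Partrec.Code) (m : ℕ) =>
      (Part.assert (∃ (σ : List Bool) (n : ℕ), m = encode (σ, n) ∧ E (σ, (encode cd, n)))
        fun _ => Part.some 0 : Part ℕ) := by
    have h3 : Partrec fun y : Nat.Partrec.Code × ℕ =>
        (Part.assert (∃ (σ : List Bool) (n : ℕ), y.2 = encode (σ, n) ∧ E (σ, (encode y.1, n)))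
        fun _ => Part.some () : Part Unit) := h1.re
    exact (h3.map (Computable.const 0).to₂).of_eq fun y => by
      ext m
      simp [Part.mem_assert_iff]
      intro _ _ _ _
      exact eq_comm
  obtain ⟨cd, hcd⟩ := Nat.Partrec.Code.fixed_point₂ h2
  refine ⟨encode cd, fun y => ?_⟩
  refine Iff.trans ?_ (eE (encode cd, y)).symm
  simp only [WE, Set.mem_ofPred_eq, Denumerable.ofNat_encode]
  refine exists_congr fun k => ?_
  rw [hcd]
  simp only [Part.assert, Part.some_dom, exists_prop, and_true]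
  constructor
  · rintro ⟨σ, n, h3, h4⟩
    have h5 := Encodable.encode_injective h3
    simp only [Prod.mk.injEq] at h5
    rw [h5.2]
    unfold pre
    rw [h5.1]
    exact h4
  · intro h3
    exact ⟨pre X k, y, rfl, h3⟩

end Pool.Agent.V7H75.TP
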