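import Pool.Agent.V7H75.HF.Mark

set_option autoImplicit false

/-!
The markers and the cuts depend on a bounded part of the sequence; sequences of oracles which are
defined on an interval only.
-/

namespace Pool.Agent.V7H75.TP

open Pool.Agent.Helper227 Pool.Agent.V7H75.HF

/-- the radius for the markers -/
def aP : ℕ → ℕ
  | 0 => 0
  | n + 1 => aP n + (n + 1)

/-- the radius for the cuts -/
def aQ : ℕ → ℕ
  | 0 => 0
  | n + 1 => gp (n + 1) + aP (n + 1) + aQ n

/-- the two sequences agree near `j` -/
def Agr (x x' : ℤ → ℕ → Bool) (n r : ℕ) (j : ℤ) : Prop :=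
  ∀ i : ℤ, |i - j| ≤ r → ∀ b < n, x i b = x' i b

variable {x x' : ℤ → ℕ → Bool}

theorem Agr.mono {n n' r r' : ℕ} {j j' : ℤ} (h : Agr x x' n r j) (hn : n' ≤ n)
    (hr : |j' - j| + r' ≤ r) : Agr x x' n' r' j' := by
  intro i hi b hb
  refine h i ?_ b (by omega)
  have := abs_add_le (i - j') (j' - j)
  rw [show i - j' + (j' - j) = i - j by ring] at this
  omega

theorem lab_congr {n : ℕ} {j : ℤ} (h : ∀ b < n, x j b = x' j b) : lab x n j = lab x' n j := by
  unfold lab
  congr 1
  unfold pre
  refine List.map_congr_left fun b hb => h b (List.mem_range.1 hb)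

theorem P_loc (n : ℕ) : ∀ j : ℤ, Agr x x' n (aP n) j → (P x n j ↔ P x' n j) := by
  induction n with
  | zero => intro j _; exact Iff.rfl
  | succ n ih =>
    intro j h
    have hr : aP (n + 1) = aP n + (n + 1) := rfl
    rw [P_succ, P_succ]
    have h0 : lab x (n + 1) j = lab x' (n + 1) j :=
      lab_congr fun b hb => h j (by simp) b hb
    refine and_congr (ih j (h.mono (by omega) (by simp; omega))) (forall_congr' fun k =>
      forall_congr' fun hk => ?_)
    have h1 : |j + k - j| = |k| := by
      congr 1
      ring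
    rw [ih (j + k) (h.mono (by omega) (by rw [h1]; push_cast at *; omega)), h0,
      lab_congr (x := x) (x' := x') (n := n + 1) (j := j + k)
        (fun b hb => h (j + k) (by rw [h1]; push_cast at *; omega) b hb)]

theorem sm_loc {P P' : ℤ → Prop} {i j : ℤ}
    (h : ∀ k, |k - j| ≤ |i - j| → (P k ↔ P' k)) : sm P i j ↔ sm P' i j := by
  unfold sm
  refine forall_congr' fun k => forall_congr' fun hk => ?_
  rw [h k]
  rcases hk with hk | hk
  · rw [abs_le, abs_of_nonpos (by omega : i - j ≤ 0)]
    omega
  · rw [abs_le, abs_of_nonneg (by omega : 0 ≤ i - j)]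
    omega

theorem chg_loc {P P' R R' : ℤ → Prop} {b : ℕ} {j : ℤ} (h : ∀ k, |k - j| ≤ b → (P k ↔ R k))
    (h' : ∀ k, |k - j| ≤ b → (P' k ↔ R' k)) : chg P P' b j ↔ chg R R' b j := by
  unfold chg
  refine exists_congr fun k => and_congr_right fun hk => ?_
  have h1 : |j + k - j| = |k| := by
    congr 1
    ring
  rw [sm_loc (P := P') (P' := R') (i := j + k) (j := j)
    (fun m hm => h' m (by rw [h1] at hm; omega)), h _ (by omega), h' _ (by omega)]

theorem nQ_loc {P P' Q U R R' S V : ℤ → Prop} {b : ℕ} {j : ℤ} (h : ∀ k, |k - j| ≤ b → (P k ↔ R k))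
    (h' : ∀ k, |k - j| ≤ b → (P' k ↔ R' k)) (hQ : Q j ↔ S j)
    (hU : ∀ k, |k - j| ≤ b → (U k ↔ V k)) : nQ P P' Q U b j ↔ nQ R R' S V b j := by
  unfold nQ
  rw [chg_loc h h', hQ, hU j (by simp)]
  refine or_congr Iff.rfl (and_congr_right fun _ => and_congr_right fun _ =>
    forall_congr' fun k => forall_congr' fun hk => ?_)
  have h1 : |j + k - j| = |k| := by
    congr 1
    ring
  rw [sm_loc (P := P') (P' := R') (i := j + k) (j := j)
    (fun m hm => h' m (by rw [h1] at hm; omega)), hU _ (by omega)]

theorem QU_loc (n : ℕ) : ∀ (b : Bool) (j : ℤ), Agr x x' n (aQ n) j →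
    (QU x n b j ↔ QU x' n b j) := by
  induction n with
  | zero => intro b j _; exact Iff.rfl
  | succ n ih =>
    have hr : aQ (n + 1) = gp (n + 1) + aP (n + 1) + aQ n := rfl
    have hr' : aP (n + 1) = aP n + (n + 1) := rfl
    intro b j h
    have hP : ∀ k, |k - j| ≤ gp (n + 1) → (P x n k ↔ P x' n k) := fun k hk =>
      P_loc n k (h.mono (by omega) (by push_cast at *; omega))
    have hP' : ∀ k, |k - j| ≤ gp (n + 1) → (P x (n + 1) k ↔ P x' (n + 1) k) := fun k hk =>
      P_loc (n + 1) k (h.mono (by omega) (by push_cast at *; omega))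
    have hQU : ∀ b k, |k - j| ≤ gp (n + 1) → (QU x n b k ↔ QU x' n b k) := fun b k hk =>
      ih b k (h.mono (by omega) (by push_cast at *; omega))
    have hQ : nQ (P x n) (P x (n + 1)) (Q x n) (U x n) (gp (n + 1)) j ↔
        nQ (P x' n) (P x' (n + 1)) (Q x' n) (U x' n) (gp (n + 1)) j :=
      nQ_loc hP hP' (hQU false j (by simp)) (hQU true)
    cases b
    · exact Q_succ.trans (hQ.trans Q_succ.symm)
    · refine U_succ.trans (Iff.trans ?_ U_succ.symm)
      unfold nU
      rw [hQ, chg_loc hP hP']
      exact or_congr (hQU true j (by simp)) Iff.rfl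

/-- the coding of a sequence of oracles with gaps: the digit `0` is the flag; outside of the domain
the distances to the domain on both sides are coded. -/
def cod (w : ℤ → ℕ → Bool) (j : ℤ) (b : ℕ) : Bool :=
  if w j 0 = true then w j b
  else if b = 0 then false
  else if b % 2 = 1 then decide (∀ k < b / 2 + 1, w (j - (k : ℕ)) 0 = false)
  else decide (∀ k < b / 2 + 1, w (j + (k : ℕ)) 0 = false)

/-- the radius for the cuts of the coded sequence -/
def aa (n : ℕ) : ℕ := aQ n + n

theorem cod_loc {w w' : ℤ → ℕ → Bool} {n r : ℕ} {j : ℤ} (h : Agr w w' n (r + n) j) :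
    Agr (cod w) (cod w') n r j := by
  intro i hi b hb
  have h0 : ∀ k : ℤ, |k - i| ≤ n → w k 0 = w' k 0 := by
    intro k hk
    refine h k ?_ 0 (by omega)
    have := abs_add_le (k - i) (i - j)
    rw [show k - i + (i - j) = k - j by ring] at this
    push_cast
    omega
  have h1 : w i b = w' i b := h i (by push_cast; omega) b hb
  unfold cod
  have h2 : (∀ k < b / 2 + 1, w (i - (k : ℕ)) 0 = false) ↔
      (∀ k < b / 2 + 1, w' (i - (k : ℕ)) 0 = false) := by
    refine forall_congr' fun k => forall_congr' fun hk => ?_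
    rw [h0 (i - (k : ℕ)) (by rw [abs_le]; omega)]
  have h3 : (∀ k < b / 2 + 1, w (i + (k : ℕ)) 0 = false) ↔
      (∀ k < b / 2 + 1, w' (i + (k : ℕ)) 0 = false) := by
    refine forall_congr' fun k => forall_congr' fun hk => ?_
    rw [h0 (i + (k : ℕ)) (by rw [abs_le]; omega)]
  rw [h0 i (by simp), h1, decide_eq_decide.2 h2, decide_eq_decide.2 h3]

theorem Q_cod_loc {w w' : ℤ → ℕ → Bool} {n : ℕ} {j : ℤ} (h : Agr w w' n (aa n) j) :
    Q (cod w) n j ↔ Q (cod w') n j := QU_loc n false j (cod_loc h)

theorem cod_shift (w : ℤ → ℕ → Bool) (d : ℤ) : cod (fun i => w (i + d)) = fun i => cod w (i + d) := by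
  funext j b
  unfold cod
  have h1 : ∀ k : ℤ, j - k + d = j + d - k := fun k => by ring
  have h2 : ∀ k : ℤ, j + k + d = j + d + k := fun k => by ring
  simp only [h1, h2]

theorem Q_cod_shift (w : ℤ → ℕ → Bool) (d : ℤ) (n : ℕ) (j : ℤ) :
    Q (cod fun i => w (i + d)) n j ↔ Q (cod w) n (j + d) := by
  rw [cod_shift]
  exact QU_shift (cod w) d n false j

theorem cod_odd {w : ℤ → ℕ → Bool} {j : ℤ} (h : w j 0 = false) {c : ℕ} :
    cod w j (2 * c + 1) = decide (∀ k < c + 1, w (j - (k : ℕ)) 0 = false) := by
  unfold cod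
  have e1 : (2 * c + 1) % 2 = 1 := by omega
  have e2 : (2 * c + 1) / 2 = c := by omega
  have e4 : ¬ (2 * c + 1 = 0) := by omega
  simp [e1, e2, h, e4]

theorem cod_even {w : ℤ → ℕ → Bool} {j : ℤ} (h : w j 0 = false) {c : ℕ} (hc : 0 < c) :
    cod w j (2 * c) = decide (∀ k < c + 1, w (j + (k : ℕ)) 0 = false) := by
  unfold cod
  have e1 : ¬ (2 * c) % 2 = 1 := by omega
  have e2 : (2 * c) / 2 = c := by omega
  have e4 : ¬ (2 * c = 0) := by omega
  simp only [h, e1, e2, e4, if_false]
  simp

/-- the hypothesis for the coded sequence -/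
theorem cod_per {w : ℤ → ℕ → Bool} (h0 : w 0 0 = true)
    (hint : ∀ i j k : ℤ, i ≤ j → j ≤ k → w i 0 = true → w k 0 = true → w j 0 = true)
    (hper : ∀ a b : ℤ, a < b → w a 0 = true → w b 0 = true → w a = w b → ∀ i, w (i + (b - a)) = w i)
    (a b : ℤ) (hab : cod w a = cod w b) (i : ℤ) : cod w (i + (b - a)) = cod w i := by
  have hfl : ∀ j, cod w j 0 = w j 0 := by
    intro j
    unfold cod
    by_cases h : w j 0 = true
    · rw [if_pos h]
    · rw [if_neg h, if_pos rfl]
      simp only [Bool.not_eq_true] at h
      exact h.symm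
  have hcod : ∀ j, w j 0 = true → cod w j = w j := by
    intro j h
    funext c
    unfold cod
    rw [if_pos h]
  have hfab : w a 0 = w b 0 := by rw [← hfl a, ← hfl b, hab]
  by_cases hne : a = b
  · rw [hne, sub_self, add_zero]
  by_cases ha : w a 0 = true
  · have hb : w b 0 = true := hfab ▸ ha
    rw [hcod a ha, hcod b hb] at hab
    have key : ∀ i, w (i + (b - a)) = w i := by
      rcases lt_or_gt_of_ne hne with h | h
      · exact hper a b h ha hb hab
      · intro i
        have := hper b a h hb ha hab.symm (i + (b - a))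
        rw [show i + (b - a) + (a - b) = i by ring] at this
        exact this.symm
    have h2 : (fun i => w (i + (b - a))) = w := funext key
    have h3 := cod_shift w (b - a)
    rw [h2] at h3
    exact (congrFun h3 i).symm
  · exfalso
    have ha' : w a 0 = false := by simpa using ha
    have hb' : w b 0 = false := by rw [← hfab]; exact ha'
    -- the two distances
    have hodd : ∀ c : ℕ, (∀ k < c + 1, w (a - (k : ℕ)) 0 = false) ↔
        (∀ k < c + 1, w (b - (k : ℕ)) 0 = false) := by
      intro c
      have := congrFun hab (2 * c + 1)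
      rw [cod_odd ha', cod_odd hb'] at this
      simpa using this
    have heven : ∀ c : ℕ, 0 < c → ((∀ k < c + 1, w (a + (k : ℕ)) 0 = false) ↔
        (∀ k < c + 1, w (b + (k : ℕ)) 0 = false)) := by
      intro c hc
      have := congrFun hab (2 * c)
      rw [cod_even ha' hc, cod_even hb' hc] at this
      simpa using this
    have key : ∀ a b : ℤ, a < b → w a 0 = false → w b 0 = false →
        (∀ c : ℕ, (∀ k < c + 1, w (a - (k : ℕ)) 0 = false) ↔
          (∀ k < c + 1, w (b - (k : ℕ)) 0 = false)) →
        (∀ c : ℕ, 0 < c → ((∀ k < c + 1, w (a + (k : ℕ)) 0 = false) ↔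
          (∀ k < c + 1, w (b + (k : ℕ)) 0 = false))) → False := by
      intro a b hlt ha hb h1 h2
      rcases lt_trichotomy a 0 with h | h | h
      · -- the domain is on the right of `a`
        rcases lt_trichotomy b 0 with h' | h' | h'
        · -- both on the left; look to the right
          obtain ⟨r, ⟨hr1, hr2⟩, hr3⟩ := Int.exists_least_of_bdd
            (P := fun r => b < r ∧ w r 0 = true) ⟨b, fun z hz => hz.1.le⟩ ⟨0, h', h0⟩
          have e := h2 (r - b).toNat (by omega)
          have hA : ∀ k < (r - b).toNat + 1, w (a + (k : ℕ)) 0 = false := by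
            intro k hk
            by_contra hc
            have hc' : w (a + (k : ℕ)) 0 = true := by simpa using hc
            by_cases hb2 : a + (k : ℕ) ≤ b
            · have := hint (a + (k : ℕ)) b r hb2 hr1.le hc' hr2
              rw [hb] at this
              exact absurd this (by simp)
            · have := hr3 (a + (k : ℕ)) ⟨by omega, hc'⟩
              omega
          have := e.1 hA (r - b).toNat (by omega)
          rw [show b + ((r - b).toNat : ℕ) = r by omega, hr2] at this
          exact absurd this (by simp)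
        · rw [h', h0] at hb
          exact absurd hb (by simp)
        · -- `a < 0 < b`
          have e := h1 b.toNat
          have hA : ∀ k < b.toNat + 1, w (a - (k : ℕ)) 0 = false := by
            intro k _
            by_contra hc
            have hc' : w (a - (k : ℕ)) 0 = true := by simpa using hc
            have := hint (a - (k : ℕ)) a 0 (by omega) h.le hc' h0
            rw [ha] at this
            exact absurd this (by simp)
          have := e.1 hA b.toNat (by omega)
          rw [show b - (b.toNat : ℕ) = 0 by omega, h0] at this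
          exact absurd this (by simp)
      · rw [h, h0] at ha
        exact absurd ha (by simp)
      · -- `0 < a < b`; look to the left
        obtain ⟨r, ⟨hr1, hr2⟩, hr3⟩ := Int.exists_greatest_of_bdd
          (P := fun r => r < a ∧ w r 0 = true) ⟨a, fun z hz => hz.1.le⟩ ⟨0, h, h0⟩
        have e := h1 (a - r).toNat
        have hA : ∀ k < (a - r).toNat + 1, w (b - (k : ℕ)) 0 = false := by
          intro k hk
          by_contra hc
          have hc' : w (b - (k : ℕ)) 0 = true := by simpa using hc
          by_cases hb2 : a ≤ b - (k : ℕ)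
          · have := hint r a (b - (k : ℕ)) hr1.le hb2 hr2 hc'
            rw [ha] at this
            exact absurd this (by simp)
          · have := hr3 (b - (k : ℕ)) ⟨by omega, hc'⟩
            omega
        have := e.2 hA (a - r).toNat (by omega)
        rw [show a - ((a - r).toNat : ℕ) = r by omega, hr2] at this
        exact absurd this (by simp)
    rcases lt_or_gt_of_ne hne with h | h
    · exact key a b h ha' hb' hodd heven
    · exact key b a h hb' ha' (fun c => (hodd c).symm) (fun c hc => (heven c hc).symm)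

/-- neighbours in the domain are finally not separated, or the sequence is periodic and all other
neighbours are finally not separated. -/
theorem edge (x : ℤ → ℕ → Bool) (hx : ∀ a b : ℤ, x a = x b → ∀ i, x (i + (b - a)) = x i) :
    (∃ N, ∀ n ≥ N, ¬ Q x n 1) ∨
      ∃ p : ℕ, 0 < p ∧ (∀ i, x (i + p) = x i) ∧ ∀ i : ℕ, 1 ≤ i → i < p →
        ∃ N, ∀ n ≥ N, ¬ Q x n ((i : ℤ) + 1) := by
  by_cases h : ∀ N, ∃ n ≥ N, Q x n 1
  · right
    obtain ⟨n0, a, b, ha, hb, hab, hn⟩ := persistent h
    have hg := hx a b hab
    have hgs : ∀ n j, Q x n (j + (b - a)) ↔ Q x n j := by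
      intro n j
      have h1 := QU_shift x (b - a) n false j
      have h2 : (fun i => x (i + (b - a))) = x := funext hg
      rw [h2] at h1
      exact h1.symm
    refine ⟨(b - a).toNat, by omega, fun i => ?_, fun i hi1 hi2 => ⟨n0, fun n hn' hq => ?_⟩⟩
    · rw [show (((b - a).toNat : ℕ) : ℤ) = b - a by omega]
      exact hg i
    · obtain ⟨hQ, hP⟩ := hn n hn'
      by_cases hib : (i : ℤ) + 1 < b
      · have h1 := (inv n).2.1 ((i : ℤ) + 1) 1 (by
          rintro m (hm | hm)
          · omega
          · exact hP m (by omega) (by omega)) hq hQ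
        omega
      · have hq' : Q x n ((i : ℤ) + 1 - (b - a)) := by
          rw [← hgs, sub_add_cancel]
          exact hq
        have h1 := (inv n).2.1 ((i : ℤ) + 1 - (b - a)) 1 (by
          rintro m (hm | hm)
          · exact hP m (by omega) (by omega)
          · omega) hq' hQ
        omega
  · left
    push Not at h
    exact h

end Pool.Agent.V7H75.TP
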